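import Mathlib

/-!
# Definitions for the alternating method
-/

open Filter Topology

namespace Pool.Agent.Helper406.AltMethod

section

variable {𝕜 E : Type*} [RCLike 𝕜] [NormedAddCommGroup E] [NormedSpace 𝕜 E]

/-- `g` is a nearest point to `x` in the subspace `G`. -/
def IsNearest (G : Submodule 𝕜 E) (x g : E) : Prop :=
  g ∈ G ∧ ∀ h ∈ G, ‖x - g‖ ≤ ‖x - h‖

/-- the metric projection `π_G(x)`: a chosen nearest point of `G` to `x` (the nearest point,
when there is exactly one) -/
noncomputable def metricProj (G : Submodule 𝕜 E) (x : E) : E :=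
  Classical.epsilon (IsNearest G x)

/-- `H_k = G₁` for odd `k` and `H_k = G₂` for even `k` -/
def altSpace (G₁ G₂ : Submodule 𝕜 E) (k : ℕ) : Submodule 𝕜 E :=
  if Odd k then G₁ else G₂

/-- the residuals: `r_0 = x` and `r_{k+1} = r_k - π_{H_{k+1}}(r_k)` -/
noncomputable def altResidual (G₁ G₂ : Submodule 𝕜 E) (x : E) : ℕ → E
  | 0 => x
  | k + 1 => altResidual G₁ G₂ x k - metricProj (altSpace G₁ G₂ (k + 1)) (altResidual G₁ G₂ x k)

end

section

variable (𝕜 E : Type*) [RCLike 𝕜] [NormedAddCommGroup E] [NormedSpace 𝕜 E]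

/-- every `x` has exactly one nearest point in each closed subspace -/
def UniqueNearestPoints : Prop :=
  ∀ G : Submodule 𝕜 E, IsClosed (G : Set E) → ∀ x : E, ∃! g : E, IsNearest G x g

/-- `E` admits the alternating method: `π_G(x) = ∑_{k ≥ 1} π_{H_k}(r_{k-1}(x))`, with convergence
in norm, for all closed subspaces `G₁, G₂` and all `x`, where `G` is the closed linear span of
`G₁ ∪ G₂`. -/
def AdmitsAlternatingMethod : Prop :=
  ∀ G₁ G₂ : Submodule 𝕜 E, IsClosed (G₁ : Set E) → IsClosed (G₂ : Set E) → ∀ x : E,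
    Tendsto (fun n : ℕ => ∑ k ∈ Finset.range n,
        metricProj (altSpace G₁ G₂ (k + 1)) (altResidual G₁ G₂ x k))
      atTop (𝓝 (metricProj (G₁ ⊔ G₂).topologicalClosure x))

/-- `E` is infinite-dimensional -/
def InfiniteDimensional : Prop := ¬ FiniteDimensional 𝕜 E

/-- every continuous linear functional `φ` on `D` is of the form `φ f = ev f x` for some `x` -/
def Represented (𝕜 E D : Type*) [RCLike 𝕜] [NormedAddCommGroup D] [NormedSpace 𝕜 D]
    (ev : D → E → 𝕜) : Prop :=
  ∀ φ : StrongDual 𝕜 D, ∃ x : E, ∀ f : D, φ f = ev f x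

/-- `E` is reflexive: every continuous linear functional on the dual is the evaluation at a point
of `E`. -/
def ReflexiveSpace : Prop := Represented 𝕜 E (StrongDual 𝕜 E) (fun f x => f x)

/-- the norm of `E` is induced by an inner product -/
def NormFromInnerProduct : Prop :=
  ∃ c : InnerProductSpace.Core 𝕜 E, ∀ x : E, ‖x‖ ^ 2 = RCLike.re (c.inner x x)

end

/-- `E` is strictly convex. -/
def StrictlyConvex (E : Type*) [NormedAddCommGroup E] : Prop :=
  ∀ x y : E, ‖x‖ = 1 → ‖y‖ = 1 → x ≠ y → ‖x + y‖ < 2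

end Pool.Agent.Helper406.AltMethod
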