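import Mathlib

/-!
# The alternating method in spaces satisfying a two-sided parallelogram inequality

If `2‖x‖² + 2m‖y‖² ≤ ‖x+y‖² + ‖x-y‖² ≤ 2‖x‖² + 2M‖y‖²` for all `x y` (with `m > 0`), then the
alternating method with two closed subspaces converges in norm.
-/

open Filter Topology

namespace Pool.Agent.Helper406.AltMethod

section general

variable {E : Type*} [NormedAddCommGroup E] [NormedSpace ℝ E]

/-- a choice of a support functional of `½‖·‖²` -/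
noncomputable def J (v : E) : StrongDual ℝ E := ‖v‖ • Classical.choose (exists_dual_vector'' ℝ v)

lemma J_self (v : E) : J v v = ‖v‖ ^ 2 := by
  have h := (Classical.choose_spec (exists_dual_vector'' ℝ v)).2
  simp only [J, smul_apply, h, smul_eq_mul]
  simp [sq]

lemma J_abs_le (v u : E) : |J v u| ≤ ‖v‖ * ‖u‖ := by
  have h := (Classical.choose_spec (exists_dual_vector'' ℝ v)).1
  simp only [J, smul_apply, smul_eq_mul, abs_mul, abs_norm]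
  apply mul_le_mul_of_nonneg_left _ (norm_nonneg v)
  have h2 := ContinuousLinearMap.le_opNorm (Classical.choose (exists_dual_vector'' ℝ v)) u
  rw [Real.norm_eq_abs] at h2
  calc _ ≤ _ := h2
    _ ≤ 1 * ‖u‖ := mul_le_mul_of_nonneg_right h (norm_nonneg u)
    _ = ‖u‖ := one_mul _

lemma J_sub (v u : E) : ‖v‖ ^ 2 + 2 * J v (u - v) ≤ ‖u‖ ^ 2 := by
  have h := le_of_abs_le (J_abs_le v u)
  rw [map_sub, J_self]
  nlinarith [sq_nonneg (‖v‖ - ‖u‖)]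

lemma J_add (v w : E) : ‖v‖ ^ 2 + 2 * J v w ≤ ‖v + w‖ ^ 2 := by
  have := J_sub v (v + w)
  simpa using this

variable {m M : ℝ}

lemma J_upper (hM : ∀ x y : E, ‖x + y‖ ^ 2 + ‖x - y‖ ^ 2 ≤ 2 * ‖x‖ ^ 2 + 2 * M * ‖y‖ ^ 2)
    (v w : E) : ‖v + w‖ ^ 2 ≤ ‖v‖ ^ 2 + 2 * J v w + 2 * M * ‖w‖ ^ 2 := by
  have h1 := hM v w
  have h2 := J_add v (-w)
  rw [map_neg, ← sub_eq_add_neg] at h2
  linarith

lemma J_lower (hm : ∀ x y : E, 2 * ‖x‖ ^ 2 + 2 * m * ‖y‖ ^ 2 ≤ ‖x + y‖ ^ 2 + ‖x - y‖ ^ 2)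
    (v w : E) : ‖v‖ ^ 2 + 2 * J v w + m / 2 * ‖w‖ ^ 2 ≤ ‖v + w‖ ^ 2 := by
  have h1 := hm (v + (1 / 2 : ℝ) • w) ((1 / 2 : ℝ) • w)
  have h2 := J_add v ((1 / 2 : ℝ) • w)
  have e1 : v + (1 / 2 : ℝ) • w + (1 / 2 : ℝ) • w = v + w := by
    rw [add_assoc, ← add_smul]; norm_num
  have e2 : v + (1 / 2 : ℝ) • w - (1 / 2 : ℝ) • w = v := by simp
  rw [e1, e2] at h1
  have e3 : ‖(1 / 2 : ℝ) • w‖ = 1 / 2 * ‖w‖ := by rw [norm_smul]; norm_num
  rw [e3] at h1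
  rw [map_smul, smul_eq_mul] at h2
  nlinarith

/-- orthogonality at a minimiser -/
lemma J_orth (hM : ∀ x y : E, ‖x + y‖ ^ 2 + ‖x - y‖ ^ 2 ≤ 2 * ‖x‖ ^ 2 + 2 * M * ‖y‖ ^ 2)
    {r h : E} (hr : ∀ t : ℝ, ‖r‖ ≤ ‖r + t • h‖) : J r h = 0 := by
  have key : ∀ t : ℝ, 0 ≤ 2 * (t * J r h) + 2 * M * (t ^ 2 * ‖h‖ ^ 2) := by
    intro t
    have h1 := J_upper hM r (t • h)
    have h2 : ‖r‖ ^ 2 ≤ ‖r + t • h‖ ^ 2 := pow_le_pow_left₀ (norm_nonneg _) (hr t) 2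
    rw [map_smul, smul_eq_mul, norm_smul, mul_pow, Real.norm_eq_abs, sq_abs] at h1
    linarith
  by_contra hne
  set a := J r h with ha
  set b := M * ‖h‖ ^ 2 with hb
  have key2 : ∀ t : ℝ, 0 ≤ t * a + b * t ^ 2 := fun t => by
    have := key t; rw [hb]; linarith
  have hb0 : 0 ≤ b := by
    have h1 := key2 1
    have h2 := key2 (-1)
    nlinarith
  have h3 := key2 (-(a / (b + 1)) )
  have hb1 : 0 < b + 1 := by linarith
  have e : -(a / (b + 1)) * a + b * (-(a / (b + 1))) ^ 2 = - a ^ 2 / (b + 1) ^ 2 := by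
    field_simp
    ring
  rw [e] at h3
  have : 0 < a ^ 2 / (b + 1) ^ 2 := by positivity
  have e2 : - a ^ 2 / (b + 1) ^ 2 = - (a ^ 2 / (b + 1) ^ 2) := by ring
  rw [e2] at h3
  linarith

/-- the Lipschitz estimate for the support functional -/
lemma J_lip
    (hM : ∀ x y : E, ‖x + y‖ ^ 2 + ‖x - y‖ ^ 2 ≤ 2 * ‖x‖ ^ 2 + 2 * M * ‖y‖ ^ 2)
    (u v g : E) : J u g - J v g ≤ 2 * M * (‖u - v‖ * ‖g‖) := by
  have key : ∀ w : E, J u w - J v w ≤ M * (‖u - v‖ ^ 2 + ‖w‖ ^ 2) := by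
    intro w
    have h1 := J_sub u (v + w)
    have h2 := J_upper hM v w
    have h3 := J_upper hM u (v - u)
    have e1 : u + (v - u) = v := by abel
    have e2 : v + w - u = (v - u) + w := by abel
    rw [e1] at h3
    rw [e2, map_add] at h1
    rw [norm_sub_rev v u] at h3
    linarith
  -- scale
  by_cases hg : g = 0
  · subst hg; simp
  by_cases huv : u = v
  · subst huv; simp
  have hg' : 0 < ‖g‖ := norm_pos_iff.mpr hg
  have huv' : 0 < ‖u - v‖ := norm_pos_iff.mpr (sub_ne_zero.mpr huv)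
  have h := key ((‖u - v‖ / ‖g‖) • g)
  rw [map_smul, map_smul, smul_eq_mul, smul_eq_mul, norm_smul, Real.norm_eq_abs,
    abs_of_pos (div_pos huv' hg'), div_mul_cancel₀ _ hg'.ne'] at h
  have h4 : ‖u - v‖ / ‖g‖ * (J u g - J v g) ≤ 2 * M * ‖u - v‖ ^ 2 := by linarith
  have h5 : ‖u - v‖ * (J u g - J v g) ≤ 2 * M * ‖u - v‖ ^ 2 * ‖g‖ := by
    have := mul_le_mul_of_nonneg_right h4 hg'.le
    calc ‖u - v‖ * (J u g - J v g) = ‖u - v‖ / ‖g‖ * (J u g - J v g) * ‖g‖ := by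
          field_simp
      _ ≤ _ := this
  have h6 : ‖u - v‖ * (J u g - J v g) ≤ ‖u - v‖ * (2 * M * (‖u - v‖ * ‖g‖)) := by
    calc _ ≤ _ := h5
      _ = _ := by ring
  exact le_of_mul_le_mul_left h6 huv'

/-- Existence of nearest points in closed subspaces. -/
lemma exists_nearest [CompleteSpace E] (hm0 : 0 < m)
    (hm : ∀ x y : E, 2 * ‖x‖ ^ 2 + 2 * m * ‖y‖ ^ 2 ≤ ‖x + y‖ ^ 2 + ‖x - y‖ ^ 2)
    (G : Submodule ℝ E) (hG : IsClosed (G : Set E)) (x : E) :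
    ∃ g ∈ G, ∀ h ∈ G, ‖x - g‖ ≤ ‖x - h‖ := by
  set A : Set ℝ := (fun g : E => ‖x - g‖ ^ 2) '' (G : Set E) with hA
  have hAne : A.Nonempty := ⟨_, 0, G.zero_mem, rfl⟩
  have hAbdd : BddBelow A := ⟨0, by rintro _ ⟨g, _, rfl⟩; positivity⟩
  set d := sInf A with hd
  have hdle : ∀ g ∈ G, d ≤ ‖x - g‖ ^ 2 := fun g hg => csInf_le hAbdd ⟨g, hg, rfl⟩
  have hex : ∀ n : ℕ, ∃ g ∈ G, ‖x - g‖ ^ 2 < d + 1 / ((n : ℝ) + 1) := by
    intro n
    have : d < d + 1 / ((n : ℝ) + 1) := by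
      have : (0 : ℝ) < 1 / ((n : ℝ) + 1) := by positivity
      linarith
    obtain ⟨_, ⟨g, hg, rfl⟩, hlt⟩ := exists_lt_of_csInf_lt hAne this
    exact ⟨g, hg, hlt⟩
  choose g hgG hg using hex
  have hclose : ∀ a ∈ G, ∀ b ∈ G, m / 2 * ‖a - b‖ ^ 2 ≤ ‖x - a‖ ^ 2 + ‖x - b‖ ^ 2 - 2 * d := by
    intro a ha b hb
    have h1 := hm (x - (1 / 2 : ℝ) • (a + b)) ((1 / 2 : ℝ) • (b - a))
    have e1 : x - (1 / 2 : ℝ) • (a + b) + (1 / 2 : ℝ) • (b - a) = x - a := by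
      module
    have e2 : x - (1 / 2 : ℝ) • (a + b) - (1 / 2 : ℝ) • (b - a) = x - b := by
      module
    rw [e1, e2, norm_smul, norm_sub_rev b a] at h1
    have h2 := hdle _ (G.smul_mem (1 / 2 : ℝ) (G.add_mem ha hb))
    have e3 : ‖(1 / 2 : ℝ)‖ = 1 / 2 := by norm_num
    rw [e3] at h1
    nlinarith
  have hcau : CauchySeq g := by
    rw [Metric.cauchySeq_iff']
    intro ε hε
    obtain ⟨N, hN⟩ := exists_nat_one_div_lt (show (0 : ℝ) < m / 4 * ε ^ 2 by positivity)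
    refine ⟨N, fun n hn => ?_⟩
    have h1 := hclose _ (hgG n) _ (hgG N)
    have h2 := hg n
    have h3 := hg N
    have h4 : 1 / ((n : ℝ) + 1) ≤ 1 / ((N : ℝ) + 1) := by
      apply one_div_le_one_div_of_le (by positivity)
      have : (N : ℝ) ≤ n := by exact_mod_cast hn
      linarith
    rw [dist_eq_norm]
    have h5 : m / 2 * ‖g n - g N‖ ^ 2 < m / 2 * ε ^ 2 := by linarith
    have h6 : ‖g n - g N‖ ^ 2 < ε ^ 2 := lt_of_mul_lt_mul_left h5 (by positivity)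
    exact lt_of_pow_lt_pow_left₀ 2 hε.le h6
  obtain ⟨p, hp⟩ := cauchySeq_tendsto_of_complete hcau
  have hpG : p ∈ G := hG.mem_of_tendsto hp (Eventually.of_forall hgG)
  refine ⟨p, hpG, fun h hh => ?_⟩
  have hlim : Tendsto (fun n => ‖x - g n‖ ^ 2) atTop (𝓝 (‖x - p‖ ^ 2)) :=
    ((tendsto_const_nhds.sub hp).norm).pow 2
  have hlim2 : Tendsto (fun n : ℕ => d + 1 / ((n : ℝ) + 1)) atTop (𝓝 (d + 0)) :=
    tendsto_const_nhds.add tendsto_one_div_add_atTop_nhds_zero_nat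
  rw [add_zero] at hlim2
  have hle : ‖x - p‖ ^ 2 ≤ d := le_of_tendsto_of_tendsto' hlim hlim2 fun n => (hg n).le
  have := hle.trans (hdle h hh)
  exact le_of_sq_le_sq this (norm_nonneg _)

/-- Uniqueness of nearest points. -/
lemma nearest_unique (hm0 : 0 < m)
    (hm : ∀ x y : E, 2 * ‖x‖ ^ 2 + 2 * m * ‖y‖ ^ 2 ≤ ‖x + y‖ ^ 2 + ‖x - y‖ ^ 2)
    (G : Submodule ℝ E) (x a b : E) (ha : a ∈ G) (hb : b ∈ G)
    (ha' : ∀ h ∈ G, ‖x - a‖ ≤ ‖x - h‖) (hb' : ∀ h ∈ G, ‖x - b‖ ≤ ‖x - h‖) : a = b := by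
  have h1 := hm (x - (1 / 2 : ℝ) • (a + b)) ((1 / 2 : ℝ) • (b - a))
  have e1 : x - (1 / 2 : ℝ) • (a + b) + (1 / 2 : ℝ) • (b - a) = x - a := by
    module
  have e2 : x - (1 / 2 : ℝ) • (a + b) - (1 / 2 : ℝ) • (b - a) = x - b := by
    module
  rw [e1, e2, norm_smul, norm_sub_rev b a] at h1
  have h2 := ha' _ (G.smul_mem (1 / 2 : ℝ) (G.add_mem ha hb))
  have h3 := hb' _ (G.smul_mem (1 / 2 : ℝ) (G.add_mem ha hb))
  have e3 : ‖(1 / 2 : ℝ)‖ = 1 / 2 := by norm_num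
  rw [e3] at h1
  have h2' := pow_le_pow_left₀ (norm_nonneg _) h2 2
  have h3' := pow_le_pow_left₀ (norm_nonneg _) h3 2
  have h4 : m * ‖a - b‖ ^ 2 ≤ 0 := by nlinarith
  have h5 : ‖a - b‖ ^ 2 ≤ 0 := by
    by_contra hc
    push Not at hc
    have := mul_pos hm0 hc
    linarith
  have h6 : ‖a - b‖ = 0 := by
    have := sq_nonneg ‖a - b‖
    exact pow_eq_zero_iff (two_ne_zero) |>.mp (le_antisymm h5 this)
  exact sub_eq_zero.mp (norm_eq_zero.mp h6)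

/-- **The alternating method converges** in a real normed space satisfying a two-sided
parallelogram inequality. -/
theorem tendsto_residual (hm0 : 0 < m) (hM0 : 0 < M)
    (hm : ∀ x y : E, 2 * ‖x‖ ^ 2 + 2 * m * ‖y‖ ^ 2 ≤ ‖x + y‖ ^ 2 + ‖x - y‖ ^ 2)
    (hM : ∀ x y : E, ‖x + y‖ ^ 2 + ‖x - y‖ ^ 2 ≤ 2 * ‖x‖ ^ 2 + 2 * M * ‖y‖ ^ 2)
    (G₁ G₂ G : Submodule ℝ E) (h1G : G₁ ≤ G) (h2G : G₂ ≤ G)
    (hdense : ∀ z ∈ G, ∀ ε : ℝ, 0 < ε → ∃ a₁ ∈ G₁, ∃ a₂ ∈ G₂, ‖z - (a₁ + a₂)‖ < ε)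
    (H : ℕ → Submodule ℝ E)
    (hH : ∀ k, (H k = G₁ ∧ H (k + 1) = G₂) ∨ (H k = G₂ ∧ H (k + 1) = G₁))
    (r : ℕ → E) (hr : ∀ k, r k - r (k + 1) ∈ H k)
    (hr' : ∀ k, ∀ h ∈ H k, ‖r (k + 1)‖ ≤ ‖r k - h‖)
    (g : E) (hg : g ∈ G) (hg' : ∀ h ∈ G, ‖r 0 - g‖ ≤ ‖r 0 - h‖) :
    Tendsto r atTop (𝓝 (r 0 - g)) := by
  set s := r 0 - g with hs
  have hHG : ∀ k, H k ≤ G := by
    intro k
    rcases hH k with h | h
    · rw [h.1]; exact h1G
    · rw [h.1]; exact h2G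
  -- (a)
  have hsG : ∀ k, r k - s ∈ G := by
    intro k
    induction k with
    | zero => simpa [hs] using hg
    | succ k ih =>
      have := G.sub_mem ih (hHG k (hr k))
      have e : r k - s - (r k - r (k + 1)) = r (k + 1) - s := by abel
      rwa [e] at this
  -- (b)
  have horth : ∀ k, ∀ h ∈ H k, J (r (k + 1)) h = 0 := by
    intro k h hh
    apply J_orth hM
    intro t
    have h1 := hr' k (r k - r (k + 1) - t • h) ((H k).sub_mem (hr k) ((H k).smul_mem t hh))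
    have e : r k - (r k - r (k + 1) - t • h) = r (k + 1) + t • h := by abel
    rwa [e] at h1
  -- (c)
  have horths : ∀ h ∈ G, J s h = 0 := by
    intro h hh
    apply J_orth hM
    intro t
    have h1 := hg' (g - t • h) (G.sub_mem hg (G.smul_mem t hh))
    have e : r 0 - (g - t • h) = s + t • h := by rw [hs]; abel
    rwa [e] at h1
  set d : ℕ → ℝ := fun k => ‖r (k + 1) - r k‖ with hd
  have hd0 : ∀ k, 0 ≤ d k := fun k => norm_nonneg _
  -- (d)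
  have hdec : ∀ k, m / 2 * d k ^ 2 + ‖r (k + 1)‖ ^ 2 ≤ ‖r k‖ ^ 2 := by
    intro k
    have h1 := J_lower hm (r (k + 1)) (r k - r (k + 1))
    rw [horth k _ (hr k)] at h1
    have e : r (k + 1) + (r k - r (k + 1)) = r k := by abel
    rw [e, norm_sub_rev (r k)] at h1
    simp only [hd]
    linarith
  -- (e)
  have hsum : ∀ n, m / 2 * ∑ k ∈ Finset.range n, d k ^ 2 + ‖r n‖ ^ 2 ≤ ‖r 0‖ ^ 2 := by
    intro n
    induction n with
    | zero => simp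
    | succ n ih =>
      rw [Finset.sum_range_succ]
      have := hdec n
      nlinarith
  have hanti : ∀ n, ‖r n‖ ^ 2 ≤ ‖r 0‖ ^ 2 := by
    intro n
    have h1 := hsum n
    have h2 : 0 ≤ m / 2 * ∑ k ∈ Finset.range n, d k ^ 2 :=
      mul_nonneg (by positivity) (Finset.sum_nonneg fun k _ => sq_nonneg _)
    linarith
  have hanti' : ∀ n, ‖r n‖ ≤ ‖r 0‖ := fun n => le_of_sq_le_sq (hanti n) (norm_nonneg _)
  have hstep : ∀ n, ‖r (n + 1)‖ ^ 2 ≤ ‖r n‖ ^ 2 := by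
    intro n
    have := hdec n
    have h2 : 0 ≤ m / 2 * d n ^ 2 := by positivity
    linarith
  have hmono : Antitone fun n => ‖r n‖ ^ 2 := antitone_nat_of_succ_le hstep
  -- (f)
  have hge : ∀ k, ‖s‖ ^ 2 + m / 2 * ‖r k - s‖ ^ 2 ≤ ‖r k‖ ^ 2 := by
    intro k
    have h1 := J_lower hm s (r k - s)
    rw [horths _ (hsG k)] at h1
    have e : s + (r k - s) = r k := by abel
    rw [e] at h1
    linarith
  -- (g)
  have hJ : ∀ k, ‖r k‖ ^ 2 - ‖s‖ ^ 2 ≤ 2 * J (r k) (r k - s) := by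
    intro k
    have h1 := J_sub (r k) s
    have e : s - r k = -(r k - s) := by abel
    rw [e, map_neg] at h1
    linarith
  -- (h)
  have hdecomp : ∀ a₁ ∈ G₁, ∀ a₂ ∈ G₂, ∀ n, ∃ b₁ ∈ G₁, ∃ b₂ ∈ G₂,
      r n - s = (g - (a₁ + a₂)) + b₁ + b₂ ∧
      ‖b₁‖ ≤ ‖a₁‖ + ∑ k ∈ Finset.range n, d k ∧ ‖b₂‖ ≤ ‖a₂‖ + ∑ k ∈ Finset.range n, d k := by
    intro a₁ ha₁ a₂ ha₂ n
    induction n with
    | zero =>
      refine ⟨a₁, ha₁, a₂, ha₂, ?_, by simp, by simp⟩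
      rw [hs]; abel
    | succ n ih =>
      obtain ⟨b₁, hb₁, b₂, hb₂, he, hn₁, hn₂⟩ := ih
      rw [Finset.sum_range_succ]
      have hdn := hd0 n
      rcases hH n with h | h
      · refine ⟨b₁ - (r n - r (n + 1)), G₁.sub_mem hb₁ (h.1 ▸ hr n), b₂, hb₂, ?_, ?_, by linarith⟩
        · have : r (n + 1) - s = (r n - s) - (r n - r (n + 1)) := by abel
          rw [this, he]; abel
        · have h1 := norm_sub_le b₁ (r n - r (n + 1))
          rw [norm_sub_rev (r n)] at h1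
          simp only [hd] at *
          linarith
      · refine ⟨b₁, hb₁, b₂ - (r n - r (n + 1)), G₂.sub_mem hb₂ (h.1 ▸ hr n), ?_, by linarith, ?_⟩
        · have : r (n + 1) - s = (r n - s) - (r n - r (n + 1)) := by abel
          rw [this, he]; abel
        · have h1 := norm_sub_le b₂ (r n - r (n + 1))
          rw [norm_sub_rev (r n)] at h1
          simp only [hd] at *
          linarith
  -- (i)
  have hmain : ∀ a₁ ∈ G₁, ∀ a₂ ∈ G₂, ∀ n,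
      J (r (n + 2)) (r (n + 2) - s) ≤ ‖r 0‖ * ‖g - (a₁ + a₂)‖ +
        2 * M * (d (n + 1) * (‖a₁‖ + ‖a₂‖ + ∑ k ∈ Finset.range (n + 2), d k)) := by
    intro a₁ ha₁ a₂ ha₂ n
    obtain ⟨b₁, hb₁, b₂, hb₂, he, hn₁, hn₂⟩ := hdecomp a₁ ha₁ a₂ ha₂ (n + 2)
    have hρ : J (r (n + 2)) (g - (a₁ + a₂)) ≤ ‖r 0‖ * ‖g - (a₁ + a₂)‖ :=
      (le_of_abs_le (J_abs_le _ _)).trans
        (mul_le_mul_of_nonneg_right (hanti' _) (norm_nonneg _))
    rw [he, map_add, map_add]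
    have ha1 := norm_nonneg a₁
    have ha2 := norm_nonneg a₂
    rcases hH n with h | h
    · have h0 : J (r (n + 2)) b₂ = 0 := horth (n + 1) b₂ (h.2 ▸ hb₂)
      have h1 : J (r (n + 1)) b₁ = 0 := horth n b₁ (h.1 ▸ hb₁)
      have h2 := J_lip hM (r (n + 2)) (r (n + 1)) b₁
      have h3 : ‖r (n + 2) - r (n + 1)‖ * ‖b₁‖ ≤
          d (n + 1) * (‖a₁‖ + ‖a₂‖ + ∑ k ∈ Finset.range (n + 2), d k) :=
        mul_le_mul_of_nonneg_left (by linarith) (norm_nonneg _)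
      have h4 := mul_le_mul_of_nonneg_left h3 (show (0 : ℝ) ≤ 2 * M by positivity)
      linarith
    · have h0 : J (r (n + 2)) b₁ = 0 := horth (n + 1) b₁ (h.2 ▸ hb₁)
      have h1 : J (r (n + 1)) b₂ = 0 := horth n b₂ (h.1 ▸ hb₂)
      have h2 := J_lip hM (r (n + 2)) (r (n + 1)) b₂
      have h3 : ‖r (n + 2) - r (n + 1)‖ * ‖b₂‖ ≤
          d (n + 1) * (‖a₁‖ + ‖a₂‖ + ∑ k ∈ Finset.range (n + 2), d k) :=
        mul_le_mul_of_nonneg_left (by linarith) (norm_nonneg _)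
      have h4 := mul_le_mul_of_nonneg_left h3 (show (0 : ℝ) ≤ 2 * M by positivity)
      linarith
  -- summability
  set B : ℝ := 2 / m * ‖r 0‖ ^ 2 with hB
  have hB0 : 0 ≤ B := by positivity
  have hsumB : ∀ n, ∑ k ∈ Finset.range n, d k ^ 2 ≤ B := by
    intro n
    have h1 := hsum n
    have h2 : m / 2 * ∑ k ∈ Finset.range n, d k ^ 2 ≤ ‖r 0‖ ^ 2 := by
      have := sq_nonneg ‖r n‖
      linarith
    have h3 := mul_le_mul_of_nonneg_left h2 (show (0 : ℝ) ≤ 2 / m by positivity)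
    calc ∑ k ∈ Finset.range n, d k ^ 2 = 2 / m * (m / 2 * ∑ k ∈ Finset.range n, d k ^ 2) := by
          field_simp
      _ ≤ _ := h3
  have hsummable : Summable fun k => d k ^ 2 :=
    summable_of_sum_range_le (fun k => sq_nonneg _) hsumB
  -- (j)
  have hsum1 : ∀ n : ℕ, ∑ k ∈ Finset.range n, d k ≤ √n * √B := by
    intro n
    have h1 : (∑ k ∈ Finset.range n, d k) ^ 2 ≤ n * ∑ k ∈ Finset.range n, d k ^ 2 := by
      have := sq_sum_le_card_mul_sum_sq (s := Finset.range n) (f := d)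
      simpa using this
    rw [← Real.sqrt_mul (Nat.cast_nonneg n)]
    apply Real.le_sqrt_of_sq_le
    exact h1.trans (mul_le_mul_of_nonneg_left (hsumB n) (Nat.cast_nonneg n))
  -- (k)
  have hsmall : ∀ δ : ℝ, 0 < δ → ∃ n, ‖r n‖ ^ 2 - ‖s‖ ^ 2 < δ := by
    intro δ hδ
    by_contra hcon
    push Not at hcon
    obtain ⟨a₁, ha₁, a₂, ha₂, hlt⟩ := hdense g hg (δ / (4 * (‖r 0‖ + 1))) (by positivity)
    set C : ℝ := ‖a₁‖ + ‖a₂‖ + √B + 1 with hC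
    have hC0 : 0 < C := by positivity
    have hkey : ∀ n : ℕ, δ / 4 ≤ 2 * M * (d (n + 1) * (C * √((n + 2 : ℕ) : ℝ))) := by
      intro n
      have h1 := hmain a₁ ha₁ a₂ ha₂ n
      have h2 := hJ (n + 2)
      have h3 := hcon (n + 2)
      have h4 := hsum1 (n + 2)
      have h5 : (1 : ℝ) ≤ √((n + 2 : ℕ) : ℝ) := by
        rw [Real.one_le_sqrt]; push_cast
        have : (0 : ℝ) ≤ n := Nat.cast_nonneg n
        linarith
      have h6 : ‖r 0‖ * ‖g - (a₁ + a₂)‖ ≤ δ / 4 := by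
        have h7 : ‖r 0‖ * ‖g - (a₁ + a₂)‖ ≤ (‖r 0‖ + 1) * (δ / (4 * (‖r 0‖ + 1))) :=
          mul_le_mul (by linarith) hlt.le (norm_nonneg _) (by positivity)
        have h8 : (‖r 0‖ + 1) * (δ / (4 * (‖r 0‖ + 1))) = δ / 4 := by
          have : ‖r 0‖ + 1 ≠ 0 := by positivity
          field_simp
        linarith
      have h9 : ‖a₁‖ + ‖a₂‖ + ∑ k ∈ Finset.range (n + 2), d k ≤ C * √((n + 2 : ℕ) : ℝ) := by
        have h10 : (‖a₁‖ + ‖a₂‖) * 1 ≤ (‖a₁‖ + ‖a₂‖) * √((n + 2 : ℕ) : ℝ) :=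
          mul_le_mul_of_nonneg_left h5 (by positivity)
        have h11 : C * √((n + 2 : ℕ) : ℝ) = (‖a₁‖ + ‖a₂‖) * √((n + 2 : ℕ) : ℝ)
            + √((n + 2 : ℕ) : ℝ) * √B + √((n + 2 : ℕ) : ℝ) := by rw [hC]; ring
        rw [h11]
        linarith
      have h12 := mul_le_mul_of_nonneg_left (mul_le_mul_of_nonneg_left h9 (hd0 (n + 1)))
        (show (0 : ℝ) ≤ 2 * M by positivity)
      linarith
    -- contradiction with summability
    set c : ℝ := (δ / (8 * M * C)) ^ 2 with hc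
    have hc0 : 0 < c := by positivity
    have hlow : ∀ n : ℕ, c / ((n + 2 : ℕ) : ℝ) ≤ d (n + 1) ^ 2 := by
      intro n
      have h1 := hkey n
      have hn : (0 : ℝ) < ((n + 2 : ℕ) : ℝ) := by positivity
      have h2 : δ / (8 * M * C) ≤ d (n + 1) * √((n + 2 : ℕ) : ℝ) := by
        rw [div_le_iff₀ (by positivity)]
        nlinarith
      have h3 := pow_le_pow_left₀ (by positivity) h2 2
      rw [mul_pow, Real.sq_sqrt hn.le] at h3
      rw [div_le_iff₀ hn]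
      exact h3
    have hs1 : Summable fun n : ℕ => c / ((n + 2 : ℕ) : ℝ) := by
      refine Summable.of_nonneg_of_le (fun n => by positivity) hlow ?_
      exact (summable_nat_add_iff 1).mpr hsummable
    have hs2 : Summable fun n : ℕ => 1 / ((n + 2 : ℕ) : ℝ) := by
      have := hs1.mul_left (1 / c)
      refine this.congr fun n => ?_
      field_simp
    have hs3 : Summable fun n : ℕ => 1 / (n : ℝ) :=
      (summable_nat_add_iff (f := fun n : ℕ => 1 / (n : ℝ)) 2).mp hs2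
    exact Real.not_summable_one_div_natCast hs3
  -- (l)
  rw [Metric.tendsto_atTop]
  intro ε hε
  obtain ⟨N, hN⟩ := hsmall (m / 2 * ε ^ 2) (by positivity)
  refine ⟨N, fun n hn => ?_⟩
  rw [dist_eq_norm]
  have h1 := hge n
  have h2 : ‖r n‖ ^ 2 ≤ ‖r N‖ ^ 2 := hmono hn
  have h5 : m / 2 * ‖r n - s‖ ^ 2 < m / 2 * ε ^ 2 := by linarith
  have h6 : ‖r n - s‖ ^ 2 < ε ^ 2 := lt_of_mul_lt_mul_left h5 (by positivity)
  exact lt_of_pow_lt_pow_left₀ 2 hε.le h6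

end general

end Pool.Agent.Helper406.AltMethod
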