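import Pool.Agent.Helper406.AltDefs
import Pool.Agent.Helper406.AltMethod

/-!
# An infinite-dimensional non-Hilbert space admitting the alternating method
-/

open Filter Topology
open scoped ComplexConjugate

namespace Pool.Agent.Helper406.AltMethod

section transfer

variable {𝕜 E : Type*} [RCLike 𝕜] [NormedAddCommGroup E] [NormedSpace 𝕜 E] [CompleteSpace E]
variable {m M : ℝ}

lemma existsUnique_nearest (hm0 : 0 < m)
    (hm : ∀ x y : E, 2 * ‖x‖ ^ 2 + 2 * m * ‖y‖ ^ 2 ≤ ‖x + y‖ ^ 2 + ‖x - y‖ ^ 2)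
    (G : Submodule 𝕜 E) (hG : IsClosed (G : Set E)) (x : E) : ∃! g, IsNearest G x g := by
  let _ : NormedSpace ℝ E := NormedSpace.restrictScalars ℝ 𝕜 E
  have _ : IsScalarTower ℝ 𝕜 E := RestrictScalars.isScalarTower ℝ 𝕜 E
  obtain ⟨g, hg, hg'⟩ := exists_nearest hm0 hm (G.restrictScalars ℝ) hG x
  refine ⟨g, ⟨hg, hg'⟩, ?_⟩
  rintro g₂ ⟨h1, h2⟩
  exact nearest_unique hm0 hm (G.restrictScalars ℝ) x g₂ g h1 hg h2 hg'

lemma metricProj_spec (hm0 : 0 < m)
    (hm : ∀ x y : E, 2 * ‖x‖ ^ 2 + 2 * m * ‖y‖ ^ 2 ≤ ‖x + y‖ ^ 2 + ‖x - y‖ ^ 2)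
    (G : Submodule 𝕜 E) (hG : IsClosed (G : Set E)) (x : E) : IsNearest G x (metricProj G x) :=
  Classical.epsilon_spec (existsUnique_nearest hm0 hm G hG x).exists

theorem admits (hm0 : 0 < m) (hM0 : 0 < M)
    (hm : ∀ x y : E, 2 * ‖x‖ ^ 2 + 2 * m * ‖y‖ ^ 2 ≤ ‖x + y‖ ^ 2 + ‖x - y‖ ^ 2)
    (hM : ∀ x y : E, ‖x + y‖ ^ 2 + ‖x - y‖ ^ 2 ≤ 2 * ‖x‖ ^ 2 + 2 * M * ‖y‖ ^ 2) :
    AdmitsAlternatingMethod 𝕜 E := by
  intro G₁ G₂ hG₁ hG₂ x
  let _ : NormedSpace ℝ E := NormedSpace.restrictScalars ℝ 𝕜 E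
  have _ : IsScalarTower ℝ 𝕜 E := RestrictScalars.isScalarTower ℝ 𝕜 E
  set r := altResidual G₁ G₂ x with hr
  have hclosed : ∀ k, IsClosed (altSpace G₁ G₂ k : Set E) := by
    intro k
    unfold altSpace
    split_ifs
    · exact hG₁
    · exact hG₂
  have hstep : ∀ k, r (k + 1) = r k - metricProj (altSpace G₁ G₂ (k + 1)) (r k) := fun k => rfl
  have hspec : ∀ k, IsNearest (altSpace G₁ G₂ (k + 1)) (r k)
      (metricProj (altSpace G₁ G₂ (k + 1)) (r k)) :=
    fun k => metricProj_spec hm0 hm _ (hclosed _) _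
  have hGc : IsClosed ((G₁ ⊔ G₂).topologicalClosure : Set E) :=
    (G₁ ⊔ G₂).isClosed_topologicalClosure
  have hg := metricProj_spec hm0 hm (G₁ ⊔ G₂).topologicalClosure hGc x
  have hlim : Tendsto r atTop (𝓝 (r 0 - metricProj (G₁ ⊔ G₂).topologicalClosure x)) := by
    refine tendsto_residual hm0 hM0 hm hM (G₁.restrictScalars ℝ) (G₂.restrictScalars ℝ)
      ((G₁ ⊔ G₂).topologicalClosure.restrictScalars ℝ) ?_ ?_ ?_
      (fun k => (altSpace G₁ G₂ (k + 1)).restrictScalars ℝ) ?_ r ?_ ?_ _ hg.1 hg.2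
    · intro y hy
      exact (G₁ ⊔ G₂).le_topologicalClosure (Submodule.mem_sup_left hy)
    · intro y hy
      exact (G₁ ⊔ G₂).le_topologicalClosure (Submodule.mem_sup_right hy)
    · intro z hz ε hε
      have hz' : z ∈ closure ((G₁ ⊔ G₂ : Submodule 𝕜 E) : Set E) := hz
      rw [Metric.mem_closure_iff] at hz'
      obtain ⟨b, hb, hdist⟩ := hz' ε hε
      obtain ⟨a₁, ha₁, a₂, ha₂, rfl⟩ := Submodule.mem_sup.mp hb
      exact ⟨a₁, ha₁, a₂, ha₂, by rwa [← dist_eq_norm]⟩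
    · intro k
      unfold altSpace
      rcases Nat.even_or_odd k with hk | hk
      · left
        have h1 : Odd (k + 1) := hk.add_one
        have h2 : ¬ Odd (k + 1 + 1) := by
          rw [Nat.not_odd_iff_even]; exact h1.add_one
        simp [h1, h2]
      · right
        have h1 : ¬ Odd (k + 1) := by
          rw [Nat.not_odd_iff_even]; exact hk.add_one
        have h2 : Odd (k + 1 + 1) := by
          rw [Nat.not_odd_iff_even] at h1; exact h1.add_one
        simp [h1, h2]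
    · intro k
      have := (hspec k).1
      rw [hstep k, sub_sub_cancel]
      exact this
    · intro k h hh
      rw [hstep k]
      exact (hspec k).2 h hh
  have hsum : ∀ n, ∑ k ∈ Finset.range n, metricProj (altSpace G₁ G₂ (k + 1)) (r k) = x - r n := by
    intro n
    induction n with
    | zero => simp [hr, altResidual]
    | succ n ih =>
      rw [Finset.sum_range_succ, ih, hstep n]
      abel
  have h2 : Tendsto (fun n => x - r n) atTop
      (𝓝 (x - (r 0 - metricProj (G₁ ⊔ G₂).topologicalClosure x))) := tendsto_const_nhds.sub hlim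
  have e : x - (r 0 - metricProj (G₁ ⊔ G₂).topologicalClosure x) =
      metricProj (G₁ ⊔ G₂).topologicalClosure x := by
    have : r 0 = x := rfl
    rw [this]; abel
  rw [e] at h2
  exact h2.congr fun n => (hsum n).symm

end transfer

section reflexive

variable {𝕜 : Type*} [RCLike 𝕜]

lemma hilbert_reflexive {K : Type*} [NormedAddCommGroup K] [InnerProductSpace 𝕜 K]
    [CompleteSpace K] : Function.Surjective (NormedSpace.inclusionInDoubleDual 𝕜 K) := by
  intro φ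
  -- the functional `x ↦ conj (φ ⟪x, ·⟫)` is linear and continuous
  let ψ : StrongDual 𝕜 K := LinearMap.mkContinuous
    { toFun := fun x => conj (φ (InnerProductSpace.toDual 𝕜 K x))
      map_add' := fun x y => by simp [map_add]
      map_smul' := fun c x => by simp [map_smulₛₗ] } ‖φ‖ (fun x => by
        have h := φ.le_opNorm (InnerProductSpace.toDual 𝕜 K x)
        have h2 : ‖InnerProductSpace.toDual 𝕜 K x‖ = ‖x‖ := by simp
        rw [h2] at h
        simpa using h)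
  set k := (InnerProductSpace.toDual 𝕜 K).symm ψ with hk
  have hψ : ∀ x, ψ x = inner 𝕜 k x := by
    intro x
    rw [hk, InnerProductSpace.toDual_symm_apply]
  refine ⟨k, ?_⟩
  ext f
  rw [NormedSpace.dual_def]
  set x := (InnerProductSpace.toDual 𝕜 K).symm f with hx
  have hf : f = InnerProductSpace.toDual 𝕜 K x := by rw [hx]; simp
  rw [hf, InnerProductSpace.toDual_apply_apply]
  have h1 := hψ x
  have h2 : ψ x = conj (φ (InnerProductSpace.toDual 𝕜 K x)) := rfl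
  rw [h2] at h1
  have h3 := congrArg conj h1
  rw [RCLike.conj_conj, inner_conj_symm] at h3
  exact h3.symm

lemma reflexive_of_equiv {E K : Type*} [NormedAddCommGroup E] [NormedSpace 𝕜 E]
    [NormedAddCommGroup K] [NormedSpace 𝕜 K] (T : E ≃L[𝕜] K)
    (hK : Function.Surjective (NormedSpace.inclusionInDoubleDual 𝕜 K)) :
    Function.Surjective (NormedSpace.inclusionInDoubleDual 𝕜 E) := by
  intro φ
  let R : StrongDual 𝕜 K →L[𝕜] StrongDual 𝕜 E :=
    (ContinuousLinearMap.compL 𝕜 E K 𝕜).flip (T : E →L[𝕜] K)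
  obtain ⟨k, hk⟩ := hK (φ ∘L R)
  refine ⟨T.symm k, ?_⟩
  ext f
  rw [NormedSpace.dual_def]
  have h1 := congrArg (fun ψ => ψ (f ∘L (T.symm : K →L[𝕜] E))) hk
  simp only [NormedSpace.dual_def] at h1
  have h2 : R (f ∘L (T.symm : K →L[𝕜] E)) = f := by
    ext x
    simp [R]
  rw [ContinuousLinearMap.comp_apply, ContinuousLinearMap.comp_apply, h2] at h1
  exact h1

end reflexive

section strict

variable {E : Type*} [NormedAddCommGroup E] {m : ℝ}

lemma strict_convex {𝕜 : Type*} [RCLike 𝕜] [NormedSpace 𝕜 E] (hm0 : 0 < m)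
    (hm : ∀ x y : E, 2 * ‖x‖ ^ 2 + 2 * m * ‖y‖ ^ 2 ≤ ‖x + y‖ ^ 2 + ‖x - y‖ ^ 2)
    (x y : E) (hx : ‖x‖ = 1) (hy : ‖y‖ = 1) (hxy : x ≠ y) : ‖x + y‖ < 2 := by
  have h1 := hm (x + y) (x - y)
  have e1 : x + y + (x - y) = (2 : 𝕜) • x := by rw [two_smul]; abel
  have e2 : x + y - (x - y) = (2 : 𝕜) • y := by rw [two_smul]; abel
  rw [e1, e2, norm_smul, norm_smul, hx, hy] at h1
  have e3 : ‖(2 : 𝕜)‖ = 2 := by simp
  rw [e3] at h1
  have h2 : 0 < ‖x - y‖ := norm_pos_iff.mpr (sub_ne_zero.mpr hxy)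
  have h3 : 0 < 2 * m * ‖x - y‖ ^ 2 := by positivity
  have h4 : ‖x + y‖ ^ 2 < 2 ^ 2 := by nlinarith
  exact lt_of_pow_lt_pow_left₀ 2 (by norm_num) h4

end strict

end Pool.Agent.Helper406.AltMethod
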