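import Pool.Agent.Helper406.AltExample

/-!
# The space: `ℓ²` with the norm `N(x)² = |x|² + (|x| + |Bx|)²`, `Bx = x + ⟨e₀,x⟩e₀`
-/

open Filter Topology
open scoped ComplexConjugate

namespace Pool.Agent.Helper406.AltMethod

section real_lemmas

lemma real_upper {p p' q q' a b c d : ℝ} (ha : 0 ≤ a) (hc : 0 ≤ c) (hab : a ≤ b) (hba : b ≤ 2 * a) (hcd : c ≤ d)
    (h1 : p ^ 2 + p' ^ 2 = 2 * (a ^ 2 + c ^ 2)) (h2 : q ^ 2 + q' ^ 2 = 2 * (b ^ 2 + d ^ 2)) :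
    (p ^ 2 + (p + q) ^ 2) + (p' ^ 2 + (p' + q') ^ 2) ≤
      2 * (a ^ 2 + (a + b) ^ 2) + 2 * 2 * (c ^ 2 + (c + d) ^ 2) := by
  have hb : 0 ≤ b := ha.trans hab
  have hd : 0 ≤ d := hc.trans hcd
  set T := (d ^ 2 + 2 * c ^ 2) / 2 with hT
  have hT0 : 0 ≤ T := by positivity
  have hX1 : (p * q + p' * q') ^ 2 ≤ (p ^ 2 + p' ^ 2) * (q ^ 2 + q' ^ 2) := by
    nlinarith [sq_nonneg (p * q' - p' * q)]
  have hcross : (a ^ 2 + c ^ 2) * (b ^ 2 + d ^ 2) ≤ (a * b + T) ^ 2 := by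
    have h3 : a ^ 2 * d ^ 2 ≤ a * b * d ^ 2 := by
      have : a ^ 2 ≤ a * b := by nlinarith
      exact mul_le_mul_of_nonneg_right this (sq_nonneg _)
    have h4 : b ^ 2 * c ^ 2 ≤ 2 * (a * b) * c ^ 2 := by
      have : b ^ 2 ≤ 2 * (a * b) := by nlinarith
      exact mul_le_mul_of_nonneg_right this (sq_nonneg _)
    have h5 : c * d ≤ T := by
      rw [hT]; nlinarith [sq_nonneg (c - d)]
    have h6 : c ^ 2 * d ^ 2 ≤ T ^ 2 := by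
      have := pow_le_pow_left₀ (by positivity) h5 2
      nlinarith
    have e : (a * b + T) ^ 2 = a ^ 2 * b ^ 2 + a * b * d ^ 2 + 2 * (a * b) * c ^ 2 + T ^ 2 := by
      rw [hT]; ring
    rw [e]
    nlinarith
  have hX2 : (p * q + p' * q') ^ 2 ≤ (2 * (a * b + T)) ^ 2 := by
    rw [h1, h2] at hX1
    nlinarith
  have hX : p * q + p' * q' ≤ 2 * (a * b + T) :=
    le_of_sq_le_sq hX2 (by positivity)
  have e2 : 2 * T = d ^ 2 + 2 * c ^ 2 := by rw [hT]; ring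
  nlinarith [mul_nonneg hc hd]

lemma real_lower {p p' q q' a b c d : ℝ} (ha : 0 ≤ a) (hc : 0 ≤ c) (hab : a ≤ b) (hcd : c ≤ d) (hdc : d ≤ 2 * c)
    (h1 : p ^ 2 + p' ^ 2 = 2 * (a ^ 2 + c ^ 2)) (h3 : 2 * a ≤ p + p') (h4 : 2 * b ≤ q + q') :
    2 * (a ^ 2 + (a + b) ^ 2) + 2 * (1 / 10) * (c ^ 2 + (c + d) ^ 2) ≤
      (p ^ 2 + (p + q) ^ 2) + (p' ^ 2 + (p' + q') ^ 2) := by
  have hb : 0 ≤ b := ha.trans hab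
  have hd : 0 ≤ d := hc.trans hcd
  have h5 : (2 * (a + b)) ^ 2 ≤ ((p + q) + (p' + q')) ^ 2 :=
    pow_le_pow_left₀ (by positivity) (by linarith) 2
  have h6 : (c + d) ^ 2 ≤ (3 * c) ^ 2 := pow_le_pow_left₀ (by positivity) (by linarith) 2
  nlinarith [sq_nonneg ((p + q) - (p' + q'))]

end real_lemmas

section space

variable (𝕜 : Type) [RCLike 𝕜]

/-- the Hilbert space `ℓ²(ℕ, 𝕜)` -/
abbrev K : Type := lp (fun _ : ℕ => 𝕜) 2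

/-- the unit vectors -/
noncomputable def sg (i : ℕ) : K 𝕜 := lp.single 2 i (1 : 𝕜)

/-- `B x = x + ⟪e₀, x⟫ e₀` -/
noncomputable def B : K 𝕜 →L[𝕜] K 𝕜 :=
  ContinuousLinearMap.id 𝕜 (K 𝕜) + (innerSL 𝕜 (sg 𝕜 0)).smulRight (sg 𝕜 0)

/-- the ambient space -/
abbrev F : Type := WithLp 2 (K 𝕜 × WithLp 1 (K 𝕜 × K 𝕜))

/-- the embedding `x ↦ (x, (x, Bx))` -/
noncomputable def T : K 𝕜 →L[𝕜] F 𝕜 :=
  ((WithLp.prodContinuousLinearEquiv 2 𝕜 (K 𝕜) (WithLp 1 (K 𝕜 × K 𝕜))).symm :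
      K 𝕜 × WithLp 1 (K 𝕜 × K 𝕜) →L[𝕜] F 𝕜) ∘L
    ((ContinuousLinearMap.id 𝕜 (K 𝕜)).prod
      (((WithLp.prodContinuousLinearEquiv 1 𝕜 (K 𝕜) (K 𝕜)).symm :
        K 𝕜 × K 𝕜 →L[𝕜] WithLp 1 (K 𝕜 × K 𝕜)) ∘L
        ((ContinuousLinearMap.id 𝕜 (K 𝕜)).prod (B 𝕜))))

lemma T_norm (x : K 𝕜) : ‖T 𝕜 x‖ ^ 2 = ‖x‖ ^ 2 + (‖x‖ + ‖B 𝕜 x‖) ^ 2 := by
  rw [WithLp.prod_norm_sq_eq_of_L2]
  have h1 : (T 𝕜 x).fst = x := rfl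
  have h2 : (T 𝕜 x).snd = WithLp.toLp 1 (x, B 𝕜 x) := rfl
  rw [h1, h2, WithLp.prod_norm_eq_of_L1]
  rfl

lemma inner_sg (i j : ℕ) : inner 𝕜 (sg 𝕜 i) (sg 𝕜 j) = if i = j then (1 : 𝕜) else 0 := by
  rw [sg, sg, lp.inner_single_left, lp.single_apply]
  by_cases h : i = j
  · subst h; simp
  · rw [Pi.single_eq_of_ne h]; simp [h]

lemma norm_sg (i : ℕ) : ‖sg 𝕜 i‖ = 1 := by
  rw [sg, lp.norm_single (by norm_num)]; simp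

lemma B_apply (x : K 𝕜) : B 𝕜 x = x + (inner 𝕜 (sg 𝕜 0) x : 𝕜) • sg 𝕜 0 := by
  simp [B]

lemma B_norm (x : K 𝕜) : ‖B 𝕜 x‖ ^ 2 = ‖x‖ ^ 2 + 3 * ‖(inner 𝕜 (sg 𝕜 0) x : 𝕜)‖ ^ 2 := by
  rw [B_apply, norm_add_sq (𝕜 := 𝕜), norm_smul, norm_sg, inner_smul_right]
  have h : (inner 𝕜 (sg 𝕜 0) x : 𝕜) * inner 𝕜 x (sg 𝕜 0) =
      ((‖(inner 𝕜 (sg 𝕜 0) x : 𝕜)‖ ^ 2 : ℝ) : 𝕜) := by
    rw [← inner_conj_symm x (sg 𝕜 0), RCLike.mul_conj]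
    push_cast; rfl
  rw [h, RCLike.ofReal_re]
  ring

lemma le_B (x : K 𝕜) : ‖x‖ ≤ ‖B 𝕜 x‖ := by
  have := B_norm 𝕜 x
  apply le_of_sq_le_sq _ (norm_nonneg _)
  nlinarith [sq_nonneg ‖(inner 𝕜 (sg 𝕜 0) x : 𝕜)‖]

lemma B_le (x : K 𝕜) : ‖B 𝕜 x‖ ≤ 2 * ‖x‖ := by
  have h := B_norm 𝕜 x
  have h2 : ‖(inner 𝕜 (sg 𝕜 0) x : 𝕜)‖ ≤ ‖x‖ := by
    have := norm_inner_le_norm (𝕜 := 𝕜) (sg 𝕜 0) x
    rwa [norm_sg, one_mul] at this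
  have h3 := pow_le_pow_left₀ (norm_nonneg _) h2 2
  apply le_of_sq_le_sq _ (by positivity)
  nlinarith

lemma parallelogram_K (x y : K 𝕜) :
    ‖x + y‖ ^ 2 + ‖x - y‖ ^ 2 = 2 * (‖x‖ ^ 2 + ‖y‖ ^ 2) := by
  have := parallelogram_law_with_norm 𝕜 x y
  exact this

lemma two_mul_le (x y : K 𝕜) : 2 * ‖x‖ ≤ ‖x + y‖ + ‖x - y‖ := by
  have h := norm_add_le (x + y) (x - y)
  have e : x + y + (x - y) = (2 : 𝕜) • x := by rw [two_smul]; abel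
  rw [e, norm_smul] at h
  simpa using h

/-- the Banach space -/
abbrev X : Type := (LinearMap.range (T 𝕜 : K 𝕜 →ₗ[𝕜] F 𝕜) : Submodule 𝕜 (F 𝕜))

lemma X_exists (u : X 𝕜) : ∃ x : K 𝕜, (u : F 𝕜) = T 𝕜 x := by
  obtain ⟨x, hx⟩ := u.2
  exact ⟨x, hx.symm⟩

lemma X_upper (u v : X 𝕜) :
    ‖u + v‖ ^ 2 + ‖u - v‖ ^ 2 ≤ 2 * ‖u‖ ^ 2 + 2 * 2 * ‖v‖ ^ 2 := by
  obtain ⟨x, hx⟩ := X_exists 𝕜 u
  obtain ⟨y, hy⟩ := X_exists 𝕜 v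
  have h1 : ‖u + v‖ = ‖T 𝕜 (x + y)‖ := by
    rw [map_add, ← hx, ← hy]; rfl
  have h2 : ‖u - v‖ = ‖T 𝕜 (x - y)‖ := by
    rw [map_sub, ← hx, ← hy]; rfl
  have h3 : ‖u‖ = ‖T 𝕜 x‖ := by rw [← hx]; rfl
  have h4 : ‖v‖ = ‖T 𝕜 y‖ := by rw [← hy]; rfl
  rw [h1, h2, h3, h4, T_norm, T_norm, T_norm, T_norm]
  have h5 := parallelogram_K 𝕜 (B 𝕜 x) (B 𝕜 y)
  rw [← map_add, ← map_sub] at h5
  exact real_upper (norm_nonneg _) (norm_nonneg _) (le_B 𝕜 x) (B_le 𝕜 x) (le_B 𝕜 y)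
    (parallelogram_K 𝕜 x y) h5

lemma X_lower (u v : X 𝕜) :
    2 * ‖u‖ ^ 2 + 2 * (1 / 10) * ‖v‖ ^ 2 ≤ ‖u + v‖ ^ 2 + ‖u - v‖ ^ 2 := by
  obtain ⟨x, hx⟩ := X_exists 𝕜 u
  obtain ⟨y, hy⟩ := X_exists 𝕜 v
  have h1 : ‖u + v‖ = ‖T 𝕜 (x + y)‖ := by
    rw [map_add, ← hx, ← hy]; rfl
  have h2 : ‖u - v‖ = ‖T 𝕜 (x - y)‖ := by
    rw [map_sub, ← hx, ← hy]; rfl
  have h3 : ‖u‖ = ‖T 𝕜 x‖ := by rw [← hx]; rfl
  have h4 : ‖v‖ = ‖T 𝕜 y‖ := by rw [← hy]; rfl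
  rw [h1, h2, h3, h4, T_norm, T_norm, T_norm, T_norm]
  have h5 := two_mul_le 𝕜 (B 𝕜 x) (B 𝕜 y)
  rw [← map_add, ← map_sub] at h5
  exact real_lower (norm_nonneg _) (norm_nonneg _) (le_B 𝕜 x) (le_B 𝕜 y) (B_le 𝕜 y)
    (parallelogram_K 𝕜 x y) (two_mul_le 𝕜 x y) h5

/-- the canonical isomorphism with `ℓ²` -/
noncomputable def equivK : X 𝕜 ≃L[𝕜] K 𝕜 :=
  ContinuousLinearEquiv.equivOfInverse
    ((ContinuousLinearMap.fst 𝕜 (K 𝕜) (WithLp 1 (K 𝕜 × K 𝕜))) ∘L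
      ((WithLp.prodContinuousLinearEquiv 2 𝕜 (K 𝕜) (WithLp 1 (K 𝕜 × K 𝕜))) :
        F 𝕜 →L[𝕜] K 𝕜 × WithLp 1 (K 𝕜 × K 𝕜)) ∘L (Submodule.subtypeL _))
    ((T 𝕜).codRestrict (LinearMap.range (T 𝕜 : K 𝕜 →ₗ[𝕜] F 𝕜)) (fun x => ⟨x, rfl⟩))
    (by
      intro u
      obtain ⟨x, hx⟩ := X_exists 𝕜 u
      have hu : u = ⟨T 𝕜 x, ⟨x, rfl⟩⟩ := Subtype.ext hx
      rw [hu]
      rfl)
    (by intro x; rfl)

lemma X_complete : CompleteSpace (X 𝕜) := by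
  exact (completeSpace_congr (e := (equivK 𝕜).toEquiv) (equivK 𝕜).isUniformEmbedding).mpr inferInstance

lemma sg_linearIndependent : LinearIndependent 𝕜 (sg 𝕜) := by
  have h : Orthonormal 𝕜 (sg 𝕜) := by
    rw [orthonormal_iff_ite]
    intro i j
    exact inner_sg 𝕜 i j
  exact h.linearIndependent

lemma K_infinite : ¬ FiniteDimensional 𝕜 (K 𝕜) := by
  intro h
  have := (sg_linearIndependent 𝕜).finite_of_isNoetherian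
  exact not_finite ℕ

lemma X_infinite : ¬ FiniteDimensional 𝕜 (X 𝕜) := by
  intro h
  exact K_infinite 𝕜 (LinearEquiv.finiteDimensional (equivK 𝕜).toLinearEquiv)

lemma X_reflexive : ReflexiveSpace 𝕜 (X 𝕜) := by
  intro φ
  obtain ⟨x, hx⟩ := reflexive_of_equiv (equivK 𝕜) hilbert_reflexive φ
  exact ⟨x, fun f => by rw [← hx, NormedSpace.dual_def]⟩

/-- elements of `X` -/
noncomputable def el (x : K 𝕜) : X 𝕜 := ⟨T 𝕜 x, ⟨x, rfl⟩⟩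

lemma el_norm (x : K 𝕜) : ‖el 𝕜 x‖ ^ 2 = ‖x‖ ^ 2 + (‖x‖ + ‖B 𝕜 x‖) ^ 2 := T_norm 𝕜 x

lemma X_not_inner :
    ¬ ∃ c : InnerProductSpace.Core 𝕜 (X 𝕜), ∀ x : X 𝕜, ‖x‖ ^ 2 = RCLike.re (c.inner x x) := by
  rintro ⟨c, hc⟩
  let _ := c
  have hpar : ∀ x y : X 𝕜, ‖x + y‖ ^ 2 + ‖x - y‖ ^ 2 = 2 * ‖x‖ ^ 2 + 2 * ‖y‖ ^ 2 := by
    intro x y
    rw [hc, hc, hc, hc]
    have h1 := InnerProductSpace.Core.inner_add_add_self (𝕜 := 𝕜) x y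
    have h2 := InnerProductSpace.Core.inner_sub_sub_self (𝕜 := 𝕜) x y
    have h1' : RCLike.re (c.inner (x + y) (x + y)) = RCLike.re (c.inner x x) +
        RCLike.re (c.inner x y) + RCLike.re (c.inner y x) + RCLike.re (c.inner y y) := by
      rw [← map_add, ← map_add, ← map_add]; exact congrArg _ h1
    have h2' : RCLike.re (c.inner (x - y) (x - y)) = RCLike.re (c.inner x x) -
        RCLike.re (c.inner x y) - RCLike.re (c.inner y x) + RCLike.re (c.inner y y) := by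
      rw [← map_sub, ← map_sub, ← map_add]; exact congrArg _ h2
    rw [h1', h2']; ring
  have h := hpar (el 𝕜 (sg 𝕜 0)) (el 𝕜 (sg 𝕜 1))
  have e1 : el 𝕜 (sg 𝕜 0) + el 𝕜 (sg 𝕜 1) = el 𝕜 (sg 𝕜 0 + sg 𝕜 1) :=
    Subtype.ext (map_add (T 𝕜) _ _).symm
  have e2 : el 𝕜 (sg 𝕜 0) - el 𝕜 (sg 𝕜 1) = el 𝕜 (sg 𝕜 0 - sg 𝕜 1) :=
    Subtype.ext (map_sub (T 𝕜) _ _).symm
  rw [e1, e2, el_norm, el_norm, el_norm, el_norm] at h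
  have i00 := inner_sg 𝕜 0 0
  have i01 := inner_sg 𝕜 0 1
  simp only [if_true, zero_ne_one, if_false] at i00 i01
  have nadd : ‖sg 𝕜 0 + sg 𝕜 1‖ ^ 2 = 2 := by
    rw [norm_add_sq (𝕜 := 𝕜), norm_sg, norm_sg, i01]; norm_num
  have nsub : ‖sg 𝕜 0 - sg 𝕜 1‖ ^ 2 = 2 := by
    rw [norm_sub_sq (𝕜 := 𝕜), norm_sg, norm_sg, i01]; norm_num
  have badd : ‖B 𝕜 (sg 𝕜 0 + sg 𝕜 1)‖ ^ 2 = 5 := by
    rw [B_norm, nadd, inner_add_right, i00, i01]; norm_num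
  have bsub : ‖B 𝕜 (sg 𝕜 0 - sg 𝕜 1)‖ ^ 2 = 5 := by
    rw [B_norm, nsub, inner_sub_right, i00, i01]; norm_num
  have b0 : ‖B 𝕜 (sg 𝕜 0)‖ ^ 2 = 4 := by
    rw [B_norm, norm_sg, i00]; norm_num
  have b1 : ‖B 𝕜 (sg 𝕜 1)‖ ^ 2 = 1 := by
    rw [B_norm, norm_sg, i01]; norm_num
  have b0' : ‖B 𝕜 (sg 𝕜 0)‖ = 2 := by
    have : ‖B 𝕜 (sg 𝕜 0)‖ ^ 2 = 2 ^ 2 := by rw [b0]; norm_num
    exact (pow_left_inj₀ (norm_nonneg _) (by norm_num) two_ne_zero).mp this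
  have b1' : ‖B 𝕜 (sg 𝕜 1)‖ = 1 := by
    have : ‖B 𝕜 (sg 𝕜 1)‖ ^ 2 = 1 ^ 2 := by rw [b1]; norm_num
    exact (pow_left_inj₀ (norm_nonneg _) (by norm_num) two_ne_zero).mp this
  rw [norm_sg, norm_sg, b0', b1'] at h
  set a := ‖sg 𝕜 0 + sg 𝕜 1‖
  set a' := ‖sg 𝕜 0 - sg 𝕜 1‖
  set b := ‖B 𝕜 (sg 𝕜 0 + sg 𝕜 1)‖
  set b' := ‖B 𝕜 (sg 𝕜 0 - sg 𝕜 1)‖
  have ha : 0 ≤ a := norm_nonneg _
  have ha' : 0 ≤ a' := norm_nonneg _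
  have hb : 0 ≤ b := norm_nonneg _
  have hb' : 0 ≤ b' := norm_nonneg _
  have hab : a * b = √10 := by
    have h1 : (a * b) ^ 2 = 10 := by rw [mul_pow, nadd, badd]; norm_num
    rw [← h1, Real.sqrt_sq (mul_nonneg ha hb)]
  have hab' : a' * b' = √10 := by
    have h1 : (a' * b') ^ 2 = 10 := by rw [mul_pow, nsub, bsub]; norm_num
    rw [← h1, Real.sqrt_sq (mul_nonneg ha' hb')]
  have h10 : √10 = 3 := by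
    have h1 : a ^ 2 + (a + b) ^ 2 = 9 + 2 * √10 := by
      rw [← hab]; linear_combination 2 * nadd + badd
    have h2 : a' ^ 2 + (a' + b') ^ 2 = 9 + 2 * √10 := by
      rw [← hab']; linear_combination 2 * nsub + bsub
    rw [h1, h2] at h
    linarith
  have := Real.sq_sqrt (show (0 : ℝ) ≤ 10 by norm_num)
  rw [h10] at this
  norm_num at this

end space

end Pool.Agent.Helper406.AltMethod
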