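import Mathlib

open MeasureTheory Set
open scoped ENNReal NNReal Pointwise

namespace Pool.Agent.Helper406.LacBilinear

/-- `R^d` -/
abbrev E (d : ℕ) : Type := EuclideanSpace ℝ (Fin d)

/-- `R^{2d} = R^d x R^d` with the Euclidean norm -/
abbrev E2 (d : ℕ) : Type := WithLp 2 (E d × E d)

/-- Normalised surface measure on the unit sphere of a finite-dimensional Euclidean space `F`. -/
noncomputable def sphereProb (F : Type) [NormedAddCommGroup F] [InnerProductSpace ℝ F]
    [FiniteDimensional ℝ F] [MeasurableSpace F] [BorelSpace F] :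
    Measure (Metric.sphere (0 : F) 1) :=
  ((volume : Measure F).toSphere univ)⁻¹ • (volume : Measure F).toSphere

/-- The inclusion of the unit sphere of `R^{2d}` into `R^d x R^d`. -/
def incl (d : ℕ) (w : Metric.sphere (0 : E2 d) 1) : E d × E d := WithLp.ofLp (w : E2 d)

/-- Normalised surface measure on the unit sphere of `R^{2d}`, as a measure on `R^d x R^d`
(image of the measure on the sphere under the inclusion). -/
noncomputable def sigma (d : ℕ) : Measure (E d × E d) :=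
  (sphereProb (E2 d)).map (incl d)

/-- The bilinear spherical average `A_t(f,g)(x)`. -/
noncomputable def avg (d : ℕ) (t : ℝ) (f g : E d → ℝ) (x : E d) : ℝ :=
  ∫ w : E d × E d, f (x - t • w.1) * g (x - t • w.2) ∂(sigma d)

/-- The lacunary bilinear spherical maximal function. -/
noncomputable def lacMax (d : ℕ) (f g : E d → ℝ) (x : E d) : ℝ≥0∞ :=
  ⨆ l : ℤ, ‖avg d ((2 : ℝ) ^ l) f g x‖ₑ

section geometry

variable {d : ℕ}

lemma norm_sub_le_of_fst (u u' v : E d) :
    |‖(WithLp.toLp 2 (u, v) : E2 d)‖ - ‖(WithLp.toLp 2 (u', v) : E2 d)‖| ≤ ‖u - u'‖ := by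
  have h := abs_norm_sub_norm_le (WithLp.toLp 2 (u, v) : E2 d) (WithLp.toLp 2 (u', v) : E2 d)
  have h2 : (WithLp.toLp 2 (u, v) : E2 d) - (WithLp.toLp 2 (u', v) : E2 d)
      = WithLp.toLp 2 (u - u', 0) := by
    rw [← WithLp.toLp_sub]
    simp
  rw [h2, WithLp.norm_toLp_fst] at h
  exact h

/-- the set of good points in the cone -/
def good (y : E d) (ρ : ℝ) : Set (E d × E d) :=
  {p | 1 / 4 ≤ ‖p.2‖ ∧ ‖p.2‖ ≤ 1 / 2 ∧
    ‖p.1 - (‖p.2‖ / Real.sqrt (1 - ‖y‖ ^ 2)) • y‖ ≤ ρ / 16}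

lemma good_mem (y : E d) (hy : ‖y‖ ≤ 1 / 4) (ρ : ℝ) (hρ0 : 0 < ρ) (hρ : ρ ≤ 1) (p : E d × E d)
    (hp : p ∈ good y ρ) :
    0 < ‖(WithLp.toLp 2 p : E2 d)‖ ∧ ‖(WithLp.toLp 2 p : E2 d)‖ < 1 ∧
      ‖p.1 - ‖(WithLp.toLp 2 p : E2 d)‖ • y‖ ≤ ‖(WithLp.toLp 2 p : E2 d)‖ * ρ := by
  obtain ⟨u, v⟩ := p
  obtain ⟨h1, h2, h3⟩ := hp
  simp only at h1 h2 h3 ⊢
  set N := ‖(WithLp.toLp 2 (u, v) : E2 d)‖ with hN
  have hy2 : ‖y‖ ^ 2 ≤ 1 / 16 := by nlinarith [norm_nonneg y]
  set s := Real.sqrt (1 - ‖y‖ ^ 2) with hs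
  have hs2 : s ^ 2 = 1 - ‖y‖ ^ 2 := Real.sq_sqrt (by linarith)
  have hs0 : 0 < s := Real.sqrt_pos.mpr (by linarith)
  have hs_ge : 3 / 4 ≤ s := by
    by_contra hcon
    push Not at hcon
    nlinarith
  set M := ‖v‖ / s with hM
  have hM0 : 0 < M := by positivity
  have hMle : M ≤ 2 / 3 := by
    rw [hM, div_le_iff₀ hs0]; linarith
  -- norm of the centre
  have hc : ‖(WithLp.toLp 2 (M • y, v) : E2 d)‖ = M := by
    have hsq : ‖(WithLp.toLp 2 (M • y, v) : E2 d)‖ ^ 2 = M ^ 2 := by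
      rw [WithLp.prod_norm_sq_eq_of_L2]
      simp only [WithLp.toLp_fst, WithLp.toLp_snd]
      rw [norm_smul, Real.norm_of_nonneg hM0.le]
      have hv : ‖v‖ = M * s := by rw [hM]; field_simp
      rw [hv, mul_pow, mul_pow, hs2]; ring
    exact (pow_left_inj₀ (norm_nonneg _) hM0.le two_ne_zero).mp hsq
  have hd := norm_sub_le_of_fst u (M • y) v
  rw [hc, ← hN] at hd
  have hNM : |N - M| ≤ ρ / 16 := hd.trans h3
  have hNv : ‖v‖ ≤ N := by
    have h5 : ‖v‖ ^ 2 ≤ N ^ 2 := by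
      rw [hN, WithLp.prod_norm_sq_eq_of_L2]
      simp only [WithLp.toLp_fst, WithLp.toLp_snd]
      nlinarith [norm_nonneg u]
    exact (pow_le_pow_iff_left₀ (norm_nonneg _) (norm_nonneg _) two_ne_zero).mp h5
  have habs := abs_le.mp hNM
  refine ⟨by linarith, by linarith, ?_⟩
  have e1 : u - N • y = (u - M • y) + (M - N) • y := by
    rw [sub_smul]; abel
  calc ‖u - N • y‖ ≤ ‖u - M • y‖ + ‖(M - N) • y‖ := by rw [e1]; exact norm_add_le _ _
    _ ≤ ρ / 16 + ρ / 16 * (1 / 4) := by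
        rw [norm_smul, Real.norm_eq_abs, abs_sub_comm]
        exact add_le_add h3 (mul_le_mul hNM hy (norm_nonneg _) (by positivity))
    _ ≤ N * ρ := by nlinarith

lemma measurableSet_good (y : E d) (ρ : ℝ) : MeasurableSet (good y ρ) := by
  apply IsClosed.measurableSet
  have c1 : Continuous fun p : E d × E d => ‖p.2‖ := continuous_snd.norm
  have c2 : Continuous fun p : E d × E d =>
      ‖p.1 - (‖p.2‖ / Real.sqrt (1 - ‖y‖ ^ 2)) • y‖ := by fun_prop
  exact (isClosed_le continuous_const c1).inter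
    ((isClosed_le c1 continuous_const).inter (isClosed_le c2 continuous_const))

lemma volume_good (y : E d) (ρ : ℝ) (hρ : 0 ≤ ρ) :
    volume (good y ρ) = ENNReal.ofReal ((ρ / 16) ^ d) * volume (Metric.ball (0 : E d) 1) *
      volume {v : E d | 1 / 4 ≤ ‖v‖ ∧ ‖v‖ ≤ 1 / 2} := by
  rw [Measure.volume_eq_prod, Measure.prod_apply_symm (measurableSet_good y ρ)]
  have hA : MeasurableSet {v : E d | 1 / 4 ≤ ‖v‖ ∧ ‖v‖ ≤ 1 / 2} := by
    apply IsClosed.measurableSet
    exact (isClosed_le continuous_const continuous_norm).inter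
      (isClosed_le continuous_norm continuous_const)
  have key : ∀ v : E d, volume ((fun x => (x, v)) ⁻¹' good y ρ) =
      {v : E d | 1 / 4 ≤ ‖v‖ ∧ ‖v‖ ≤ 1 / 2}.indicator
        (fun _ => ENNReal.ofReal ((ρ / 16) ^ d) * volume (Metric.ball (0 : E d) 1)) v := by
    intro v
    by_cases hv : v ∈ {v : E d | 1 / 4 ≤ ‖v‖ ∧ ‖v‖ ≤ 1 / 2}
    · rw [indicator_of_mem hv]
      have : (fun x => (x, v)) ⁻¹' good y ρ =
          Metric.closedBall ((‖v‖ / Real.sqrt (1 - ‖y‖ ^ 2)) • y) (ρ / 16) := by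
        ext x
        simp only [good, mem_preimage, mem_ofPred_eq, Metric.mem_closedBall, dist_eq_norm]
        exact ⟨fun h => h.2.2, fun h => ⟨hv.1, hv.2, h⟩⟩
      rw [this, Measure.addHaar_closedBall _ _ (by positivity)]
      simp
    · rw [indicator_of_notMem hv]
      have : (fun x => (x, v)) ⁻¹' good y ρ = ∅ := by
        ext x
        simp only [good, mem_preimage, mem_ofPred_eq, mem_empty_iff_false, iff_false]
        intro h
        exact hv ⟨h.1, h.2.1⟩
      rw [this, measure_empty]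
  simp_rw [key]
  rw [lintegral_indicator hA, setLIntegral_const]

lemma measurable_incl : Measurable (incl d) :=
  (WithLp.volume_preserving_ofLp (E d) (E d)).measurable.comp measurable_subtype_coe

/-- the cap in question -/
def cap (d : ℕ) (x : E d) (t : ℝ) : Set (E d × E d) :=
  {w | ‖x - t • w.1‖ ≤ 1 ∧ ‖w.2‖ ≤ 1}

lemma measurableSet_cap (x : E d) (t : ℝ) : MeasurableSet (cap d x t) := by
  apply IsClosed.measurableSet
  have c1 : Continuous fun w : E d × E d => ‖x - t • w.1‖ := by fun_prop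
  have c2 : Continuous fun w : E d × E d => ‖w.2‖ := by fun_prop
  exact (isClosed_le c1 continuous_const).inter (isClosed_le c2 continuous_const)

lemma good_subset_cone (x : E d) (t : ℝ) (ht : 1 ≤ t) (hx : ‖x‖ ≤ t / 4) :
    (WithLp.ofLp : E2 d → E d × E d) ⁻¹' good (t⁻¹ • x) t⁻¹ ⊆
      Ioo (0 : ℝ) 1 • ((↑) '' (incl d ⁻¹' cap d x t) : Set (E2 d)) := by
  intro w hw
  have ht0 : 0 < t := by linarith
  have hy : ‖t⁻¹ • x‖ ≤ 1 / 4 := by
    rw [norm_smul, norm_inv, Real.norm_of_nonneg ht0.le, inv_mul_le_iff₀ ht0]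
    linarith
  obtain ⟨h1, h2, h3⟩ := good_mem (t⁻¹ • x) hy t⁻¹ (by positivity) (inv_le_one_of_one_le₀ ht) _ hw
  have hw' : (WithLp.toLp 2 (WithLp.ofLp w) : E2 d) = w := rfl
  rw [hw'] at h1 h2 h3
  rw [Set.mem_smul]
  refine ⟨‖w‖, ⟨h1, h2⟩, ‖w‖⁻¹ • w, ⟨⟨‖w‖⁻¹ • w, ?_⟩, ?_, rfl⟩, ?_⟩
  · rw [mem_sphere_zero_iff_norm, norm_smul, norm_inv, norm_norm, inv_mul_cancel₀ h1.ne']
  · change ‖x - t • (‖w‖⁻¹ • w).fst‖ ≤ 1 ∧ ‖(‖w‖⁻¹ • w).snd‖ ≤ 1
    refine ⟨?_, ?_⟩
    swap
    · rw [WithLp.smul_snd, norm_smul, norm_inv, norm_norm, inv_mul_le_iff₀ h1, mul_one]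
      have h6 := WithLp.prod_norm_sq_eq_of_L2 w
      have h5 : ‖w.snd‖ ^ 2 ≤ ‖w‖ ^ 2 := by
        nlinarith [norm_nonneg w.fst]
      exact (pow_le_pow_iff_left₀ (norm_nonneg _) (norm_nonneg _) two_ne_zero).mp h5
    have e1 : x - t • (‖w‖⁻¹ • w).fst = (-(t * ‖w‖⁻¹)) • (w.fst - ‖w‖ • (t⁻¹ • x)) := by
      rw [WithLp.smul_fst, smul_sub, smul_smul, smul_smul, smul_smul]
      have : -(t * ‖w‖⁻¹) * ‖w‖ * t⁻¹ = -1 := by field_simp
      rw [this]
      module
    rw [e1, norm_smul, norm_neg, norm_mul, norm_inv, norm_norm, Real.norm_of_nonneg ht0.le]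
    calc t * ‖w‖⁻¹ * ‖w.fst - ‖w‖ • t⁻¹ • x‖ ≤ t * ‖w‖⁻¹ * (‖w‖ * t⁻¹) :=
          mul_le_mul_of_nonneg_left h3 (by positivity)
      _ = 1 := by field_simp
  · rw [smul_smul, mul_inv_cancel₀ h1.ne', one_smul]

/-- the constant in the lower bound for caps -/
noncomputable def capConst (d : ℕ) : ℝ≥0∞ :=
  ((volume : Measure (E2 d)).toSphere univ)⁻¹ * (Module.finrank ℝ (E2 d) *
    (ENNReal.ofReal ((1 / 16) ^ d) * volume (Metric.ball (0 : E d) 1) *
      volume {v : E d | 1 / 4 ≤ ‖v‖ ∧ ‖v‖ ≤ 1 / 2}))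

lemma sigma_cap_ge (x : E d) (t : ℝ) (ht : 1 ≤ t) (hx : ‖x‖ ≤ t / 4) :
    capConst d * ENNReal.ofReal (t⁻¹ ^ d) ≤ sigma d (cap d x t) := by
  have ht0 : 0 < t := by linarith
  have hmeas : MeasurableSet (incl d ⁻¹' cap d x t) := measurable_incl (measurableSet_cap x t)
  have h0 : sigma d (cap d x t) = sphereProb (E2 d) (incl d ⁻¹' cap d x t) :=
    Measure.map_apply measurable_incl (measurableSet_cap x t)
  rw [h0, sphereProb, Measure.smul_apply, smul_eq_mul, Measure.toSphere_apply' _ hmeas,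
    capConst, mul_assoc, mul_assoc]
  refine mul_le_mul_right (mul_le_mul_right ?_ _) _
  refine le_trans (le_of_eq ?_) (measure_mono (good_subset_cone x t ht hx))
  rw [(WithLp.volume_preserving_ofLp (E d) (E d)).measure_preimage
    (measurableSet_good _ _).nullMeasurableSet, volume_good _ _ (by positivity)]
  have : (t⁻¹ / 16) ^ d = (1 / 16) ^ d * t⁻¹ ^ d := by rw [← mul_pow]; ring_nf
  rw [this, ENNReal.ofReal_mul (by positivity)]
  ring

end geometry

section constants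

variable {d : ℕ}

lemma toSphere_univ_ne_zero (hd : 1 ≤ d) :
    (volume : Measure (E2 d)).toSphere univ ≠ 0 := by
  have : Nonempty (Fin d) := ⟨⟨0, by omega⟩⟩
  have : Nontrivial (E2 d) := by
    have : Nontrivial (E d × E d) := inferInstance
    exact (WithLp.equiv 2 (E d × E d)).nontrivial
  rw [Ne, Measure.measure_univ_eq_zero]
  exact Measure.toSphere_ne_zero _

lemma isProbabilityMeasure_sigma (hd : 1 ≤ d) : IsProbabilityMeasure (sigma d) := by
  have h : IsProbabilityMeasure (sphereProb (E2 d)) := by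
    refine ⟨?_⟩
    rw [sphereProb, Measure.smul_apply, smul_eq_mul]
    exact ENNReal.inv_mul_cancel (toSphere_univ_ne_zero hd) (measure_ne_top _ _)
  exact Measure.isProbabilityMeasure_map measurable_incl.aemeasurable

lemma volume_shell_pos (hd : 1 ≤ d) : 0 < volume {v : E d | 1 / 4 ≤ ‖v‖ ∧ ‖v‖ ≤ 1 / 2} := by
  have : Nonempty (Fin d) := ⟨⟨0, by omega⟩⟩
  obtain ⟨v, hv⟩ := exists_norm_eq (E d) (c := 3 / 8) (by norm_num)
  have hopen : IsOpen {v : E d | 1 / 4 < ‖v‖ ∧ ‖v‖ < 1 / 2} :=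
    (isOpen_lt continuous_const continuous_norm).inter
      (isOpen_lt continuous_norm continuous_const)
  have hne : {v : E d | 1 / 4 < ‖v‖ ∧ ‖v‖ < 1 / 2}.Nonempty :=
    ⟨v, by rw [mem_ofPred_eq, hv]; norm_num⟩
  exact lt_of_lt_of_le (hopen.measure_pos _ hne)
    (measure_mono fun w hw => ⟨hw.1.le, hw.2.le⟩)

lemma volume_shell_ne_top : volume {v : E d | 1 / 4 ≤ ‖v‖ ∧ ‖v‖ ≤ 1 / 2} ≠ ∞ := by
  refine ne_top_of_le_ne_top ?_ (measure_mono (t := Metric.closedBall (0 : E d) (1 / 2)) ?_)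
  · exact (isCompact_closedBall _ _).measure_ne_top
  · intro v hv
    rw [mem_closedBall_zero_iff]
    exact hv.2

lemma volume_ball_pos : 0 < volume (Metric.ball (0 : E d) 1) :=
  Metric.measure_ball_pos _ _ one_pos

lemma volume_ball_ne_top : volume (Metric.ball (0 : E d) 1) ≠ ∞ := measure_ball_lt_top.ne

lemma capConst_ne_zero (hd : 1 ≤ d) : capConst d ≠ 0 := by
  unfold capConst
  have h1 : ((volume : Measure (E2 d)).toSphere univ)⁻¹ ≠ 0 :=
    ENNReal.inv_ne_zero.mpr (measure_ne_top _ _)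
  have h2 : (Module.finrank ℝ (E2 d) : ℝ≥0∞) ≠ 0 := by
    have : Nonempty (Fin d) := ⟨⟨0, by omega⟩⟩
    have : Nontrivial (E2 d) := by
      have : Nontrivial (E d × E d) := inferInstance
      exact (WithLp.equiv 2 (E d × E d)).nontrivial
    exact_mod_cast Module.finrank_pos.ne'
  have h3 : ENNReal.ofReal ((1 / 16 : ℝ) ^ d) ≠ 0 := by
    rw [Ne, ENNReal.ofReal_eq_zero, not_le]; positivity
  exact mul_ne_zero h1 (mul_ne_zero h2 (mul_ne_zero (mul_ne_zero h3 volume_ball_pos.ne')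
    (volume_shell_pos hd).ne'))

lemma capConst_ne_top (hd : 1 ≤ d) : capConst d ≠ ∞ := by
  unfold capConst
  refine ENNReal.mul_ne_top (ENNReal.inv_ne_top.mpr (toSphere_univ_ne_zero hd)) ?_
  refine ENNReal.mul_ne_top (ENNReal.natCast_ne_top _) ?_
  exact ENNReal.mul_ne_top (ENNReal.mul_ne_top ENNReal.ofReal_ne_top volume_ball_ne_top)
    volume_shell_ne_top

end constants

section testfunctions

variable {d : ℕ}

/-- `f`: the indicator function of the closed unit ball -/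
noncomputable def tf (d : ℕ) (x : E d) : ℝ := (Metric.closedBall (0 : E d) 1).indicator 1 x

/-- `g`: the function `max(1,|y|)^{-d/q}` cut off at radius `2^L` -/
noncomputable def tg (d : ℕ) (q : ℝ) (L : ℕ) (y : E d) : ℝ :=
  (Metric.ball (0 : E d) (2 ^ L)).indicator (fun y => (max 1 ‖y‖) ^ (-(d / q : ℝ))) y

lemma tf_nonneg (x : E d) : 0 ≤ tf d x := indicator_nonneg (fun _ _ => zero_le_one) _

lemma tf_le_one (x : E d) : tf d x ≤ 1 :=
  indicator_le_self' (fun _ _ => zero_le_one) x |>.trans le_rfl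

lemma measurable_tf : Measurable (tf d) :=
  measurable_one.indicator Metric.isClosed_closedBall.measurableSet

lemma tg_nonneg (q : ℝ) (L : ℕ) (y : E d) : 0 ≤ tg d q L y :=
  indicator_nonneg (fun _ _ => by positivity) _

lemma tg_le_one (q : ℝ) (hq : 0 < q) (L : ℕ) (y : E d) : tg d q L y ≤ 1 := by
  unfold tg
  by_cases hy : y ∈ Metric.ball (0 : E d) (2 ^ L)
  · rw [indicator_of_mem hy]
    exact Real.rpow_le_one_of_one_le_of_nonpos (le_max_left _ _)
      (neg_nonpos.mpr (by positivity))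
  · rw [indicator_of_notMem hy]
    exact zero_le_one

lemma measurable_tg (q : ℝ) (L : ℕ) : Measurable (tg d q L) := by
  refine Measurable.indicator ?_ Metric.isOpen_ball.measurableSet
  exact (measurable_const.max measurable_norm).pow_const _

lemma avg_ge (hd : 1 ≤ d) (q : ℝ) (hq : 0 < q) (L : ℕ) (x : E d) (t : ℝ) (ht : 1 ≤ t)
    (hx : ‖x‖ ≤ t / 4) (htL : 2 * t ≤ 2 ^ L) :
    capConst d * ENNReal.ofReal (t⁻¹ ^ d) * ENNReal.ofReal ((2 * t) ^ (-(d / q : ℝ)))
      ≤ ‖avg d t (tf d) (tg d q L) x‖ₑ := by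
  have := isProbabilityMeasure_sigma hd
  have ht0 : 0 < t := by linarith
  set F : E d × E d → ℝ := fun w => tf d (x - t • w.1) * tg d q L (x - t • w.2) with hF
  have hF0 : ∀ w, 0 ≤ F w := fun w => mul_nonneg (tf_nonneg _) (tg_nonneg _ _ _)
  have hFm : Measurable F := by
    refine (measurable_tf.comp ?_).mul ((measurable_tg q L).comp ?_)
    · exact Continuous.measurable (by fun_prop)
    · exact Continuous.measurable (by fun_prop)
  have hF1 : ∀ w, ‖F w‖ ≤ 1 := by
    intro w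
    rw [Real.norm_of_nonneg (hF0 w)]
    calc F w ≤ 1 * 1 := mul_le_mul (tf_le_one _) (tg_le_one q hq L _) (tg_nonneg _ _ _) zero_le_one
      _ = 1 := one_mul 1
  have hFi : Integrable F (sigma d) :=
    Integrable.of_bound hFm.aestronglyMeasurable 1 (Filter.Eventually.of_forall hF1)
  have havg : avg d t (tf d) (tg d q L) x = ∫ w, F w ∂(sigma d) := rfl
  rw [havg, Real.enorm_of_nonneg (integral_nonneg hF0),
    ofReal_integral_eq_lintegral_ofReal hFi (Filter.Eventually.of_forall hF0)]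
  have hlow : ∀ w ∈ cap d x t, (2 * t) ^ (-(d / q : ℝ)) ≤ F w := by
    intro w hw
    obtain ⟨hw1, hsnd⟩ := hw
    have h1 : tf d (x - t • w.1) = 1 := by
      unfold tf
      rw [indicator_of_mem (mem_closedBall_zero_iff.mpr hw1)]
      rfl
    have hn : ‖x - t • w.2‖ < 2 * t := by
      calc ‖x - t • w.2‖ ≤ ‖x‖ + ‖t • w.2‖ := norm_sub_le _ _
        _ ≤ t / 4 + t * 1 := by
            rw [norm_smul, Real.norm_of_nonneg ht0.le]
            exact add_le_add hx (mul_le_mul_of_nonneg_left hsnd ht0.le)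
        _ < 2 * t := by linarith
    have h2 : (2 * t) ^ (-(d / q : ℝ)) ≤ tg d q L (x - t • w.2) := by
      unfold tg
      rw [indicator_of_mem (mem_ball_zero_iff.mpr (hn.trans_le htL))]
      apply Real.rpow_le_rpow_of_nonpos (by positivity)
      · exact max_le (by linarith) hn.le
      · exact neg_nonpos.mpr (by positivity)
    rw [hF]
    simp only
    rw [h1, one_mul]
    exact h2
  calc capConst d * ENNReal.ofReal (t⁻¹ ^ d) * ENNReal.ofReal ((2 * t) ^ (-(d / q : ℝ)))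
      ≤ sigma d (cap d x t) * ENNReal.ofReal ((2 * t) ^ (-(d / q : ℝ))) :=
        mul_le_mul_left (sigma_cap_ge x t ht hx) _
    _ = ∫⁻ w in cap d x t, ENNReal.ofReal ((2 * t) ^ (-(d / q : ℝ))) ∂(sigma d) := by
        rw [setLIntegral_const, mul_comm]
    _ ≤ ∫⁻ w in cap d x t, ENNReal.ofReal (F w) ∂(sigma d) :=
        setLIntegral_mono' (measurableSet_cap x t) fun w hw => ENNReal.ofReal_le_ofReal (hlow w hw)
    _ ≤ ∫⁻ w, ENNReal.ofReal (F w) ∂(sigma d) := setLIntegral_le_lintegral _ _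

end testfunctions

section estimates

variable {d : ℕ}

/-- dyadic annulus -/
def ann (d : ℕ) (j : ℕ) : Set (E d) := {x | 2 ^ j ≤ ‖x‖ ∧ ‖x‖ < 2 ^ (j + 1)}

lemma measurableSet_ann (j : ℕ) : MeasurableSet (ann d j) :=
  (measurableSet_le measurable_const measurable_norm).inter
    (measurableSet_lt measurable_norm measurable_const)

lemma volume_ann_ge (hd : 1 ≤ d) (j : ℕ) :
    ENNReal.ofReal ((2 ^ j) ^ d) * volume (Metric.ball (0 : E d) 1) ≤ volume (ann d j) := by
  have hb : ∀ i : ℕ, volume (Metric.ball (0 : E d) (2 ^ i)) =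
      ENNReal.ofReal ((2 ^ i) ^ d) * volume (Metric.ball (0 : E d) 1) := by
    intro i
    have := Measure.addHaar_ball_of_pos (volume : Measure (E d)) 0 (r := 2 ^ i) (by positivity)
    rw [this]
    simp
  have hsub : Metric.ball (0 : E d) (2 ^ (j + 1)) ⊆ ann d j ∪ Metric.ball (0 : E d) (2 ^ j) := by
    intro x hx
    rw [mem_ball_zero_iff] at hx
    by_cases h : ‖x‖ < 2 ^ j
    · exact Or.inr (mem_ball_zero_iff.mpr h)
    · exact Or.inl ⟨not_lt.mp h, hx⟩
  have h1 := (measure_mono hsub).trans (measure_union_le (μ := volume) _ _)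
  rw [hb, hb] at h1
  have h2 : 2 * (2 ^ j : ℝ) ^ d ≤ (2 ^ (j + 1)) ^ d := by
    have : ((2 : ℝ) ^ (j + 1)) ^ d = 2 ^ d * (2 ^ j) ^ d := by rw [← mul_pow]; ring_nf
    rw [this]
    have h3 : (2 : ℝ) ≤ 2 ^ d := by
      calc (2 : ℝ) = 2 ^ 1 := (pow_one 2).symm
        _ ≤ 2 ^ d := pow_le_pow_right₀ (by norm_num) hd
    exact mul_le_mul_of_nonneg_right h3 (by positivity)
  have h4 : ENNReal.ofReal ((2 ^ j) ^ d) * volume (Metric.ball (0 : E d) 1) +
      ENNReal.ofReal ((2 ^ j) ^ d) * volume (Metric.ball (0 : E d) 1) ≤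
      volume (ann d j) + ENNReal.ofReal ((2 ^ j) ^ d) * volume (Metric.ball (0 : E d) 1) := by
    refine le_trans ?_ h1
    rw [← two_mul, ← mul_assoc]
    refine mul_le_mul_left ?_ _
    rw [show (2 : ℝ≥0∞) = ENNReal.ofReal 2 by simp, ← ENNReal.ofReal_mul (by norm_num)]
    exact ENNReal.ofReal_le_ofReal h2
  exact (ENNReal.add_le_add_iff_right
    (ENNReal.mul_ne_top ENNReal.ofReal_ne_top volume_ball_ne_top)).mp h4

lemma lacMax_ge (hd : 1 ≤ d) (q : ℝ) (hq : 0 < q) (j L : ℕ) (hjL : j + 4 ≤ L) (x : E d)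
    (hx : x ∈ ann d j) :
    capConst d * ENNReal.ofReal ((2 ^ (j + 4) : ℝ) ^ (-(d * (1 + 1 / q)) : ℝ))
      ≤ lacMax d (tf d) (tg d q L) x := by
  have h1 := avg_ge hd q hq L x (2 ^ (j + 3)) (one_le_pow₀ (by norm_num))
    (by
      have := hx.2
      have e : (2 : ℝ) ^ (j + 3) / 4 = 2 ^ (j + 1) := by ring
      rw [e]; exact this.le)
    (by
      have e : 2 * (2 : ℝ) ^ (j + 3) = 2 ^ (j + 4) := by ring
      rw [e]; exact pow_le_pow_right₀ (by norm_num) hjL)
  have h2 : ‖avg d (2 ^ (j + 3)) (tf d) (tg d q L) x‖ₑ ≤ lacMax d (tf d) (tg d q L) x := by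
    unfold lacMax
    refine le_trans (le_of_eq ?_)
      (le_iSup (fun l : ℤ => ‖avg d ((2 : ℝ) ^ l) (tf d) (tg d q L) x‖ₑ) ((j + 3 : ℕ) : ℤ))
    rw [zpow_natCast]
  refine le_trans ?_ (h1.trans h2)
  rw [mul_assoc]
  refine mul_le_mul_right ?_ _
  rw [← ENNReal.ofReal_mul (by positivity)]
  apply ENNReal.ofReal_le_ofReal
  have e : 2 * (2 : ℝ) ^ (j + 3) = 2 ^ (j + 4) := by ring
  rw [e]
  have e2 : (-(d * (1 + 1 / q)) : ℝ) = -(d : ℝ) + -(d / q) := by ring
  rw [e2, Real.rpow_add (by positivity)]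
  refine mul_le_mul_of_nonneg_right ?_ (by positivity)
  rw [Real.rpow_neg (by positivity), Real.rpow_natCast, ← inv_pow]
  apply pow_le_pow_left₀ (by positivity)
  apply inv_anti₀ (by positivity)
  exact pow_le_pow_right₀ (by norm_num) (by omega)

/-- constant in the lower bound -/
noncomputable def lowConst (d : ℕ) (r : ℝ) : ℝ≥0∞ :=
  capConst d ^ r * (ENNReal.ofReal (((2 : ℝ) ^ 4)⁻¹ ^ d) * volume (Metric.ball (0 : E d) 1))

lemma lintegral_lacMax_ge (hd : 1 ≤ d) (q : ℝ) (hq : 0 < q) (L : ℕ) :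
    ((L - 3 : ℕ) : ℝ≥0∞) * lowConst d (q / (1 + q)) ≤
      ∫⁻ x, lacMax d (tf d) (tg d q L) x ^ (q / (1 + q)) := by
  set r : ℝ := q / (1 + q) with hr
  have hr0 : 0 < r := by positivity
  have hrq : (1 + 1 / q) * r = 1 := by rw [hr]; field_simp; ring
  set a : ℕ → ℝ≥0∞ := fun j => capConst d ^ r * ENNReal.ofReal ((2 ^ (j + 4) : ℝ)⁻¹ ^ d) with ha
  have hpt : ∀ x, ∑ j ∈ Finset.range (L - 3), (ann d j).indicator (fun _ => a j) x ≤
      lacMax d (tf d) (tg d q L) x ^ r := by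
    intro x
    by_cases hex : ∃ j ∈ Finset.range (L - 3), x ∈ ann d j
    · obtain ⟨j, hj, hxj⟩ := hex
      rw [Finset.sum_eq_single j]
      · rw [indicator_of_mem hxj]
        have h1 := lacMax_ge hd q hq j L (by have := Finset.mem_range.mp hj; omega) x hxj
        refine le_trans (le_of_eq ?_) (ENNReal.rpow_le_rpow h1 hr0.le)
        rw [ENNReal.mul_rpow_of_nonneg _ _ hr0.le, ENNReal.ofReal_rpow_of_pos (by positivity),
          ← Real.rpow_mul (by positivity), ha]
        have e : -(d * (1 + 1 / q)) * r = -(d : ℝ) := by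
          rw [neg_mul, mul_assoc, hrq, mul_one]
        rw [e, Real.rpow_neg (by positivity), Real.rpow_natCast, ← inv_pow]
      · intro i _ hij
        apply indicator_of_notMem
        intro hxi
        rcases lt_or_gt_of_ne hij with h | h
        · have h1 : (2 : ℝ) ^ (i + 1) ≤ 2 ^ j := pow_le_pow_right₀ (by norm_num) h
          have h2 := hxi.2
          have h3 := hxj.1
          linarith
        · have h1 : (2 : ℝ) ^ (j + 1) ≤ 2 ^ i := pow_le_pow_right₀ (by norm_num) h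
          have h2 := hxj.2
          have h3 := hxi.1
          linarith
      · intro h; exact absurd hj h
    · push Not at hex
      rw [Finset.sum_eq_zero]
      · exact zero_le
      · intro j hj
        exact indicator_of_notMem (hex j hj) _
  calc ((L - 3 : ℕ) : ℝ≥0∞) * lowConst d r
      = ∑ j ∈ Finset.range (L - 3), lowConst d r := by simp
    _ ≤ ∑ j ∈ Finset.range (L - 3), a j * volume (ann d j) := by
        refine Finset.sum_le_sum fun j _ => ?_
        refine le_trans (le_of_eq ?_) (mul_le_mul_right (volume_ann_ge hd j) _)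
        rw [lowConst, ha]
        simp only
        rw [mul_assoc, ← mul_assoc (ENNReal.ofReal ((2 ^ (j + 4))⁻¹ ^ d)),
          ← ENNReal.ofReal_mul (by positivity), ← mul_pow]
        congr 4
        field_simp
        ring
    _ = ∑ j ∈ Finset.range (L - 3), ∫⁻ x, (ann d j).indicator (fun _ => a j) x := by
        refine Finset.sum_congr rfl fun j _ => ?_
        rw [lintegral_indicator (measurableSet_ann j), setLIntegral_const]
    _ = ∫⁻ x, ∑ j ∈ Finset.range (L - 3), (ann d j).indicator (fun _ => a j) x := by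
        rw [lintegral_finsetSum]
        intro j _
        exact measurable_const.indicator (measurableSet_ann j)
    _ ≤ ∫⁻ x, lacMax d (tf d) (tg d q L) x ^ r := lintegral_mono hpt

lemma lintegral_tf : ∫⁻ x, ‖tf d x‖ₑ = volume (Metric.closedBall (0 : E d) 1) := by
  have h : ∀ x, ‖tf d x‖ₑ = (Metric.closedBall (0 : E d) 1).indicator (fun _ => (1 : ℝ≥0∞)) x := by
    intro x
    unfold tf
    by_cases hx : x ∈ Metric.closedBall (0 : E d) 1
    · rw [indicator_of_mem hx, indicator_of_mem hx]; simp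
    · rw [indicator_of_notMem hx, indicator_of_notMem hx]; simp
  simp_rw [h]
  rw [lintegral_indicator Metric.isClosed_closedBall.measurableSet, setLIntegral_const, one_mul]

lemma lintegral_tg (q : ℝ) (hq : 0 < q) (L : ℕ) (hL : 1 ≤ L) :
    ∫⁻ x, ‖tg d q L x‖ₑ ^ q ≤
      (L : ℝ≥0∞) * (ENNReal.ofReal (2 ^ d) * volume (Metric.ball (0 : E d) 1)) := by
  have hpt : ∀ y : E d, ‖tg d q L y‖ₑ ^ q ≤ ∑ j ∈ Finset.range L,
      (Metric.ball (0 : E d) (2 ^ (j + 1))).indicator
        (fun _ => ENNReal.ofReal ((2 ^ j : ℝ)⁻¹ ^ d)) y := by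
    intro y
    unfold tg
    by_cases hy : y ∈ Metric.ball (0 : E d) (2 ^ L)
    · rw [indicator_of_mem hy]
      rw [mem_ball_zero_iff] at hy
      obtain ⟨j, hj1, hj2⟩ := exists_nat_pow_near (le_max_left 1 ‖y‖) (one_lt_two (α := ℝ))
      have hjL : j < L := by
        have h1 : max 1 ‖y‖ < 2 ^ L := max_lt (one_lt_pow₀ (by norm_num) (by omega)) hy
        exact (pow_lt_pow_iff_right₀ (one_lt_two (α := ℝ))).mp (hj1.trans_lt h1)
      refine le_trans ?_ (Finset.single_le_sum (f := fun j =>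
        (Metric.ball (0 : E d) (2 ^ (j + 1))).indicator
        (fun _ => ENNReal.ofReal ((2 ^ j : ℝ)⁻¹ ^ d)) y) (fun _ _ => zero_le)
        (Finset.mem_range.mpr hjL))
      rw [indicator_of_mem (mem_ball_zero_iff.mpr ((le_max_right _ _).trans_lt hj2)),
        Real.enorm_of_nonneg (by positivity), ENNReal.ofReal_rpow_of_pos (by positivity),
        ← Real.rpow_mul (by positivity)]
      apply ENNReal.ofReal_le_ofReal
      have e : -(d / q) * q = -(d : ℝ) := by field_simp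
      rw [e, Real.rpow_neg (by positivity), Real.rpow_natCast, ← inv_pow]
      apply pow_le_pow_left₀ (by positivity)
      exact inv_anti₀ (by positivity) hj1
    · rw [indicator_of_notMem hy, enorm_zero, ENNReal.zero_rpow_of_pos hq]
      exact zero_le
  calc ∫⁻ x, ‖tg d q L x‖ₑ ^ q ≤ ∫⁻ y, ∑ j ∈ Finset.range L,
      (Metric.ball (0 : E d) (2 ^ (j + 1))).indicator
        (fun _ => ENNReal.ofReal ((2 ^ j : ℝ)⁻¹ ^ d)) y := lintegral_mono hpt
    _ = ∑ j ∈ Finset.range L, ∫⁻ y, (Metric.ball (0 : E d) (2 ^ (j + 1))).indicator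
        (fun _ => ENNReal.ofReal ((2 ^ j : ℝ)⁻¹ ^ d)) y := by
        rw [lintegral_finsetSum]
        intro j _
        exact measurable_const.indicator Metric.isOpen_ball.measurableSet
    _ = ∑ j ∈ Finset.range L, ENNReal.ofReal (2 ^ d) * volume (Metric.ball (0 : E d) 1) := by
        refine Finset.sum_congr rfl fun j _ => ?_
        rw [lintegral_indicator Metric.isOpen_ball.measurableSet, setLIntegral_const,
          Measure.addHaar_ball_of_pos (volume : Measure (E d)) 0 (by positivity), ← mul_assoc,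
          ← ENNReal.ofReal_mul (by positivity)]
        congr 2
        rw [finrank_euclideanSpace, Fintype.card_fin, ← mul_pow]
        congr 1
        field_simp
        ring
    _ = _ := by simp

lemma memLp_tf : MemLp (tf d) 1 volume := by
  rw [memLp_one_iff_integrable]
  refine ⟨measurable_tf.aestronglyMeasurable, ?_⟩
  rw [HasFiniteIntegral, lintegral_tf]
  exact (isCompact_closedBall _ _).measure_lt_top

lemma memLp_tg (q : ℝ) (hq : 0 < q) (L : ℕ) (hL : 1 ≤ L) :
    MemLp (tg d q L) (ENNReal.ofReal q) volume := by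
  refine ⟨(measurable_tg q L).aestronglyMeasurable, ?_⟩
  rw [eLpNorm_lt_top_iff_lintegral_rpow_enorm_lt_top (by simpa using hq) ENNReal.ofReal_ne_top,
    ENNReal.toReal_ofReal hq.le]
  refine (lintegral_tg q hq L hL).trans_lt ?_
  exact ENNReal.mul_lt_top (ENNReal.natCast_lt_top _)
    (ENNReal.mul_lt_top ENNReal.ofReal_lt_top volume_ball_ne_top.lt_top)

end estimates

/-- `M_lac` is bounded from `L^p x L^q` to `L^r`. -/
def LacBounded (d : ℕ) (p q r : ℝ) : Prop :=
  ∃ C : ℝ≥0, ∀ f g : E d → ℝ, MemLp f (ENNReal.ofReal p) volume →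
    MemLp g (ENNReal.ofReal q) volume →
    (∫⁻ x, lacMax d f g x ^ r) ^ (1 / r) ≤
      C * eLpNorm f (ENNReal.ofReal p) volume * eLpNorm g (ENNReal.ofReal q) volume

lemma main (d : ℕ) (hd : 1 ≤ d) (q : ℝ) (hq : 1 ≤ q) : ¬ LacBounded d 1 q (q / (1 + q)) := by
  rintro ⟨C, hC⟩
  have hq0 : 0 < q := by linarith
  set r : ℝ := q / (1 + q) with hr
  have hr0 : 0 < r := by positivity
  set V := volume (Metric.ball (0 : E d) 1) with hV
  set V' := volume (Metric.closedBall (0 : E d) 1) with hV'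
  have hV't : V' ≠ ∞ := (isCompact_closedBall _ _).measure_ne_top
  set B0 := ENNReal.ofReal (2 ^ d) * V with hB0
  have hB0t : B0 ≠ ∞ := ENNReal.mul_ne_top ENNReal.ofReal_ne_top volume_ball_ne_top
  set K := lowConst d r with hK
  have hK0 : K ≠ 0 := by
    rw [hK, lowConst]
    refine mul_ne_zero ?_ (mul_ne_zero ?_ volume_ball_pos.ne')
    · intro h
      rcases ENNReal.rpow_eq_zero_iff.mp h with h | h
      · exact capConst_ne_zero hd h.1
      · linarith [h.2]
    · rw [Ne, ENNReal.ofReal_eq_zero, not_le]; positivity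
  have hKt : K ≠ ∞ := by
    rw [hK, lowConst]
    exact ENNReal.mul_ne_top (ENNReal.rpow_ne_top_of_nonneg hr0.le (capConst_ne_top hd))
      (ENNReal.mul_ne_top ENNReal.ofReal_ne_top volume_ball_ne_top)
  set B := ((C : ℝ≥0∞) * V') ^ r * B0 ^ (r / q) with hB
  have hrq : 0 ≤ r / q := by positivity
  have hrq2 : r / q ≤ 1 / 2 := by
    have : r / q = 1 / (1 + q) := by rw [hr]; field_simp
    rw [this]
    exact one_div_le_one_div_of_le (by norm_num) (by linarith)
  have hBt : B ≠ ∞ := by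
    rw [hB]
    exact ENNReal.mul_ne_top (ENNReal.rpow_ne_top_of_nonneg hr0.le
      (ENNReal.mul_ne_top ENNReal.coe_ne_top hV't)) (ENNReal.rpow_ne_top_of_nonneg hrq hB0t)
  have key : ∀ L : ℕ, 1 ≤ L → ((L - 3 : ℕ) : ℝ≥0∞) * K ≤ B * (L : ℝ≥0∞) ^ (1 / 2 : ℝ) := by
    intro L hL
    have h1 := hC (tf d) (tg d q L) (by rw [ENNReal.ofReal_one]; exact memLp_tf)
      (memLp_tg q hq0 L hL)
    have h2 : eLpNorm (tf d) (ENNReal.ofReal 1) volume = V' := by
      rw [ENNReal.ofReal_one, eLpNorm_one_eq_lintegral_enorm, lintegral_tf]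
    have h3 : eLpNorm (tg d q L) (ENNReal.ofReal q) volume ≤ ((L : ℝ≥0∞) * B0) ^ (1 / q) := by
      rw [eLpNorm_eq_lintegral_rpow_enorm_toReal (by simpa using hq0) ENNReal.ofReal_ne_top,
        ENNReal.toReal_ofReal hq0.le]
      exact ENNReal.rpow_le_rpow (lintegral_tg q hq0 L hL) (by positivity)
    rw [h2] at h1
    have h4 := h1.trans (mul_le_mul_right h3 _)
    have h5 := ENNReal.rpow_le_rpow h4 hr0.le
    rw [← ENNReal.rpow_mul, one_div_mul_cancel hr0.ne', ENNReal.rpow_one] at h5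
    refine (lintegral_lacMax_ge hd q hq0 L).trans (h5.trans ?_)
    rw [ENNReal.mul_rpow_of_nonneg _ _ hr0.le, ← ENNReal.rpow_mul,
      show 1 / q * r = r / q by ring, ENNReal.mul_rpow_of_nonneg _ _ hrq,
      mul_comm ((L : ℝ≥0∞) ^ (r / q)), ← mul_assoc, ← hB]
    refine mul_le_mul_right ?_ _
    exact ENNReal.rpow_le_rpow_of_exponent_le (by exact_mod_cast hL) hrq2
  have key2 : ∀ n : ℕ, 2 ≤ n → ((n : ℝ) ^ 2 - 3) * K.toReal ≤ B.toReal * n := by
    intro n hn
    have hn2 : 4 ≤ n ^ 2 := by nlinarith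
    have h1 := key (n ^ 2) (by omega)
    have h2 : ((n ^ 2 : ℕ) : ℝ≥0∞) ^ (1 / 2 : ℝ) = (n : ℝ≥0∞) := by
      rw [Nat.cast_pow, ← ENNReal.rpow_natCast, ← ENNReal.rpow_mul]
      norm_num
    rw [h2] at h1
    have h3 := ENNReal.toReal_mono (ENNReal.mul_ne_top hBt (ENNReal.natCast_ne_top n)) h1
    rw [ENNReal.toReal_mul, ENNReal.toReal_mul, ENNReal.toReal_natCast, ENNReal.toReal_natCast,
      Nat.cast_sub (by omega)] at h3
    push_cast at h3
    exact h3
  have hKr : 0 < K.toReal := ENNReal.toReal_pos hK0 hKt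
  have hBr : 0 ≤ B.toReal := ENNReal.toReal_nonneg
  obtain ⟨n, hn⟩ := exists_nat_gt (B.toReal / K.toReal + 4)
  have hn4 : (4 : ℝ) < n := by
    have : 0 ≤ B.toReal / K.toReal := by positivity
    linarith
  have hn2 : 2 ≤ n := by
    have : (2 : ℝ) < n := by linarith
    exact_mod_cast this.le
  have h1 := key2 n hn2
  have h2 : B.toReal < (n - 4) * K.toReal := by
    rw [← div_lt_iff₀ hKr]; linarith
  nlinarith

end Pool.Agent.Helper406.LacBilinear
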