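import Mathlib

open Filter Topology

namespace Pool.Agent.Helper406.Toep

/-- abstract setting: a commutative Banach algebra with analytic / antianalytic subspaces -/
structure Hardy (L : Type) [NormedCommRing L] [NormedAlgebra ℂ L] where
  P : Submodule ℂ L
  M : Submodule ℂ L
  N : Submodule ℂ L
  one_mem : (1 : L) ∈ P
  mul_mem : ∀ {u v : L}, u ∈ P → v ∈ P → u * v ∈ P
  M_le_N : M ≤ N
  mul_mem_M : ∀ {u v : L}, u ∈ N → v ∈ M → u * v ∈ M
  inter : ∀ {u : L}, u ∈ P → u ∈ M → u = 0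
  closed_P : IsClosed (P : Set L)
  closed_M : IsClosed (M : Set L)
  norm_one_le : ‖(1 : L)‖ ≤ 1

variable {L : Type} [NormedCommRing L] [NormedAlgebra ℂ L] (D : Hardy L)

namespace Hardy

/-- `S` is the Toeplitz operator with symbol `f` -/
def IsT (f : L) (S : D.P →L[ℂ] D.P) : Prop := ∀ F : D.P, f * (F : L) - (S F : L) ∈ D.M

variable {D}

lemma norm_smul_op (c : ℂ) (S : D.P →L[ℂ] D.P) : ‖c • S‖ = ‖c‖ * ‖S‖ := by
  apply le_antisymm (ContinuousLinearMap.opNorm_smul_le c S)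
  by_cases hc : c = 0
  · subst hc; simp
  have h1 := ContinuousLinearMap.opNorm_smul_le c⁻¹ (c • S)
  rw [inv_smul_smul₀ hc, norm_inv] at h1
  have hc' : 0 < ‖c‖ := norm_pos_iff.mpr hc
  rw [inv_mul_eq_div, le_div_iff₀ hc'] at h1
  linarith

lemma IsT.unique {f : L} {S S' : D.P →L[ℂ] D.P} (h : D.IsT f S) (h' : D.IsT f S') : S = S' := by
  ext1 F
  apply Subtype.ext
  rw [← sub_eq_zero]
  apply D.inter
  · exact D.P.sub_mem (S F).2 (S' F).2
  · have := D.M.sub_mem (h' F) (h F)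
    have e : f * (F : L) - (S' F : L) - (f * (F : L) - (S F : L)) = (S F : L) - (S' F : L) := by
      abel
    rwa [e] at this

variable (D) in
/-- multiplication by `a ∈ P` -/
noncomputable def mulP (a : D.P) : D.P →L[ℂ] D.P :=
  ((ContinuousLinearMap.mul ℂ L (a : L)) ∘L D.P.subtypeL).codRestrict D.P
    (fun F => D.mul_mem a.2 F.2)

@[simp] lemma mulP_coe (a F : D.P) : (D.mulP a F : L) = (a : L) * (F : L) := rfl

lemma norm_mulP_le (a : D.P) : ‖D.mulP a‖ ≤ ‖a‖ := by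
  apply ContinuousLinearMap.opNorm_le_bound _ (norm_nonneg _)
  intro F
  exact _root_.norm_mul_le (a : L) (F : L)

lemma isT_mulP (a : D.P) : D.IsT a (D.mulP a) := by
  intro F
  rw [mulP_coe, sub_self]; exact D.M.zero_mem

variable (D) in
/-- the constant function one -/
def oneP : D.P := ⟨1, D.one_mem⟩

lemma norm_oneP_le : ‖D.oneP‖ ≤ 1 := D.norm_one_le

lemma IsT.sub_mem {f : L} {S : D.P →L[ℂ] D.P} (h : D.IsT f S) : f - (S D.oneP : L) ∈ D.M := by
  have := h D.oneP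
  simpa [oneP] using this

lemma IsT.add {f g : L} {S R : D.P →L[ℂ] D.P} (hf : D.IsT f S) (hg : D.IsT g R) :
    D.IsT (f + g) (S + R) := by
  intro F
  have := D.M.add_mem (hf F) (hg F)
  convert this using 1
  simp only [add_apply, Submodule.coe_add]
  ring

lemma IsT.smul {f : L} {S : D.P →L[ℂ] D.P} (c : ℂ) (hf : D.IsT f S) : D.IsT (c • f) (c • S) := by
  intro F
  have := D.M.smul_mem c (hf F)
  convert this using 1
  simp only [smul_apply, Submodule.coe_smul, smul_mul_assoc, smul_sub]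

lemma IsT.mul {f g : L} {S R : D.P →L[ℂ] D.P} (hf : D.IsT f S) (hg : D.IsT g R) :
    D.IsT (f * g) (R ∘L D.mulP (S D.oneP) + (S - D.mulP (S D.oneP)) ∘L R) := by
  intro F
  set a := S D.oneP with ha
  have h1 := hg (D.mulP a F)
  have h2 := hf (R F)
  have h3 := hg F
  have h4 := D.mul_mem_M (D.M_le_N hf.sub_mem) h3
  rw [mulP_coe] at h1
  have h5 := D.M.add_mem (D.M.add_mem h1 h2) h4
  convert h5 using 1
  simp only [add_apply, ContinuousLinearMap.comp_apply,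
    sub_apply, Submodule.coe_add, Submodule.coe_sub, mulP_coe]
  ring

lemma norm_mul_op (S R : D.P →L[ℂ] D.P) :
    ‖R ∘L D.mulP (S D.oneP) + (S - D.mulP (S D.oneP)) ∘L R‖ ≤ 3 * (‖S‖ * ‖R‖) := by
  have h1 : ‖S D.oneP‖ ≤ ‖S‖ := by
    calc ‖S D.oneP‖ ≤ ‖S‖ * ‖D.oneP‖ := S.le_opNorm _
      _ ≤ ‖S‖ * 1 := by gcongr; exact norm_oneP_le
      _ = ‖S‖ := mul_one _
  have h2 : ‖D.mulP (S D.oneP)‖ ≤ ‖S‖ := (norm_mulP_le _).trans h1
  have h3 : ‖S - D.mulP (S D.oneP)‖ ≤ ‖S‖ + ‖S‖ :=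
    (norm_sub_le S (D.mulP (S D.oneP))).trans (by gcongr)
  calc ‖R ∘L D.mulP (S D.oneP) + (S - D.mulP (S D.oneP)) ∘L R‖
      ≤ ‖R ∘L D.mulP (S D.oneP)‖ + ‖(S - D.mulP (S D.oneP)) ∘L R‖ :=
        norm_add_le (R ∘L D.mulP (S D.oneP)) ((S - D.mulP (S D.oneP)) ∘L R)
    _ ≤ ‖R‖ * ‖D.mulP (S D.oneP)‖ + ‖S - D.mulP (S D.oneP)‖ * ‖R‖ :=
        add_le_add (ContinuousLinearMap.opNorm_comp_le _ _) (ContinuousLinearMap.opNorm_comp_le _ _)
    _ ≤ ‖R‖ * ‖S‖ + (‖S‖ + ‖S‖) * ‖R‖ := by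
        gcongr
    _ = 3 * (‖S‖ * ‖R‖) := by ring

variable (D) in
/-- the algebra of symbols of Toeplitz operators on `H^∞` -/
def TTs : Subalgebra ℂ L where
  carrier := {f | ∃ S, D.IsT f S}
  mul_mem' := by
    rintro f g ⟨S, hS⟩ ⟨R, hR⟩
    exact ⟨_, hS.mul hR⟩
  add_mem' := by
    rintro f g ⟨S, hS⟩ ⟨R, hR⟩
    exact ⟨_, hS.add hR⟩
  algebraMap_mem' := by
    intro c
    refine ⟨c • ContinuousLinearMap.id ℂ D.P, fun F => ?_⟩
    have : (algebraMap ℂ L c) * (F : L) - ((c • ContinuousLinearMap.id ℂ D.P) F : D.P) = 0 := by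
      rw [sub_eq_zero, ← Algebra.smul_def]; rfl
    rw [this]; exact D.M.zero_mem

lemma mem_TTs {f : L} : f ∈ D.TTs ↔ ∃ S, D.IsT f S := Iff.rfl

lemma P_le_TTs {f : L} (hf : f ∈ D.P) : f ∈ D.TTs :=
  ⟨D.mulP ⟨f, hf⟩, isT_mulP (⟨f, hf⟩ : D.P)⟩

variable (D) in
/-- the algebra with its own norm -/
def TT : Type := D.TTs

noncomputable instance : CommRing D.TT := inferInstanceAs (CommRing D.TTs)
noncomputable instance instAlgTT : Algebra ℂ D.TT := inferInstanceAs (Algebra ℂ D.TTs)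

variable (D) in
/-- the symbol -/
def sy : D.TT →ₐ[ℂ] L := D.TTs.val

lemma sy_injective : Function.Injective D.sy := Subtype.val_injective

/-- the Toeplitz operator of a symbol -/
noncomputable def Top (f : D.TT) : D.P →L[ℂ] D.P := Classical.choose f.2

lemma isT_Top (f : D.TT) : D.IsT (D.sy f) (Top f) := Classical.choose_spec f.2

lemma Top_eq {f : D.TT} {S : D.P →L[ℂ] D.P} (h : D.IsT (D.sy f) S) : Top f = S :=
  (isT_Top f).unique h

lemma Top_add (f g : D.TT) : Top (f + g) = Top f + Top g := by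
  apply Top_eq
  rw [map_add]
  exact (isT_Top f).add (isT_Top g)

lemma Top_smul (c : ℂ) (f : D.TT) : Top (c • f) = c • Top f := by
  apply Top_eq
  rw [map_smul]
  exact (isT_Top f).smul c

lemma norm_Top_mul (f g : D.TT) : ‖Top (f * g)‖ ≤ 3 * (‖Top f‖ * ‖Top g‖) := by
  have h : D.IsT (D.sy (f * g)) (Top g ∘L D.mulP (Top f D.oneP) +
      (Top f - D.mulP (Top f D.oneP)) ∘L Top g) := by
    rw [map_mul]; exact (isT_Top f).mul (isT_Top g)
  rw [Top_eq h]
  exact norm_mul_op _ _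

variable (D) in
/-- embedding used to define the norm -/
noncomputable def Phi : D.TT →ₗ[ℂ] L × (D.P →L[ℂ] D.P) where
  toFun f := ((3 : ℂ) • D.sy f, (3 : ℂ) • Top f)
  map_add' f g := by simp [Top_add]
  map_smul' c f := by
    simp only [map_smul, Top_smul, RingHom.id_apply, Prod.smul_mk, smul_comm (3 : ℂ) c]

lemma Phi_injective : Function.Injective D.Phi := by
  intro f g h
  have h1 : (3 : ℂ) • D.sy f = (3 : ℂ) • D.sy g := congrArg Prod.fst h
  exact sy_injective (smul_right_injective _ (by norm_num : (3 : ℂ) ≠ 0) h1)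

noncomputable instance instNACG : NormedAddCommGroup D.TT :=
  NormedAddCommGroup.induced D.TT (L × (D.P →L[ℂ] D.P)) D.Phi Phi_injective

lemma norm_TT (f : D.TT) : ‖f‖ = max (3 * ‖D.sy f‖) (3 * ‖Top f‖) := by
  have h0 : ‖f‖ = ‖D.Phi f‖ := rfl
  have h1 : D.Phi f = ((3 : ℂ) • D.sy f, (3 : ℂ) • Top f) := rfl
  rw [h0, h1, Prod.norm_def]
  rw [norm_smul, norm_smul_op]
  norm_num

lemma norm_mul_le (f g : D.TT) : ‖f * g‖ ≤ ‖f‖ * ‖g‖ := by
  have h1 : ‖D.sy (f * g)‖ ≤ ‖D.sy f‖ * ‖D.sy g‖ := by rw [map_mul]; exact _root_.norm_mul_le _ _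
  have h2 := norm_Top_mul f g
  rw [norm_TT (f * g), norm_TT f, norm_TT g]
  have a1 := norm_nonneg (D.sy f)
  have a2 := norm_nonneg (D.sy g)
  have a3 := norm_nonneg (Top f)
  have a4 := norm_nonneg (Top g)
  apply max_le
  · calc 3 * ‖D.sy (f * g)‖ ≤ (3 * ‖D.sy f‖) * (3 * ‖D.sy g‖) := by nlinarith [mul_nonneg a1 a2]
      _ ≤ _ := mul_le_mul (le_max_left _ _) (le_max_left _ _) (by positivity)
          (le_max_of_le_left (by positivity))
  · calc 3 * ‖Top (f * g)‖ ≤ (3 * ‖Top f‖) * (3 * ‖Top g‖) := by nlinarith [mul_nonneg a3 a4]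
      _ ≤ _ := mul_le_mul (le_max_right _ _) (le_max_right _ _) (by positivity)
          (le_max_of_le_left (by positivity))

noncomputable instance instNCR : NormedCommRing D.TT :=
  { instNACG, (inferInstance : CommRing D.TT) with
    norm_mul_le := norm_mul_le }

lemma norm_smul_le' (c : ℂ) (f : D.TT) : ‖c • f‖ ≤ ‖c‖ * ‖f‖ := by
  rw [norm_TT, norm_TT, map_smul, Top_smul, norm_smul, norm_smul_op,
    mul_max_of_nonneg _ _ (norm_nonneg c)]
  apply le_of_eq
  congr 1 <;> ring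

noncomputable instance instNA : NormedAlgebra ℂ D.TT :=
  { instAlgTT with norm_smul_le := norm_smul_le' }

lemma norm_sy_le (f : D.TT) : ‖D.sy f‖ ≤ ‖f‖ := by
  rw [norm_TT]
  have := norm_nonneg (D.sy f)
  exact le_max_of_le_left (by linarith)

lemma norm_Top_le (f : D.TT) : ‖Top f‖ ≤ ‖f‖ := by
  rw [norm_TT]
  have := norm_nonneg (Top f)
  exact le_max_of_le_right (by linarith)


lemma isometry_Phi : Isometry D.Phi := by
  exact Isometry.of_dist_eq fun _ _ => rfl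

instance [CompleteSpace L] : CompleteSpace D.P := D.closed_P.completeSpace_coe

lemma isClosed_range_Phi : IsClosed (Set.range D.Phi) := by
  have hr : Set.range D.Phi = {x : L × (D.P →L[ℂ] D.P) | ∀ F : D.P, x.1 * (F : L) - (x.2 F : L) ∈ D.M} := by
    ext x
    constructor
    · rintro ⟨f, rfl⟩ F
      have := D.M.smul_mem (3 : ℂ) (isT_Top f F)
      convert this using 1
      simp only [Phi, LinearMap.coe_mk, AddHom.coe_mk, smul_apply, Submodule.coe_smul,
        smul_mul_assoc, smul_sub]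
    · intro hx
      have h1 : D.IsT ((3 : ℂ)⁻¹ • x.1) ((3 : ℂ)⁻¹ • x.2) := IsT.smul _ hx
      refine ⟨⟨(3 : ℂ)⁻¹ • x.1, _, h1⟩, ?_⟩
      have h2 : Top (⟨(3 : ℂ)⁻¹ • x.1, _, h1⟩ : D.TT) = (3 : ℂ)⁻¹ • x.2 := Top_eq h1
      have h3 : D.sy (⟨(3 : ℂ)⁻¹ • x.1, _, h1⟩ : D.TT) = (3 : ℂ)⁻¹ • x.1 := rfl
      simp only [Phi, LinearMap.coe_mk, AddHom.coe_mk, h2, h3]
      rw [smul_inv_smul₀ (by norm_num), smul_inv_smul₀ (by norm_num)]
  rw [hr]
  have : {x : L × (D.P →L[ℂ] D.P) | ∀ F : D.P, x.1 * (F : L) - (x.2 F : L) ∈ D.M} =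
      ⋂ F : D.P, (fun x : L × (D.P →L[ℂ] D.P) => x.1 * (F : L) - (x.2 F : L)) ⁻¹' (D.M : Set L) := by
    ext x; simp
  rw [this]
  apply isClosed_iInter
  intro F
  apply D.closed_M.preimage
  have h1 : Continuous fun x : L × (D.P →L[ℂ] D.P) => x.2 F :=
    (ContinuousLinearMap.apply ℂ D.P F).continuous.comp continuous_snd
  exact (continuous_fst.mul continuous_const).sub (continuous_subtype_val.comp h1)

instance [CompleteSpace L] : CompleteSpace D.TT := by
  rw [completeSpace_iff_isComplete_range isometry_Phi.isUniformInducing]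
  exact isClosed_range_Phi.isComplete

end Hardy

end Pool.Agent.Helper406.Toep
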