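import Mathlib

open MeasureTheory AddCircle
open scoped ComplexConjugate ENNReal

namespace Pool.Agent.Helper406.Toep

noncomputable abbrev mu : Measure UnitAddCircle := haarAddCircle

abbrev Li : Type := Lp ℂ ⊤ mu

noncomputable instance instMulLi : Mul Li := ⟨fun u v => (ContinuousLinearMap.mul ℂ ℂ).holder ⊤ u v⟩

lemma mul_def (u v : Li) : u * v = (ContinuousLinearMap.mul ℂ ℂ).holder ⊤ u v := rfl

lemma coeFn_mul (u v : Li) : ⇑(u * v) =ᵐ[mu] fun t => u t * v t := by
  rw [mul_def]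
  exact (ContinuousLinearMap.mul ℂ ℂ).coeFn_holder u v

noncomputable instance instOneLi : One Li := ⟨MemLp.toLp (fun _ : UnitAddCircle => (1 : ℂ)) (memLp_const 1)⟩

lemma coeFn_one : ⇑(1 : Li) =ᵐ[mu] fun _ => (1 : ℂ) := MemLp.coeFn_toLp _

noncomputable instance instNormedCommRingLi : NormedCommRing Li :=
  { (inferInstance : NormedAddCommGroup Li), instMulLi, instOneLi with
    left_distrib := fun a b c => (ContinuousLinearMap.mul ℂ ℂ).holder_add_right a b c
    right_distrib := fun a b c => (ContinuousLinearMap.mul ℂ ℂ).holder_add_left a b c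
    zero_mul := fun a => by
      have := (ContinuousLinearMap.mul ℂ ℂ).holder_smul_left (r := ⊤) (0 : ℂ) (0 : Li) a
      rw [zero_smul, zero_smul] at this
      exact this
    mul_zero := fun a => by
      have := (ContinuousLinearMap.mul ℂ ℂ).holder_smul_right (r := ⊤) (0 : ℂ) a (0 : Li)
      rw [zero_smul, zero_smul] at this
      exact this
    mul_assoc := fun a b c => by
      apply Lp.ext
      filter_upwards [coeFn_mul (a * b) c, coeFn_mul a b, coeFn_mul a (b * c), coeFn_mul b c]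
        with t h1 h2 h3 h4
      rw [h1, h2, h3, h4, mul_assoc]
    one_mul := fun a => by
      apply Lp.ext
      filter_upwards [coeFn_mul 1 a, coeFn_one] with t h1 h2
      rw [h1, h2, one_mul]
    mul_one := fun a => by
      apply Lp.ext
      filter_upwards [coeFn_mul a 1, coeFn_one] with t h1 h2
      rw [h1, h2, mul_one]
    mul_comm := fun a b => by
      apply Lp.ext
      filter_upwards [coeFn_mul a b, coeFn_mul b a] with t h1 h2
      rw [h1, h2, mul_comm]
    norm_mul_le := fun a b => by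
      have := (ContinuousLinearMap.mul ℂ ℂ).norm_holder_apply_apply_le (r := ⊤) a b
      calc ‖a * b‖ ≤ ‖ContinuousLinearMap.mul ℂ ℂ‖ * ‖a‖ * ‖b‖ := this
        _ ≤ 1 * ‖a‖ * ‖b‖ := by
          gcongr
          exact ContinuousLinearMap.opNorm_mul_le ℂ ℂ
        _ = ‖a‖ * ‖b‖ := by rw [one_mul] }

noncomputable instance instAlgebraLi : Algebra ℂ Li :=
  Algebra.ofModule (fun r x y => (ContinuousLinearMap.mul ℂ ℂ).holder_smul_left r x y)
    (fun r x y => (ContinuousLinearMap.mul ℂ ℂ).holder_smul_right r x y)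

noncomputable instance instNormedAlgebraLi : NormedAlgebra ℂ Li :=
  { instAlgebraLi with norm_smul_le := fun r x => norm_smul_le r x }


lemma coeFn_add (u v : Li) : ⇑(u + v) =ᵐ[mu] fun t => u t + v t := Lp.coeFn_add u v
lemma coeFn_sub (u v : Li) : ⇑(u - v) =ᵐ[mu] fun t => u t - v t := Lp.coeFn_sub u v
lemma coeFn_smul (c : ℂ) (u : Li) : ⇑(c • u) =ᵐ[mu] fun t => c * u t := Lp.coeFn_smul c u

lemma memLp_one (u : Li) : MemLp u 1 mu := (Lp.memLp u).mono_exponent le_top
lemma memLp_two (u : Li) : MemLp u 2 mu := (Lp.memLp u).mono_exponent le_top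
lemma integrable (u : Li) : Integrable u mu := memLp_one_iff_integrable.mp (memLp_one u)

lemma ae_norm_le (u : Li) : ∀ᵐ t ∂mu, ‖u t‖ ≤ ‖u‖ := by
  have h := ae_le_eLpNormEssSup (f := (u : UnitAddCircle → ℂ)) (μ := mu)
  filter_upwards [h] with t ht
  rw [Lp.norm_def, eLpNorm_exponent_top]
  have hfin : eLpNormEssSup (u : UnitAddCircle → ℂ) mu ≠ ⊤ := by
    have := Lp.eLpNorm_ne_top u
    rwa [eLpNorm_exponent_top] at this
  have := ENNReal.toReal_mono hfin ht
  simpa using this

lemma norm_le_of_ae {u : Li} {C : ℝ} (hC : 0 ≤ C) (h : ∀ᵐ t ∂mu, ‖u t‖ ≤ C) : ‖u‖ ≤ C := by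
  have := Lp.norm_le_of_ae_bound (f := u) (C := C) (p := ⊤) hC h
  simpa using this

/-- the integral as a functional -/
noncomputable def integ (u : Li) : ℂ := ∫ t, u t ∂mu

lemma integ_add (u v : Li) : integ (u + v) = integ u + integ v := by
  unfold integ
  rw [integral_congr_ae (coeFn_add u v), integral_add (integrable u) (integrable v)]

lemma integ_smul (c : ℂ) (u : Li) : integ (c • u) = c * integ u := by
  unfold integ
  rw [integral_congr_ae (coeFn_smul c u), integral_const_mul]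

lemma norm_integ_le (u : Li) : ‖integ u‖ ≤ ‖u‖ := by
  unfold integ
  have h := norm_integral_le_of_norm_le_const (μ := mu) (ae_norm_le u)
  simpa using h

/-- the integral as a continuous linear functional -/
noncomputable def integL : Li →L[ℂ] ℂ :=
  LinearMap.mkContinuous ⟨⟨integ, integ_add⟩, integ_smul⟩ 1 (fun u => by
    rw [one_mul]; exact norm_integ_le u)

@[simp] lemma integL_apply (u : Li) : integL u = ∫ t, u t ∂mu := rfl

/-- continuous functions as bounded functions -/
noncomputable def jj : C(UnitAddCircle, ℂ) →L[ℂ] Li := ContinuousMap.toLp ⊤ mu ℂ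

lemma coeFn_jj (g : C(UnitAddCircle, ℂ)) : ⇑(jj g) =ᵐ[mu] g := ContinuousMap.coeFn_toLp _ _

lemma jj_mul (g k : C(UnitAddCircle, ℂ)) : jj (g * k) = jj g * jj k := by
  apply Lp.ext
  filter_upwards [coeFn_mul (jj g) (jj k), coeFn_jj g, coeFn_jj k, coeFn_jj (g * k)]
    with t h1 h2 h3 h4
  rw [h1, h2, h3, h4]; rfl

lemma jj_one : jj 1 = 1 := by
  apply Lp.ext
  filter_upwards [coeFn_jj 1, coeFn_one] with t h1 h2
  rw [h1, h2]; rfl

lemma norm_jj_le (g : C(UnitAddCircle, ℂ)) : ‖jj g‖ ≤ ‖g‖ := by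
  apply norm_le_of_ae (norm_nonneg _)
  filter_upwards [coeFn_jj g] with t h
  rw [h]; exact g.norm_coe_le_norm t

/-- complex conjugation -/
noncomputable def cj (u : Li) : Li :=
  MemLp.toLp (fun t => conj (u t)) ((Lp.memLp u).star)

lemma coeFn_cj (u : Li) : ⇑(cj u) =ᵐ[mu] fun t => conj (u t) := MemLp.coeFn_toLp _

lemma cj_cj (u : Li) : cj (cj u) = u := by
  apply Lp.ext
  filter_upwards [coeFn_cj u, coeFn_cj (cj u)] with t h1 h2
  rw [h2, h1, Complex.conj_conj]

lemma cj_add (u v : Li) : cj (u + v) = cj u + cj v := by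
  apply Lp.ext
  filter_upwards [coeFn_cj (u + v), coeFn_cj u, coeFn_cj v, coeFn_add u v, coeFn_add (cj u) (cj v)]
    with t h1 h2 h3 h4 h5
  rw [h1, h5, h2, h3, h4, map_add]

lemma cj_smul (c : ℂ) (u : Li) : cj (c • u) = conj c • cj u := by
  apply Lp.ext
  filter_upwards [coeFn_cj (c • u), coeFn_cj u, coeFn_smul c u, coeFn_smul (conj c) (cj u)]
    with t h1 h2 h3 h4
  rw [h1, h4, h2, h3, map_mul]

lemma cj_mul (u v : Li) : cj (u * v) = cj u * cj v := by
  apply Lp.ext
  filter_upwards [coeFn_cj (u * v), coeFn_cj u, coeFn_cj v, coeFn_mul u v, coeFn_mul (cj u) (cj v)]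
    with t h1 h2 h3 h4 h5
  rw [h1, h5, h2, h3, h4, map_mul]

lemma norm_cj (u : Li) : ‖cj u‖ = ‖u‖ := by
  apply le_antisymm
  · apply norm_le_of_ae (norm_nonneg _)
    filter_upwards [coeFn_cj u, ae_norm_le u] with t h1 h2
    rw [h1, RCLike.norm_conj]; exact h2
  · apply norm_le_of_ae (norm_nonneg _)
    filter_upwards [coeFn_cj u, ae_norm_le (cj u)] with t h1 h2
    rw [h1, RCLike.norm_conj] at h2; exact h2



/-- Fourier monomials as bounded functions -/
noncomputable def ex (n : ℤ) : Li := jj (fourier n)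

lemma coeFn_ex (n : ℤ) : ⇑(ex n) =ᵐ[mu] fun t => fourier n t := coeFn_jj _

lemma ex_mul (m n : ℤ) : ex m * ex n = ex (m + n) := by
  unfold ex
  rw [← jj_mul]
  congr 1
  ext t
  rw [ContinuousMap.mul_apply, fourier_add]

lemma ex_zero : ex 0 = 1 := by
  unfold ex
  rw [← jj_one]
  congr 1
  ext t
  simp

lemma cj_ex (n : ℤ) : cj (ex n) = ex (-n) := by
  apply Lp.ext
  filter_upwards [coeFn_cj (ex n), coeFn_ex n, coeFn_ex (-n)] with t h1 h2 h3
  rw [h1, h2, h3, fourier_neg]

/-- Fourier coefficients -/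
noncomputable def co (n : ℤ) : Li →L[ℂ] ℂ := integL ∘L (ContinuousLinearMap.mul ℂ Li (ex (-n)))

lemma co_apply (n : ℤ) (u : Li) : co n u = ∫ t, (ex (-n) * u) t ∂mu := rfl

lemma co_def (n : ℤ) (u : Li) : co n u = integL (ex (-n) * u) := rfl

lemma co_eq (n : ℤ) (u : Li) : co n u = fourierCoeff u n := by
  rw [co_apply, fourierCoeff]
  apply integral_congr_ae
  filter_upwards [coeFn_mul (ex (-n)) u, coeFn_ex (-n)] with t h1 h2
  rw [h1, h2, smul_eq_mul]

lemma norm_ex (n : ℤ) : ‖ex n‖ ≤ 1 := by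
  have := norm_jj_le (fourier n)
  rwa [fourier_norm] at this

lemma norm_co_le (n : ℤ) (u : Li) : ‖co n u‖ ≤ ‖u‖ := by
  rw [co_def]
  calc ‖integL (ex (-n) * u)‖ ≤ ‖ex (-n) * u‖ := norm_integ_le _
    _ ≤ ‖ex (-n)‖ * ‖u‖ := norm_mul_le _ _
    _ ≤ 1 * ‖u‖ := by gcongr; exact norm_ex _
    _ = ‖u‖ := one_mul _

lemma co_ex_mul (n m : ℤ) (u : Li) : co n (ex m * u) = co (n - m) u := by
  rw [co_def, co_def, ← mul_assoc, ex_mul]
  congr 2
  ring_nf

/-- the `L²` class -/
noncomputable def two (u : Li) : Lp ℂ 2 mu := (memLp_two u).toLp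

lemma coeFn_two (u : Li) : ⇑(two u) =ᵐ[mu] u := MemLp.coeFn_toLp _

lemma two_coeff (u : Li) (n : ℤ) : inner ℂ (fourierBasis n) (two u) = co n u := by
  rw [← HilbertBasis.repr_apply_apply, fourierBasis_repr, co_eq]
  rw [fourierCoeff_congr_ae (coeFn_two u)]

lemma two_inner (u v : Li) : inner ℂ (two u) (two v) = integL (cj u * v) := by
  rw [L2.inner_def, integL_apply]
  apply integral_congr_ae
  filter_upwards [coeFn_two u, coeFn_two v, coeFn_mul (cj u) v, coeFn_cj u] with t h1 h2 h3 h4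
  rw [h1, h2, h3, h4]
  simp [mul_comm]

/-- Parseval -/
lemma hasSum_parseval (u v : Li) :
    HasSum (fun k : ℤ => conj (co k u) * co k v) (integL (cj u * v)) := by
  have h := fourierBasis.hasSum_inner_mul_inner (two u) (two v)
  rw [two_inner] at h
  convert! h using 1
  ext k
  rw [two_coeff, ← inner_conj_symm, two_coeff]

lemma integL_cj (u : Li) : integL (cj u) = conj (integL u) := by
  rw [integL_apply, integL_apply, ← integral_conj]
  exact integral_congr_ae (coeFn_cj u)

lemma co_cj (n : ℤ) (u : Li) : co n (cj u) = conj (co (-n) u) := by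
  rw [co_def, co_def, ← integL_cj, cj_mul, cj_ex, neg_neg]

/-- convolution formula -/
lemma hasSum_mul (n : ℤ) (u v : Li) :
    HasSum (fun k : ℤ => co k u * co (n - k) v) (co n (u * v)) := by
  have h := hasSum_parseval (cj v * ex n) u
  have e1 : cj (cj v * ex n) * u = ex (-n) * (u * v) := by
    rw [cj_mul, cj_cj, cj_ex]; ring
  rw [e1, ← co_def] at h
  convert! h using 1
  ext k
  have e2 : co k (cj v * ex n) = conj (co (n - k) v) := by
    rw [mul_comm, co_ex_mul, co_cj, neg_sub]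
  rw [e2, Complex.conj_conj, mul_comm]

lemma co_mul_eq_zero (n : ℤ) (u v : Li) (h : ∀ k : ℤ, co k u = 0 ∨ co (n - k) v = 0) :
    co n (u * v) = 0 := by
  have h1 := hasSum_mul n u v
  have h2 : (fun k : ℤ => co k u * co (n - k) v) = fun _ => 0 := by
    ext k
    rcases h k with h | h <;> simp [h]
  rw [h2] at h1
  exact h1.unique hasSum_zero

lemma eq_zero_of_co {u : Li} (h : ∀ n, co n u = 0) : u = 0 := by
  have h1 : two u = 0 := by
    apply fourierBasis.repr.injective
    rw [map_zero]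
    ext i
    have := two_coeff u i
    rw [← HilbertBasis.repr_apply_apply, h i] at this
    rw [this]; rfl
  apply Lp.ext
  filter_upwards [coeFn_two u, Lp.coeFn_zero ℂ 2 mu, Lp.coeFn_zero ℂ ⊤ mu] with t h2 h3 h4
  rw [← h2, h1, h3, h4]

lemma ext_co {u v : Li} (h : ∀ n, co n u = co n v) : u = v := by
  rw [← sub_eq_zero]
  apply eq_zero_of_co
  intro n
  rw [map_sub, h n, sub_self]

/-- `H^∞` -/
noncomputable def Hi : Submodule ℂ Li where
  carrier := {u | ∀ n : ℤ, n < 0 → co n u = 0}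
  add_mem' := fun {u v} hu hv n hn => by rw [map_add, hu n hn, hv n hn, add_zero]
  zero_mem' := fun n _ => map_zero _
  smul_mem' := fun c u hu n hn => by rw [map_smul, hu n hn, smul_zero]

lemma mem_Hi {u : Li} : u ∈ Hi ↔ ∀ n : ℤ, n < 0 → co n u = 0 := Iff.rfl

lemma isClosed_Hi : IsClosed (Hi : Set Li) := by
  have : (Hi : Set Li) = ⋂ n : ℤ, ⋂ _ : n < 0, {u | co n u = 0} := by
    ext u; simp [mem_Hi]
  rw [this]
  exact isClosed_iInter fun n => isClosed_iInter fun _ =>
    isClosed_eq (co n).continuous continuous_const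

instance : CompleteSpace Hi := isClosed_Hi.completeSpace_coe

lemma mul_mem_Hi {u v : Li} (hu : u ∈ Hi) (hv : v ∈ Hi) : u * v ∈ Hi := by
  intro n hn
  apply co_mul_eq_zero
  intro k
  by_cases hk : k < 0
  · exact Or.inl (hu k hk)
  · exact Or.inr (hv (n - k) (by omega))

/-- the functions with strictly negative spectrum -/
noncomputable def Hm : Submodule ℂ Li where
  carrier := {u | ∀ n : ℤ, 0 ≤ n → co n u = 0}
  add_mem' := fun {u v} hu hv n hn => by rw [map_add, hu n hn, hv n hn, add_zero]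
  zero_mem' := fun n _ => map_zero _
  smul_mem' := fun c u hu n hn => by rw [map_smul, hu n hn, smul_zero]

lemma mem_Hm {u : Li} : u ∈ Hm ↔ ∀ n : ℤ, 0 ≤ n → co n u = 0 := Iff.rfl

/-- the functions with nonpositive spectrum -/
noncomputable def Hn : Submodule ℂ Li where
  carrier := {u | ∀ n : ℤ, 0 < n → co n u = 0}
  add_mem' := fun {u v} hu hv n hn => by rw [map_add, hu n hn, hv n hn, add_zero]
  zero_mem' := fun n _ => map_zero _
  smul_mem' := fun c u hu n hn => by rw [map_smul, hu n hn, smul_zero]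

lemma mem_Hn {u : Li} : u ∈ Hn ↔ ∀ n : ℤ, 0 < n → co n u = 0 := Iff.rfl

lemma Hm_le_Hn : Hm ≤ Hn := fun _ hu n hn => hu n hn.le

lemma mul_mem_Hm {u v : Li} (hu : u ∈ Hn) (hv : v ∈ Hm) : u * v ∈ Hm := by
  intro n hn
  apply co_mul_eq_zero
  intro k
  by_cases hk : 0 < k
  · exact Or.inl (hu k hk)
  · exact Or.inr (hv (n - k) (by omega))

lemma mul_mem_Hn {u v : Li} (hu : u ∈ Hn) (hv : v ∈ Hn) : u * v ∈ Hn := by
  intro n hn
  apply co_mul_eq_zero
  intro k
  by_cases hk : 0 < k
  · exact Or.inl (hu k hk)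
  · exact Or.inr (hv (n - k) (by omega))

lemma isClosed_Hn : IsClosed (Hn : Set Li) := by
  have : (Hn : Set Li) = ⋂ n : ℤ, ⋂ _ : 0 < n, {u | co n u = 0} := by
    ext u; simp [mem_Hn]
  rw [this]
  exact isClosed_iInter fun n => isClosed_iInter fun _ =>
    isClosed_eq (co n).continuous continuous_const

lemma integL_one : integL (1 : Li) = 1 := by
  rw [integL_apply, integral_congr_ae coeFn_one]
  simp

lemma co_ex (n m : ℤ) : co n (ex m) = if n = m then 1 else 0 := by
  rw [co_eq, fourierCoeff_congr_ae (coeFn_ex m)]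
  have := fourierCoeff_fourier (T := (1 : ℝ)) m
  rw [show (fun t : UnitAddCircle => fourier m t) = ⇑(fourier m) from rfl, this]
  simp [Pi.single_apply]

lemma ex_mem_Hi {n : ℤ} (hn : 0 ≤ n) : ex n ∈ Hi := by
  intro k hk
  rw [co_ex, if_neg (by omega)]

lemma one_mem_Hi : (1 : Li) ∈ Hi := by
  rw [← ex_zero]; exact ex_mem_Hi le_rfl

lemma Hi_inter_Hm {u : Li} (h1 : u ∈ Hi) (h2 : u ∈ Hm) : u = 0 := by
  apply eq_zero_of_co
  intro n
  rcases lt_or_ge n 0 with h | h
  · exact h1 n h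
  · exact h2 n h

lemma cj_mem_Hi {u : Li} (hu : u ∈ Hn) : cj u ∈ Hi := by
  intro n hn
  rw [co_cj, hu (-n) (by omega), map_zero]

lemma cj_mem_Hn {u : Li} (hu : u ∈ Hi) : cj u ∈ Hn := by
  intro n hn
  rw [co_cj, hu (-n) (by omega), map_zero]

end Pool.Agent.Helper406.Toep
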