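import Pool.Agent.Helper406.ToepHardy

open MeasureTheory AddCircle Filter Topology
open scoped ComplexConjugate ENNReal

namespace Pool.Agent.Helper406.Toep

open Hardy

abbrev TL : Type := HL.TT

lemma continuous_sy : Continuous HL.sy :=
  AddMonoidHomClass.continuous_of_bound HL.sy 1 (fun f => by rw [one_mul]; exact norm_sy_le f)

/-- element of the algebra with a given symbol -/
noncomputable def mk (f : Li) (hf : f ∈ HL.TTs) : TL := ⟨f, hf⟩

@[simp] lemma sy_mk (f : Li) (hf : f ∈ HL.TTs) : HL.sy (mk f hf) = f := rfl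

lemma ext_sy {x y : TL} (h : HL.sy x = HL.sy y) : x = y := sy_injective h

lemma Top_ev (x : TL) (F : Hi) {w : ℂ} (hw : ‖w‖ < 1) :
    ev w (HL.sy x * (F : Li)) = ev w ((Top x F : HL.P) : Li) :=
  ev_congr' hw (isT_Top x F)

lemma map_exp' {A B : Type} [NormedCommRing A] [NormedAlgebra ℂ A] [CompleteSpace A]
    [NormedCommRing B] [NormedAlgebra ℂ B] (f : A →ₐ[ℂ] B) (hf : Continuous f) (x : A) :
    f (NormedSpace.exp x) = NormedSpace.exp (f x) :=
  NormedSpace.map_exp_of_mem_ball (𝕂 := ℂ) f hf x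
    ((NormedSpace.expSeries_radius_eq_top ℂ A).symm ▸ edist_lt_top _ _)

lemma exp_add' {A : Type} [NormedCommRing A] [NormedAlgebra ℂ A] [CompleteSpace A] (x y : A) :
    NormedSpace.exp (x + y) = NormedSpace.exp x * NormedSpace.exp y := by
  let _ : NormedAlgebra ℚ A := NormedAlgebra.restrictScalars ℚ ℂ A
  exact NormedSpace.exp_add

lemma exp_neg_mul' {A : Type} [NormedCommRing A] [NormedAlgebra ℂ A] [CompleteSpace A] (x : A) :
    NormedSpace.exp (-x) * NormedSpace.exp x = 1 := by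
  rw [← exp_add', neg_add_cancel, NormedSpace.exp_zero]

lemma sy_exp (x : TL) : HL.sy (NormedSpace.exp x) = NormedSpace.exp (HL.sy x) :=
  map_exp' HL.sy continuous_sy x

/-- polynomial growth -/
lemma norm_exp_le {h : Li} (hh : h ∈ Hi) (k : TL) (hk : HL.sy k = cj h) (x : TL)
    (hx : HL.sy x = h + cj h) :
    ∃ C : ℝ, ∀ s : ℝ, ‖NormedSpace.exp ((Complex.I * s) • x)‖ ≤ C * (1 + |s| + s ^ 2) := by
  set A : ℝ := ‖Top k‖ with hA
  have hA0 : 0 ≤ A := norm_nonneg (Top k)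
  have hAb : ∀ w : ℂ, ‖w‖ < 1 → ∀ F ∈ Hi, ‖ev w (cj h * F)‖ ≤ A * ‖F‖ := by
    intro w hw F hF
    have h1 := Top_ev k ⟨F, hF⟩ hw
    rw [hk] at h1
    have h2 : ev w (cj h * F) = ev w ((Top k ⟨F, hF⟩ : HL.P) : Li) := h1
    rw [h2]
    refine (norm_ev_le hw (Top k ⟨F, hF⟩).2).trans ?_
    exact (Top k).le_opNorm ⟨F, hF⟩
  set B : ℝ := 3 + 2 * (A + ‖h‖) + (128 * A * ‖h‖ + 16 * A * (A + ‖h‖)) with hB
  have hn := norm_nonneg h
  refine ⟨3 * B, fun s => ?_⟩
  set e : TL := NormedSpace.exp ((Complex.I * s) • x) with he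
  have hsy : HL.sy e = NormedSpace.exp ((Complex.I * s) • (h + cj h)) := by
    rw [he, sy_exp, map_smul, hx]
  have hv : ∀ᵐ t ∂mu, HL.sy e t = Complex.exp (Complex.I * s * (h t + conj (h t))) := by
    rw [hsy]
    filter_upwards [coeFn_exp ((Complex.I * s) • (h + cj h)), coeFn_smul (Complex.I * s) (h + cj h),
      coeFn_add h (cj h), coeFn_cj h] with t h1 h2 h3 h4
    rw [h1, h2, h3, h4]
  have hC1 : 3 + 2 * |s| * (A + ‖h‖) + s ^ 2 * (128 * A * ‖h‖ + 16 * A * (A + ‖h‖)) ≤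
      B * (1 + |s| + s ^ 2) := by
    have hs := abs_nonneg s
    have hs2 := sq_nonneg s
    have p1 : 0 ≤ A + ‖h‖ := by positivity
    have p2 : 0 ≤ 128 * A * ‖h‖ + 16 * A * (A + ‖h‖) := by positivity
    rw [hB]
    nlinarith [mul_nonneg p1 hs, mul_nonneg p1 hs2, mul_nonneg p2 hs, mul_nonneg p2 hs2]
  have hpos : 1 ≤ B * (1 + |s| + s ^ 2) := by
    refine le_trans ?_ hC1
    have hs := abs_nonneg s
    have : 0 ≤ 2 * |s| * (A + ‖h‖) := by positivity
    have : 0 ≤ s ^ 2 * (128 * A * ‖h‖ + 16 * A * (A + ‖h‖)) := by positivity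
    linarith
  have h1 : ‖HL.sy e‖ ≤ B * (1 + |s| + s ^ 2) := by
    refine le_trans ?_ hpos
    apply norm_le_of_ae zero_le_one
    filter_upwards [hv] with t ht
    rw [ht, Complex.add_conj, Complex.norm_exp]
    simp
  have h2 : ‖Top e‖ ≤ B * (1 + |s| + s ^ 2) := by
    apply ContinuousLinearMap.opNorm_le_bound _ (by linarith)
    intro F
    apply norm_le_of_ev (Top e F).2
    intro w hw
    rw [← Top_ev e F hw]
    refine (main_estimate hw hh hA0 hAb s hv F.2).trans ?_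
    exact mul_le_mul_of_nonneg_right hC1 (norm_nonneg _)
  rw [norm_TT]
  apply max_le <;> linarith

lemma im_eq_zero_of_growth {z : ℂ} {C : ℝ}
    (h : ∀ s : ℝ, ‖Complex.exp (Complex.I * s * z)‖ ≤ C * (1 + |s| + s ^ 2)) : z.im = 0 := by
  have h1 : ∀ s : ℝ, Real.exp (-(s * z.im)) ≤ C * (1 + |s| + s ^ 2) := by
    intro s
    have := h s
    rw [Complex.norm_exp] at this
    convert this using 2
    simp
  by_contra hne
  have h2 : ∀ y : ℝ, 0 ≤ y → Real.exp y ≤ C * (1 + y / |z.im| + (y / |z.im|) ^ 2) := by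
    intro y hy
    have h3 := h1 (-y / z.im)
    have e1 : -(-y / z.im * z.im) = y := by field_simp
    rw [e1] at h3
    rw [abs_div, abs_neg, abs_of_nonneg hy] at h3
    have e2 : (-y / z.im) ^ 2 = (y / |z.im|) ^ 2 := by
      rw [div_pow, div_pow, sq_abs, neg_sq]
    rwa [e2] at h3
  set b := |z.im| with hb
  have hb0 : 0 < b := abs_pos.mpr hne
  have hC : 0 ≤ C := by
    have := h2 0 le_rfl
    simp at this
    linarith
  -- choose y large
  have h4 : ∀ y : ℝ, 1 ≤ y → y ^ 3 / 6 ≤ (C * (1 + 1 / b + 1 / b ^ 2)) * y ^ 2 := by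
    intro y hy
    have hy0 : 0 ≤ y := by linarith
    have h5 : y ^ 3 / (Nat.factorial 3 : ℝ) ≤ Real.exp y := Real.pow_div_factorial_le_exp y hy0 3
    have h6 : ((Nat.factorial 3 : ℕ) : ℝ) = 6 := by norm_num [Nat.factorial]
    rw [h6] at h5
    refine h5.trans ((h2 y hy0).trans ?_)
    rw [mul_assoc]
    apply mul_le_mul_of_nonneg_left _ hC
    have h7 : 1 ≤ y ^ 2 := by nlinarith
    have h8 : y / b ≤ 1 / b * y ^ 2 := by
      rw [div_eq_inv_mul, one_div]
      have h0 : 0 ≤ b⁻¹ := by positivity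
      have h01 : y ≤ y ^ 2 := by nlinarith
      exact mul_le_mul_of_nonneg_left h01 h0
    have h9 : (y / b) ^ 2 = 1 / b ^ 2 * y ^ 2 := by
      field_simp
    rw [h9]
    nlinarith
  set K := C * (1 + 1 / b + 1 / b ^ 2) with hK
  have hK0 : 0 ≤ K := by positivity
  have h5 := h4 (6 * K + 1) (by linarith)
  have h6 : 0 < (6 * K + 1) ^ 2 := by positivity
  nlinarith

/-- characters are real on `h + h̄` -/
lemma char_im {h : Li} (hh : h ∈ Hi) (k : TL) (hk : HL.sy k = cj h) (x : TL)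
    (hx : HL.sy x = h + cj h) (χ : TL →ₐ[ℂ] ℂ) : (χ x).im = 0 := by
  obtain ⟨C, hC⟩ := norm_exp_le hh k hk x hx
  apply im_eq_zero_of_growth (C := C * ‖(1 : TL)‖)
  intro s
  have h1 : χ (NormedSpace.exp ((Complex.I * s) • x)) = Complex.exp (Complex.I * s * χ x) := by
    have := map_exp' χ (χ.toContinuousLinearMap.continuous) ((Complex.I * s) • x)
    rw [this, map_smul, smul_eq_mul, Complex.exp_eq_exp_ℂ]
  rw [← h1]
  refine (AlgHom.norm_apply_le_self_mul_norm_one χ _).trans ?_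
  have := hC s
  have h2 := norm_nonneg (1 : TL)
  calc _ ≤ C * (1 + |s| + s ^ 2) * ‖(1 : TL)‖ := mul_le_mul_of_nonneg_right this h2
    _ = _ := by ring

end Pool.Agent.Helper406.Toep
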