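import Pool.Agent.Helper406.ToepPath

open MeasureTheory AddCircle Filter Topology
open scoped ComplexConjugate ENNReal

namespace Pool.Agent.Helper406.Toep

section VE

variable {ζ : ℂ} (hζ : ‖ζ‖ < 1) {h : Li} (hh : h ∈ Hi) {A : ℝ}
  (hA : ∀ F ∈ Hi, ‖ev ζ (cj h * F)‖ ≤ A * ‖F‖)

/-- test kernels -/
noncomputable def Fr (ζ : ℂ) (r : ℝ) : CC := (zz - ζ • 1) * (star (KK (r * ζ)) * star (KK (r * ζ)))

lemma jj_zz_sub_mem (ζ : ℂ) : jj (zz - ζ • 1) ∈ Hi := by
  rw [map_sub, map_smul, jj_one, jj_zz]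
  exact Hi.sub_mem (ex_mem_Hi (by norm_num)) (Hi.smul_mem _ one_mem_Hi)

include hζ in
lemma Fr_mem {r : ℝ} (hr : r ∈ Set.uIcc (0 : ℝ) 1) : jj (Fr ζ r) ∈ Hi := by
  unfold Fr
  rw [jj_mul, jj_mul]
  have := jj_star_KK_mem (norm_path hζ hr)
  exact mul_mem_Hi (jj_zz_sub_mem ζ) (mul_mem_Hi this this)

lemma Fr_norm (r : ℝ) (t : UnitAddCircle) : ‖Fr ζ r t‖ = ‖zz t - ζ‖ * ‖KK (r * ζ) t‖ ^ 2 := by
  simp only [Fr, ContinuousMap.mul_apply, ContinuousMap.sub_apply, ContinuousMap.smul_apply,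
    ContinuousMap.one_apply, ContinuousMap.star_apply, norm_mul, norm_star, smul_eq_mul, mul_one]
  ring

include hζ in
/-- cancellation of the outer kernel -/
lemma ev_cancel (h : Li) (B : Li) :
    ev ζ (cj h * (jj (zz - ζ • 1) * B)) = integL (ex 1 * B * cj h) := by
  rw [ev_def]
  have e : jj (KK ζ) * (cj h * (jj (zz - ζ • 1) * B)) = jj (KK ζ * (zz - ζ • 1)) * B * cj h := by
    rw [jj_mul]; ring
  rw [e, KK_sub hζ, jj_zz]

include hζ in
lemma ev_Fr (r : ℝ) (h : Li) : ev ζ (cj h * jj (Fr ζ r)) = conj (dv (r * ζ) h) := by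
  unfold Fr
  rw [jj_mul, ev_cancel hζ, dv_def, ← integL_cj, cj_mul, ← star_eq_cj]
  congr 1
  rw [← jj_zz, ← jj_mul]
  congr 2
  have : star zb = zz := by
    ext t; simp [zb_apply]
  rw [star_mul, star_mul, this]
  ring

include hζ hA in
/-- the radial variation is bounded -/
lemma variation_le : ∫ r in (0 : ℝ)..1, ‖dv (r * ζ) h‖ ≤ 8 * A := by
  have hA0 : 0 ≤ A := by
    have h1 := hA 1 one_mem_Hi
    by_contra hc
    push Not at hc
    have h2 : ‖(1 : Li)‖ ≠ 0 := by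
      rw [norm_ne_zero_iff]
      intro h0
      have := ev_one hζ
      rw [h0, map_zero] at this
      exact zero_ne_one this
    have h3 : 0 < ‖(1 : Li)‖ := lt_of_le_of_ne (norm_nonneg _) h2.symm
    have h4 := norm_nonneg (ev ζ (cj h * 1))
    nlinarith
  apply le_of_forall_pos_le_add
  intro ε hε
  set d : ℝ → ℂ := fun r => dv (r * ζ) h with hd
  have hdc : ContinuousOn d (Set.uIcc (0 : ℝ) 1) := continuousOn_dv hζ h
  set σ : ℝ → ℂ := fun r => d r / ((‖d r‖ + ε : ℝ) : ℂ) with hσ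
  have hpos : ∀ r, 0 < ‖d r‖ + ε := fun r => by positivity
  have hσc : ContinuousOn σ (Set.uIcc (0 : ℝ) 1) := by
    apply ContinuousOn.div hdc
    · exact Complex.continuous_ofReal.comp_continuousOn (hdc.norm.add continuousOn_const)
    · intro r _
      exact_mod_cast (hpos r).ne'
  have hσb : ∀ r ∈ Set.uIcc (0 : ℝ) 1, ‖σ r‖ ≤ 1 := by
    intro r _
    rw [hσ]
    simp only [norm_div, Complex.norm_real, Real.norm_of_nonneg (hpos r).le]
    rw [div_le_one (hpos r)]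
    linarith
  have hFc : ContinuousOn (Fr ζ) (Set.uIcc (0 : ℝ) 1) :=
    continuousOn_const.mul ((continuousOn_star_KK hζ).mul (continuousOn_star_KK hζ))
  have hint : IntervalIntegrable (fun r => σ r • Fr ζ r) volume 0 1 :=
    (hσc.smul hFc).intervalIntegrable
  set Φ : CC := ∫ r in (0 : ℝ)..1, σ r • Fr ζ r with hΦ
  have hΦn : ‖Φ‖ ≤ 8 * 1 :=
    norm_average_le hζ hFc (fun r _ t => Fr_norm r t) hσc zero_le_one hσb
  have hΦm : jj Φ ∈ Hi := by
    apply jj_mem_of_integral hint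
    intro r hr
    rw [map_smul]
    exact Hi.smul_mem _ (Fr_mem hζ hr)
  have h1 := hA _ hΦm
  have h2 : ev ζ (cj h * jj Φ) = ∫ r in (0 : ℝ)..1, σ r * conj (d r) := by
    have h3 := ((ev ζ) ∘L (ContinuousLinearMap.mul ℂ Li (cj h)) ∘L jj).intervalIntegral_comp_comm hint
    have h4 : ev ζ (cj h * jj Φ) = ∫ r in (0 : ℝ)..1, ev ζ (cj h * jj (σ r • Fr ζ r)) := h3.symm
    rw [h4]
    apply intervalIntegral.integral_congr
    intro r _
    show ev ζ (cj h * jj (σ r • Fr ζ r)) = σ r * conj (d r)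
    rw [map_smul, mul_smul_comm, map_smul, ev_Fr hζ, smul_eq_mul]
  have h5 : ∫ r in (0 : ℝ)..1, σ r * conj (d r) =
      ((∫ r in (0 : ℝ)..1, ‖d r‖ ^ 2 / (‖d r‖ + ε) : ℝ) : ℂ) := by
    rw [← intervalIntegral.integral_ofReal]
    apply intervalIntegral.integral_congr
    intro r _
    show d r / ((‖d r‖ + ε : ℝ) : ℂ) * conj (d r) = ((‖d r‖ ^ 2 / (‖d r‖ + ε) : ℝ) : ℂ)
    rw [div_mul_eq_mul_div, RCLike.mul_conj]
    push_cast
    rfl
  rw [h2, h5, Complex.norm_real] at h1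
  have h6 : ∫ r in (0 : ℝ)..1, (‖d r‖ - ε) ≤ ∫ r in (0 : ℝ)..1, ‖d r‖ ^ 2 / (‖d r‖ + ε) := by
    apply intervalIntegral.integral_mono_on zero_le_one
    · exact (hdc.norm.sub continuousOn_const).intervalIntegrable
    · apply ContinuousOn.intervalIntegrable
      apply ContinuousOn.div (hdc.norm.pow 2) (hdc.norm.add continuousOn_const)
      intro r _
      exact (hpos r).ne'
    · intro r _
      rw [le_div_iff₀ (hpos r)]
      nlinarith
  rw [intervalIntegral.integral_sub hdc.norm.intervalIntegrable (by simp)] at h6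
  simp only [intervalIntegral.integral_const, sub_zero, one_smul] at h6
  have h7 : ‖jj Φ‖ ≤ 8 := (norm_jj_le Φ).trans (by linarith)
  have h8 : A * ‖jj Φ‖ ≤ A * 8 := mul_le_mul_of_nonneg_left h7 hA0
  have h9 := le_abs_self (∫ r in (0 : ℝ)..1, ‖d r‖ ^ 2 / (‖d r‖ + ε))
  rw [Real.norm_eq_abs] at h1
  linarith


/-- second test kernel -/
noncomputable def Ar (ζ : ℂ) (r : ℝ) : CC := (zz - ζ • 1) * (star (KK (r * ζ)) * (zb * KK (r * ζ)))

lemma norm_zb_apply (t : UnitAddCircle) : ‖zb t‖ = 1 := by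
  rw [zb_apply, RCLike.norm_conj, norm_zz_apply]

lemma Ar_norm (r : ℝ) (t : UnitAddCircle) : ‖Ar ζ r t‖ = ‖zz t - ζ‖ * ‖KK (r * ζ) t‖ ^ 2 := by
  simp only [Ar, ContinuousMap.mul_apply, ContinuousMap.sub_apply, ContinuousMap.smul_apply,
    ContinuousMap.one_apply, ContinuousMap.star_apply, norm_mul, norm_star, smul_eq_mul, mul_one,
    norm_zb_apply, one_mul]
  ring

/-- the energy at `r` -/
noncomputable def en (ζ : ℂ) (h : Li) (r : ℝ) : ℝ :=
  ∫ t, ‖h t - ev (r * ζ) h‖ ^ 2 * ‖KK (r * ζ) t‖ ^ 2 ∂mu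

/-- second test function -/
noncomputable def Gr (ζ : ℂ) (h : Li) (r : ℝ) : Li := jj (Ar ζ r) * (h - ev (r * ζ) h • 1)

lemma Gr_eq (r : ℝ) (h : Li) :
    Gr ζ h r = jj (zz - ζ • 1) * (jj (star (KK (r * ζ))) * dq (r * ζ) h) := by
  unfold Gr Ar dq
  rw [jj_mul, jj_mul, jj_mul, jj_zb]
  ring

include hζ hh in
lemma Gr_mem {r : ℝ} (hr : r ∈ Set.uIcc (0 : ℝ) 1) : Gr ζ h r ∈ Hi := by
  rw [Gr_eq]
  exact mul_mem_Hi (jj_zz_sub_mem ζ)
    (mul_mem_Hi (jj_star_KK_mem (norm_path hζ hr)) (dq_mem (norm_path hζ hr) hh))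

lemma coeFn_star_mul (w : ℂ) (u : Li) :
    ⇑(jj (star (KK w) * KK w) * u) =ᵐ[mu] fun t => ((‖KK w t‖ ^ 2 : ℝ) : ℂ) * u t := by
  filter_upwards [coeFn_mul (jj (star (KK w) * KK w)) u, coeFn_jj (star (KK w) * KK w)]
    with t h1 h2
  rw [h1, h2]
  congr 1
  simp only [ContinuousMap.mul_apply, ContinuousMap.star_apply]
  rw [mul_comm]
  have := RCLike.mul_conj (KK w t)
  push_cast
  exact this

lemma integL_poisson_zero {w : ℂ} (hw : ‖w‖ < 1) {u : Li} (hu : u ∈ Hi) (h0 : ev w u = 0) :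
    integL (jj (star (KK w) * KK w) * u) = 0 := by
  have h1 := ev_poisson hw hu
  rw [h0] at h1
  have h2 : ∫ t, (((1 - ‖w‖ ^ 2) * ‖KK w t‖ ^ 2 : ℝ) : ℂ) * u t ∂mu =
      ((1 - ‖w‖ ^ 2 : ℝ) : ℂ) * integL (jj (star (KK w) * KK w) * u) := by
    rw [integL_apply, ← integral_const_mul]
    apply integral_congr_ae
    filter_upwards [coeFn_star_mul w u] with t h3
    rw [h3]
    push_cast
    ring
  rw [h2] at h1
  have h4 : ((1 - ‖w‖ ^ 2 : ℝ) : ℂ) ≠ 0 := by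
    have : 0 < 1 - ‖w‖ ^ 2 := by nlinarith [norm_nonneg w]
    exact_mod_cast this.ne'
  exact (mul_eq_zero.mp h1.symm).resolve_left h4

include hζ hh in
lemma ev_Gr {r : ℝ} (hr : r ∈ Set.uIcc (0 : ℝ) 1) :
    ev ζ (cj h * Gr ζ h r) = ((en ζ h r : ℝ) : ℂ) := by
  set w : ℂ := r * ζ with hw
  have hw1 : ‖w‖ < 1 := norm_path hζ hr
  set c := ev w h with hc
  have hu : h - c • (1 : Li) ∈ Hi := Hi.sub_mem hh (Hi.smul_mem _ one_mem_Hi)
  have hu0 : ev w (h - c • (1 : Li)) = 0 := by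
    rw [map_sub, map_smul, ev_one hw1]; simp [hc]
  have h0 := integL_poisson_zero hw1 hu hu0
  rw [Gr_eq, ev_cancel hζ]
  have e1 : ex 1 * (jj (star (KK (r * ζ))) * dq (r * ζ) h) * cj h =
      jj (star (KK w) * KK w) * (h - c • 1) * cj (h - c • 1) +
        conj c • (jj (star (KK w) * KK w) * (h - c • 1)) := by
    have e2 : ex 1 * ex (-1) = 1 := by rw [ex_mul]; simp [ex_zero]
    have e3 : cj (h - c • (1 : Li)) = cj h - conj c • 1 := by
      rw [sub_eq_add_neg, cj_add, ← neg_one_smul ℂ, cj_smul, cj_smul]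
      have : cj (1 : Li) = 1 := by
        rw [← ex_zero, cj_ex, neg_zero]
      rw [this]
      simp [sub_eq_add_neg]
    rw [e3, jj_mul]
    unfold dq
    rw [← hw, ← hc]
    calc ex 1 * (jj (star (KK w)) * (ex (-1) * (jj (KK w) * (h - c • 1)))) * cj h
        = (ex 1 * ex (-1)) * (jj (star (KK w)) * jj (KK w) * (h - c • 1) * cj h) := by ring
      _ = jj (star (KK w)) * jj (KK w) * (h - c • 1) * cj h := by rw [e2, one_mul]
      _ = _ := by
        rw [mul_sub (jj (star (KK w)) * jj (KK w) * (h - c • 1)), mul_smul_comm, mul_one]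
        abel
  rw [e1, map_add, map_smul, h0, smul_zero, add_zero, integL_apply]
  unfold en
  rw [← integral_complex_ofReal]
  apply integral_congr_ae
  filter_upwards [coeFn_mul (jj (star (KK w) * KK w) * (h - c • 1)) (cj (h - c • 1)),
    coeFn_star_mul w (h - c • 1), coeFn_cj (h - c • 1), coeFn_sub h (c • 1), coeFn_smul c 1,
    coeFn_one] with t h1 h2 h3 h4 h5 h6
  rw [h1, h2, h3, h4, h5, h6, mul_one, mul_assoc, RCLike.mul_conj]
  push_cast
  rw [mul_comm]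
  rfl

include hζ in
/-- the average of `Gr` -/
lemma exists_average (h : Li) (hh : h ∈ Hi) : ∃ Ψ : Li, Ψ ∈ Hi ∧ ‖Ψ‖ ≤ 16 * ‖h‖ ∧
    ∀ l : Li →L[ℂ] ℂ, IntervalIntegrable (fun r => l (Gr ζ h r)) volume 0 1 ∧
      l Ψ = ∫ r in (0 : ℝ)..1, l (Gr ζ h r) := by
  have hAc : ContinuousOn (Ar ζ) (Set.uIcc (0 : ℝ) 1) :=
    continuousOn_const.mul ((continuousOn_star_KK hζ).mul
      (continuousOn_const.mul (continuousOn_KK hζ)))
  set τ : ℝ → ℂ := fun r => ev (r * ζ) h with hτ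
  have hτc : ContinuousOn τ (Set.uIcc (0 : ℝ) 1) := continuousOn_ev hζ h
  have hτb : ∀ r ∈ Set.uIcc (0 : ℝ) 1, ‖τ r‖ ≤ ‖h‖ := fun r hr =>
    norm_ev_le (norm_path hζ hr) hh
  have hint1 : IntervalIntegrable (fun r => (1 : ℂ) • Ar ζ r) volume 0 1 :=
    (hAc.const_smul (1 : ℂ)).intervalIntegrable
  have hint2 : IntervalIntegrable (fun r => τ r • Ar ζ r) volume 0 1 :=
    (hτc.smul hAc).intervalIntegrable
  set a : CC := ∫ r in (0 : ℝ)..1, (1 : ℂ) • Ar ζ r with ha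
  set b : CC := ∫ r in (0 : ℝ)..1, τ r • Ar ζ r with hb
  have han : ‖a‖ ≤ 8 * 1 := norm_average_le hζ hAc (fun r _ t => Ar_norm r t)
    continuousOn_const zero_le_one (fun r _ => by simp)
  have hbn : ‖b‖ ≤ 8 * ‖h‖ := norm_average_le hζ hAc (fun r _ t => Ar_norm r t)
    hτc (norm_nonneg _) hτb
  have hG : ∀ r, Gr ζ h r = h * jj ((1 : ℂ) • Ar ζ r) - jj (τ r • Ar ζ r) := by
    intro r
    unfold Gr
    rw [one_smul, map_smul, mul_sub, mul_smul_comm, mul_one, mul_comm h]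
  have key : ∀ l : Li →L[ℂ] ℂ, IntervalIntegrable (fun r => l (Gr ζ h r)) volume 0 1 ∧
      l (h * jj a - jj b) = ∫ r in (0 : ℝ)..1, l (Gr ζ h r) := by
    intro l
    have i1 := (l ∘L (ContinuousLinearMap.mul ℂ Li h) ∘L jj).intervalIntegral_comp_comm hint1
    have i2 := (l ∘L jj).intervalIntegral_comp_comm hint2
    have j1 : l (h * jj a) = ∫ r in (0 : ℝ)..1, l (h * jj ((1 : ℂ) • Ar ζ r)) := i1.symm
    have j2 : l (jj b) = ∫ r in (0 : ℝ)..1, l (jj (τ r • Ar ζ r)) := i2.symm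
    have c1 : ContinuousOn (fun r => (1 : ℂ) • Ar ζ r) (Set.uIcc (0 : ℝ) 1) := hAc.const_smul (1 : ℂ)
    have c2 : ContinuousOn (fun r => τ r • Ar ζ r) (Set.uIcc (0 : ℝ) 1) := hτc.smul hAc
    have k1 : IntervalIntegrable (fun r => l (h * jj ((1 : ℂ) • Ar ζ r))) volume 0 1 := by
      apply ContinuousOn.intervalIntegrable
      exact l.continuous.comp_continuousOn
        (continuousOn_const.mul (jj.continuous.comp_continuousOn c1))
    have k2 : IntervalIntegrable (fun r => l (jj (τ r • Ar ζ r))) volume 0 1 := by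
      apply ContinuousOn.intervalIntegrable
      exact l.continuous.comp_continuousOn (jj.continuous.comp_continuousOn c2)
    have e : (fun r => l (Gr ζ h r)) =
        fun r => l (h * jj ((1 : ℂ) • Ar ζ r)) - l (jj (τ r • Ar ζ r)) := by
      ext r; rw [hG r, map_sub]
    rw [e]
    refine ⟨k1.sub k2, ?_⟩
    rw [map_sub, j1, j2, intervalIntegral.integral_sub k1 k2]
  refine ⟨h * jj a - jj b, ?_, ?_, key⟩
  · intro n hn
    rw [(key (co n)).2]
    have : ∫ r in (0 : ℝ)..1, co n (Gr ζ h r) = ∫ r in (0 : ℝ)..1, (0 : ℂ) := by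
      apply intervalIntegral.integral_congr
      intro r hr
      exact Gr_mem hζ hh hr n hn
    rw [this]; simp
  · calc ‖h * jj a - jj b‖ ≤ ‖h * jj a‖ + ‖jj b‖ := norm_sub_le _ _
      _ ≤ ‖h‖ * ‖jj a‖ + ‖jj b‖ := by gcongr; exact norm_mul_le _ _
      _ ≤ ‖h‖ * 8 + 8 * ‖h‖ := by
        gcongr
        · exact (norm_jj_le a).trans (by linarith)
        · exact (norm_jj_le b).trans hbn
      _ = 16 * ‖h‖ := by ring

include hζ hh hA in
lemma energy_le (hA0 : 0 ≤ A) : IntervalIntegrable (en ζ h) volume 0 1 ∧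
    ∫ r in (0 : ℝ)..1, en ζ h r ≤ 16 * A * ‖h‖ := by
  obtain ⟨Ψ, hΨ, hn, hl⟩ := exists_average hζ h hh
  obtain ⟨h1, h2⟩ := hl ((ev ζ) ∘L (ContinuousLinearMap.mul ℂ Li (cj h)))
  have e1 : ∀ r ∈ Set.uIcc (0 : ℝ) 1,
      ((ev ζ) ∘L (ContinuousLinearMap.mul ℂ Li (cj h))) (Gr ζ h r) = ((en ζ h r : ℝ) : ℂ) :=
    fun r hr => ev_Gr hζ hh hr
  have h3 : IntervalIntegrable (fun r => ((en ζ h r : ℝ) : ℂ)) volume 0 1 := by
    refine h1.congr ?_
    intro r hr
    exact e1 r (Set.uIoc_subset_uIcc hr)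
  have h4 : IntervalIntegrable (en ζ h) volume 0 1 := by
    refine ⟨?_, ?_⟩
    · have h5 := Integrable.re h3.1
      simp only [RCLike.re_to_complex, Complex.ofReal_re] at h5
      exact h5
    · have h5 := Integrable.re h3.2
      simp only [RCLike.re_to_complex, Complex.ofReal_re] at h5
      exact h5
  refine ⟨h4, ?_⟩
  rw [intervalIntegral.integral_congr e1, intervalIntegral.integral_ofReal] at h2
  have h5 := hA Ψ hΨ
  have h6 : ev ζ (cj h * Ψ) = ((∫ r in (0 : ℝ)..1, en ζ h r : ℝ) : ℂ) := h2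
  rw [h6, Complex.norm_real] at h5
  have h7 := le_abs_self (∫ r in (0 : ℝ)..1, en ζ h r)
  rw [Real.norm_eq_abs] at h5
  have h8 : A * ‖Ψ‖ ≤ A * (16 * ‖h‖) := mul_le_mul_of_nonneg_left hn hA0
  linarith

end VE

end Pool.Agent.Helper406.Toep
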