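import Pool.Agent.Helper406.ToepKernel

open MeasureTheory AddCircle Filter Topology
open scoped ComplexConjugate ENNReal

namespace Pool.Agent.Helper406.Toep

lemma poisson_id {w : ℂ} (hw : ‖w‖ < 1) (t : UnitAddCircle) :
    KK w t + conj (KK w t) - 1 = ((1 - ‖w‖ ^ 2 : ℝ) : ℂ) * ((‖KK w t‖ ^ 2 : ℝ) : ℂ) := by
  have h1 := KK_apply hw t
  have h2 : conj (KK w t) * (1 - conj w * zz t) = 1 := by
    have := congrArg conj h1
    simpa using this
  have h3 := zz_mul_conj t
  have h4 : ((‖KK w t‖ ^ 2 : ℝ) : ℂ) = KK w t * conj (KK w t) := by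
    rw [RCLike.mul_conj]; push_cast; rfl
  have h5 : ((1 - ‖w‖ ^ 2 : ℝ) : ℂ) = 1 - w * conj w := by
    rw [RCLike.mul_conj]; push_cast; rfl
  rw [h4, h5]
  set K := KK w t
  set K' := conj (KK w t)
  set z := zz t
  set z' := conj (zz t)
  set w' := conj w
  linear_combination (-K' + K' * (1 - w' * z)) * h1 + (1 - K) * h2 - w * w' * K * K' * h3

lemma ev_poisson {w : ℂ} (hw : ‖w‖ < 1) {F : Li} (hF : F ∈ Hi) :
    ev w F = ∫ t, (((1 - ‖w‖ ^ 2) * ‖KK w t‖ ^ 2 : ℝ) : ℂ) * F t ∂mu := by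
  have h1 : ev w F = integL (jj (KK w + star (KK w) - 1) * F) := by
    have e : jj (KK w + star (KK w) - 1) * F = jj (KK w) * F + (jj (star (KK w)) - 1) * F := by
      rw [map_sub, map_add, jj_one]; ring
    rw [e, map_add, ev_def]
    have hrec : jj (star (KK w)) - 1 = conj w • (ex 1 * jj (star (KK w))) := by
      have h := congrArg (fun g : CC => jj (star g)) (KK_rec hw)
      simp only [star_add, star_one, star_smul, star_mul] at h
      rw [map_add, map_smul, jj_mul, jj_one] at h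
      have h3 : jj (star zb) = ex 1 := by
        rw [star_eq_cj, jj_zb, cj_ex]; norm_num
      rw [h3] at h
      rw [sub_eq_iff_eq_add, mul_comm (ex 1), add_comm]
      exact h
    have h2 : integL ((jj (star (KK w)) - 1) * F) = 0 := by
      rw [hrec, smul_mul_assoc, map_smul, mul_assoc,
        integL_ex_mul_Hi (mul_mem_Hi (jj_star_KK_mem hw) hF), smul_zero]
    rw [h2, add_zero]
  rw [h1, integL_apply]
  apply integral_congr_ae
  filter_upwards [coeFn_mul (jj (KK w + star (KK w) - 1)) F, coeFn_jj (KK w + star (KK w) - 1)]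
    with t h2 h3
  rw [h2, h3]
  congr 1
  have := poisson_id hw t
  push_cast at this ⊢
  exact this

lemma poisson_nonneg {w : ℂ} (hw : ‖w‖ < 1) (t : UnitAddCircle) :
    0 ≤ (1 - ‖w‖ ^ 2) * ‖KK w t‖ ^ 2 := by
  have : ‖w‖ ^ 2 ≤ 1 := pow_le_one₀ (norm_nonneg _) hw.le
  have h2 := sq_nonneg ‖KK w t‖
  nlinarith

lemma poisson_integral {w : ℂ} (hw : ‖w‖ < 1) :
    ∫ t, (1 - ‖w‖ ^ 2) * ‖KK w t‖ ^ 2 ∂mu = 1 := by
  have h := ev_poisson hw one_mem_Hi
  rw [ev_one hw] at h
  have h2 : ∫ t, (((1 - ‖w‖ ^ 2) * ‖KK w t‖ ^ 2 : ℝ) : ℂ) * (1 : Li) t ∂mu =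
      ∫ t, (((1 - ‖w‖ ^ 2) * ‖KK w t‖ ^ 2 : ℝ) : ℂ) ∂mu := by
    apply integral_congr_ae
    filter_upwards [coeFn_one] with t h1
    rw [h1, mul_one]
  rw [h2, integral_complex_ofReal] at h
  exact_mod_cast h.symm

lemma continuous_poisson (w : ℂ) : Continuous fun t => (1 - ‖w‖ ^ 2) * ‖KK w t‖ ^ 2 := by
  fun_prop

lemma norm_ev_le {w : ℂ} (hw : ‖w‖ < 1) {F : Li} (hF : F ∈ Hi) : ‖ev w F‖ ≤ ‖F‖ := by
  rw [ev_poisson hw hF]
  have hint : Integrable (fun t => (1 - ‖w‖ ^ 2) * ‖KK w t‖ ^ 2) mu :=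
    (continuous_poisson w).integrable_of_hasCompactSupport
      (HasCompactSupport.of_compactSpace _)
  calc ‖∫ t, (((1 - ‖w‖ ^ 2) * ‖KK w t‖ ^ 2 : ℝ) : ℂ) * F t ∂mu‖
      ≤ ∫ t, ((1 - ‖w‖ ^ 2) * ‖KK w t‖ ^ 2) * ‖F‖ ∂mu := by
        apply norm_integral_le_of_norm_le (hint.mul_const _)
        filter_upwards [ae_norm_le F] with t ht
        rw [norm_mul, Complex.norm_real, Real.norm_of_nonneg (poisson_nonneg hw t)]
        exact mul_le_mul_of_nonneg_left ht (poisson_nonneg hw t)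
    _ = ‖F‖ := by rw [integral_mul_const, poisson_integral hw, one_mul]

lemma zb_pow (n : ℕ) : zb ^ n = fourier (-(n : ℤ)) := by
  induction n with
  | zero => ext t; simp
  | succ n ih =>
    rw [pow_succ, ih]
    ext t
    simp only [zb, ContinuousMap.mul_apply]
    rw [← fourier_add]
    congr 2
    push_cast; ring

lemma hasSum_KK {w : ℂ} (hw : ‖w‖ < 1) :
    HasSum (fun n : ℕ => w ^ n • (fourier (-(n : ℤ)) : CC)) (KK w) := by
  have hn : ‖w • zb‖ < 1 := by rwa [norm_smul_zb]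
  have h1 := (summable_geometric_of_norm_lt_one hn).hasSum
  have h2 : ∑' n : ℕ, (w • zb) ^ n = KK w := by
    have h3 := geom_series_mul_neg (w • zb) hn
    have h4 := KK_mul hw
    calc ∑' n : ℕ, (w • zb) ^ n = (∑' n : ℕ, (w • zb) ^ n) * (KK w * (1 - w • zb)) := by
          rw [h4, mul_one]
      _ = ((∑' n : ℕ, (w • zb) ^ n) * (1 - w • zb)) * KK w := by ring
      _ = KK w := by rw [h3, one_mul]
  rw [h2] at h1
  convert! h1 using 1
  ext1 n
  rw [smul_pow, zb_pow]

lemma hasSum_ev {w : ℂ} (hw : ‖w‖ < 1) (u : Li) :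
    HasSum (fun n : ℕ => w ^ n * co n u) (ev w u) := by
  have h := (hasSum_KK hw).mapL (integL ∘L ((ContinuousLinearMap.mul ℂ Li).flip u) ∘L jj)
  convert! h using 1
  ext1 n
  simp only [ContinuousLinearMap.comp_apply, map_smul, ContinuousLinearMap.flip_apply,
    ContinuousLinearMap.mul_apply', smul_eq_mul]
  rfl

lemma int_emb : Function.Injective (fun n : ℕ => (n : ℤ)) := Nat.cast_injective

/-- Parseval for `G ∈ H^∞` -/
lemma hasSum_Hi {G : Li} (hG : G ∈ Hi) (k : Li) :
    HasSum (fun n : ℕ => co n G * co (-n) k) (integL (G * k)) := by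
  have h := hasSum_mul 0 G k
  rw [← integL_eq_co] at h
  have h2 := (int_emb.hasSum_iff (f := fun n : ℤ => co n G * co (0 - n) k) (a := integL (G * k))
    (fun n hn => by
      have : n < 0 := by
        by_contra hc
        exact hn ⟨n.toNat, by simp; omega⟩
      rw [hG n this, zero_mul])).mpr h
  convert! h2 using 1
  ext1 n
  simp [Function.comp]


/-- Abel means -/
noncomputable def abel (r : ℝ) (G : Li) : CC := ∑' n : ℕ, ((r : ℂ) ^ n * co n G) • (fourier (n : ℤ) : CC)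

lemma hasSum_abel {r : ℝ} (hr0 : 0 ≤ r) (hr : r < 1) (G : Li) :
    HasSum (fun n : ℕ => ((r : ℂ) ^ n * co n G) • (fourier (n : ℤ) : CC)) (abel r G) := by
  apply Summable.hasSum
  apply Summable.of_norm_bounded (g := fun n : ℕ => r ^ n * ‖G‖)
  · exact (summable_geometric_of_lt_one hr0 hr).mul_right _
  · intro n
    rw [norm_smul, fourier_norm, mul_one, norm_mul, norm_pow, Complex.norm_real,
      Real.norm_of_nonneg hr0]
    exact mul_le_mul_of_nonneg_left (norm_co_le _ _) (pow_nonneg hr0 n)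

lemma zz_pow (n : ℕ) (t : UnitAddCircle) : (zz t) ^ n = fourier (n : ℤ) t := by
  induction n with
  | zero => simp
  | succ n ih =>
    rw [pow_succ, ih]
    simp only [zz]
    rw [← fourier_add]
    congr 2

lemma abel_apply {r : ℝ} (hr0 : 0 ≤ r) (hr : r < 1) (G : Li) (t : UnitAddCircle) :
    abel r G t = ev (r * zz t) G := by
  have hw : ‖(r : ℂ) * zz t‖ < 1 := by
    rw [norm_mul, norm_zz_apply, mul_one, Complex.norm_real, Real.norm_of_nonneg hr0]; exact hr
  have h1 := (hasSum_abel hr0 hr G).mapL (ContinuousMap.evalCLM ℂ t)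
  have h2 := hasSum_ev hw G
  refine h1.unique ?_
  convert! h2 using 1
  ext1 n
  rw [mul_pow, zz_pow]
  simp only [map_smul, ContinuousMap.evalCLM_apply, smul_eq_mul]
  ring

lemma abel_pair {r : ℝ} (hr0 : 0 ≤ r) (hr : r < 1) (G k : Li) :
    HasSum (fun n : ℕ => (r : ℂ) ^ n * (co n G * co (-n) k)) (integL (jj (abel r G) * k)) := by
  have h := (hasSum_abel hr0 hr G).mapL
    (integL ∘L ((ContinuousLinearMap.mul ℂ Li).flip k) ∘L jj)
  convert! h using 1
  ext1 n
  simp only [ContinuousLinearMap.comp_apply, map_smul, ContinuousLinearMap.flip_apply,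
    ContinuousLinearMap.mul_apply', smul_eq_mul]
  rw [co_def (-n), neg_neg]
  simp only [ex]
  ring

lemma pair_le {G : Li} (hG : G ∈ Hi) {C : ℝ} (hC : ∀ w : ℂ, ‖w‖ < 1 → ‖ev w G‖ ≤ C) (k : Li) :
    ‖integL (G * k)‖ ≤ C * ∫ t, ‖k t‖ ∂mu := by
  have hC0 : 0 ≤ C := (norm_nonneg _).trans (hC 0 (by simp))
  have hb : ∀ r : ℝ, 0 ≤ r → r < 1 → ‖integL (jj (abel r G) * k)‖ ≤ C * ∫ t, ‖k t‖ ∂mu := by
    intro r hr0 hr
    rw [integL_apply, ← integral_const_mul]
    apply norm_integral_le_of_norm_le ((integrable k).norm.const_mul C)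
    filter_upwards [coeFn_mul (jj (abel r G)) k, coeFn_jj (abel r G)] with t h1 h2
    rw [h1, h2, norm_mul, abel_apply hr0 hr]
    apply mul_le_mul_of_nonneg_right _ (norm_nonneg _)
    apply hC
    rw [norm_mul, norm_zz_apply, mul_one, Complex.norm_real, Real.norm_of_nonneg hr0]; exact hr
  have hsum := hasSum_Hi hG k
  have hlim : Tendsto (fun r : ℝ => integL (jj (abel r G) * k)) (𝓝[<] 1) (𝓝 (integL (G * k))) := by
    have h1 : Tendsto (fun r : ℝ => ∑' n : ℕ, (r : ℂ) ^ n * (co n G * co (-n) k)) (𝓝[<] 1)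
        (𝓝 (∑' n : ℕ, co n G * co (-n) k)) := by
      apply tendsto_tsum_of_dominated_convergence (bound := fun n : ℕ => ‖co n G * co (-n) k‖)
        hsum.summable.norm
      · intro n
        have h2 : Tendsto (fun r : ℝ => (r : ℂ) ^ n * (co n G * co (-n) k)) (𝓝[<] 1)
            (𝓝 ((1 : ℝ) ^ n * (co n G * co (-n) k))) := by
          apply Tendsto.mono_left _ nhdsWithin_le_nhds
          apply Continuous.tendsto
          fun_prop
        simpa using h2
      · have : ∀ᶠ r : ℝ in 𝓝[<] 1, r ∈ Set.Ioo (0 : ℝ) 1 := Ioo_mem_nhdsLT (by norm_num)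
        filter_upwards [this] with r hr n
        rw [norm_mul, norm_pow, Complex.norm_real, Real.norm_of_nonneg hr.1.le]
        exact mul_le_of_le_one_left (norm_nonneg _) (pow_le_one₀ hr.1.le hr.2.le)
    rw [hsum.tsum_eq] at h1
    refine h1.congr' ?_
    have : ∀ᶠ r : ℝ in 𝓝[<] 1, r ∈ Set.Ioo (0 : ℝ) 1 := Ioo_mem_nhdsLT (by norm_num)
    filter_upwards [this] with r hr
    exact (abel_pair hr.1.le hr.2 G k).tsum_eq
  refine le_of_tendsto hlim.norm ?_
  have : ∀ᶠ r : ℝ in 𝓝[<] 1, r ∈ Set.Ioo (0 : ℝ) 1 := Ioo_mem_nhdsLT (by norm_num)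
  filter_upwards [this] with r hr
  exact hb r hr.1.le hr.2

/-- If `|∫ G k| ≤ C ∫ |k|` for all bounded `k` then `‖G‖ ≤ C`. -/
lemma norm_le_of_pair {G : Li} {C : ℝ} (hC0 : 0 ≤ C)
    (h : ∀ k : Li, ‖integL (G * k)‖ ≤ C * ∫ t, ‖k t‖ ∂mu) : ‖G‖ ≤ C := by
  apply le_of_forall_pos_le_add
  intro ε hε
  apply norm_le_of_ae (by positivity)
  have hmeas : Measurable (G : UnitAddCircle → ℂ) := (Lp.stronglyMeasurable G).measurable
  set B : Set UnitAddCircle := {t | C + ε < ‖G t‖} with hB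
  have hBm : MeasurableSet B := measurableSet_lt measurable_const hmeas.norm
  let k0 : UnitAddCircle → ℂ := B.indicator fun t => conj (G t) / (‖G t‖ : ℂ)
  have hk0m : Measurable k0 := by
    apply Measurable.indicator _ hBm
    fun_prop
  have hk0b : ∀ t, ‖k0 t‖ ≤ 1 := by
    intro t
    by_cases ht : t ∈ B
    · simp only [k0, Set.indicator_of_mem ht, norm_div, RCLike.norm_conj, Complex.norm_real,
        norm_norm]
      exact div_self_le_one _
    · simp [k0, Set.indicator_of_notMem ht]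
  have hk0L : MemLp k0 ⊤ mu :=
    memLp_top_of_bound hk0m.aestronglyMeasurable 1 (Eventually.of_forall hk0b)
  set k : Li := hk0L.toLp with hk
  have hkc : ⇑k =ᵐ[mu] k0 := MemLp.coeFn_toLp _
  have h1 := h k
  have h2 : integL (G * k) = ((∫ t in B, ‖G t‖ ∂mu : ℝ) : ℂ) := by
    rw [integL_apply, ← integral_complex_ofReal, ← integral_indicator hBm]
    apply integral_congr_ae
    filter_upwards [coeFn_mul G k, hkc] with t h3 h4
    rw [h3, h4]
    by_cases ht : t ∈ B
    · have hpos : 0 < ‖G t‖ := by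
        have : C + ε < ‖G t‖ := ht
        linarith
      have hne : (‖G t‖ : ℂ) ≠ 0 := by exact_mod_cast hpos.ne'
      simp only [k0, Set.indicator_of_mem ht]
      rw [mul_div_assoc', RCLike.mul_conj, div_eq_iff hne]
      rw [sq]
      rfl
    · simp [k0, Set.indicator_of_notMem ht]
  have h3 : ∫ t, ‖k t‖ ∂mu = mu.real B := by
    have : ∫ t, ‖k t‖ ∂mu = ∫ t, B.indicator (fun _ => (1 : ℝ)) t ∂mu := by
      apply integral_congr_ae
      filter_upwards [hkc] with t h4
      rw [h4]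
      by_cases ht : t ∈ B
      · have hpos : 0 < ‖G t‖ := by
          have : C + ε < ‖G t‖ := ht
          linarith
        simp only [k0, Set.indicator_of_mem ht, norm_div, RCLike.norm_conj, Complex.norm_real,
          norm_norm]
        exact div_self hpos.ne'
      · simp [k0, Set.indicator_of_notMem ht]
    rw [this]
    exact integral_indicator_one hBm
  have h4 : (C + ε) * mu.real B ≤ ∫ t in B, ‖G t‖ ∂mu := by
    have : ∫ _ in B, (C + ε) ∂mu ≤ ∫ t in B, ‖G t‖ ∂mu := by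
      apply setIntegral_mono_on (integrableOn_const (measure_ne_top _ _))
        (integrable G).norm.integrableOn hBm
      intro t ht
      exact (show C + ε < ‖G t‖ from ht).le
    rw [setIntegral_const, smul_eq_mul, mul_comm] at this
    exact this
  rw [h2, h3, Complex.norm_real, Real.norm_of_nonneg (integral_nonneg fun _ => norm_nonneg _)] at h1
  have h5 : mu.real B ≤ 0 := by
    have : ε * mu.real B ≤ 0 := by linarith
    by_contra hc
    push Not at hc
    have := mul_pos hε hc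
    linarith
  have h6 : mu B = 0 := by
    have h7 : mu.real B = 0 := le_antisymm h5 measureReal_nonneg
    rwa [measureReal_eq_zero_iff] at h7
  rw [ae_iff]
  convert h6 using 2
  ext t
  simp [hB, not_le]

lemma norm_le_of_ev {G : Li} (hG : G ∈ Hi) {C : ℝ} (hC : ∀ w : ℂ, ‖w‖ < 1 → ‖ev w G‖ ≤ C) :
    ‖G‖ ≤ C :=
  norm_le_of_pair ((norm_nonneg _).trans (hC 0 (by simp))) (pair_le hG hC)

end Pool.Agent.Helper406.Toep
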