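import Pool.Agent.Helper406.ToepLower

open MeasureTheory AddCircle Filter Topology
open scoped ComplexConjugate ENNReal NNReal

namespace Pool.Agent.Helper406.Toep

open Hardy

/-- closed graph theorem: the Toeplitz operator is automatically bounded -/
lemma mem_TTs_of_maps (f : Li) (h : ∀ F ∈ Hi, ∃ G ∈ Hi, f * F - G ∈ Hm) : f ∈ HL.TTs := by
  have huniq : ∀ {F G G' : Li}, G ∈ Hi → G' ∈ Hi → f * F - G ∈ Hm → f * F - G' ∈ Hm → G = G' := by
    intro F G G' hG hG' h1 h2
    rw [← sub_eq_zero]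
    apply Hi_inter_Hm (Hi.sub_mem hG hG')
    have := Hm.sub_mem h2 h1
    convert! this using 1
    abel
  choose! S hS using h
  let L : HL.P →ₗ[ℂ] HL.P :=
    { toFun := fun F => ⟨S F.1, (hS F.1 F.2).1⟩
      map_add' := fun F G => by
        apply Subtype.ext
        apply huniq (hS _ (F + G).2).1 (Hi.add_mem (hS _ F.2).1 (hS _ G.2).1) (hS _ (F + G).2).2
        have := Hm.add_mem (hS _ F.2).2 (hS _ G.2).2
        convert! this using 1
        have e : ((F + G : HL.P) : Li) = (F : Li) + (G : Li) := rfl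
        rw [e, mul_add]
        abel
      map_smul' := fun c F => by
        apply Subtype.ext
        apply huniq (hS _ (c • F).2).1 (Hi.smul_mem c (hS _ F.2).1) (hS _ (c • F).2).2
        have := Hm.smul_mem c (hS _ F.2).2
        convert! this using 1
        have e : ((c • F : HL.P) : Li) = c • (F : Li) := rfl
        rw [e, mul_smul_comm, smul_sub] }
  have hgraph : (L.graph : Set (HL.P × HL.P)) =
      (fun x : HL.P × HL.P => f * (x.1 : Li) - (x.2 : Li)) ⁻¹' (Hm : Set Li) := by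
    ext x
    simp only [SetLike.mem_coe, LinearMap.mem_graph_iff, Set.mem_preimage]
    constructor
    · intro hx
      rw [hx]
      exact (hS _ x.1.2).2
    · intro hx
      apply Subtype.ext
      exact huniq x.2.2 (hS _ x.1.2).1 hx (hS _ x.1.2).2
  have hclosed : IsClosed (L.graph : Set (HL.P × HL.P)) := by
    rw [hgraph]
    apply isClosed_Hm.preimage
    exact (continuous_const.mul (continuous_subtype_val.comp continuous_fst)).sub
      (continuous_subtype_val.comp continuous_snd)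
  exact ⟨ContinuousLinearMap.ofIsClosedGraph hclosed, fun F => (hS _ F.2).2⟩

/-- the lower bound for the spectral radius -/
lemma le_spectralRadius (f : TL) : (‖HL.sy f‖₊ : ℝ≥0∞) ≤ spectralRadius ℂ (Top f) := by
  have h1 := spectrum.pow_nnnorm_pow_one_div_tendsto_nhds_spectralRadius (Top f)
  refine ge_of_tendsto h1 ?_
  filter_upwards [eventually_gt_atTop 0] with k hk
  have hk' : (k : ℝ) ≠ 0 := by exact_mod_cast hk.ne'
  have h2 : (‖HL.sy f‖₊ : ℝ≥0∞) ^ k ≤ (‖(Top f) ^ k‖₊ : ℝ≥0∞) := by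
    have := pow_le f k
    exact_mod_cast this
  have h3 := ENNReal.rpow_le_rpow h2 (z := 1 / (k : ℝ)) (by positivity)
  rwa [← ENNReal.rpow_natCast, ← ENNReal.rpow_mul, mul_one_div_cancel hk', ENNReal.rpow_one] at h3

/-- there is a point of the spectrum on the circle of radius at least `‖f‖` -/
lemma exists_spectrum (f : TL) : ∃ z : ℂ, ‖HL.sy f‖ ≤ ‖z‖ ∧
    ¬ ((∀ F ∈ Hi, (HL.sy f - z • 1) * F ∈ Hm → F = 0) ∧
      (∀ F ∈ Hi, ∃ G ∈ Hi, (HL.sy f - z • 1) * G - F ∈ Hm)) := by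
  have : Nontrivial HL.P := by
    refine ⟨⟨HL.oneP, 0, ?_⟩⟩
    intro h
    have h1 : (1 : Li) = 0 := congrArg Subtype.val h
    have h2 := ev_one (w := 0) (by simp)
    rw [h1, map_zero] at h2
    exact zero_ne_one h2
  obtain ⟨z, hz, hz2⟩ := spectrum.exists_nnnorm_eq_spectralRadius (Top f)
  refine ⟨z, ?_, ?_⟩
  · have := le_spectralRadius f
    rw [← hz2] at this
    exact_mod_cast this
  · rintro ⟨h1, h2⟩
    apply hz
    rw [resolventSet]
    show IsUnit (algebraMap ℂ (HL.P →L[ℂ] HL.P) z - Top f)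
    rw [ContinuousLinearMap.isUnit_iff_bijective]
    have key : ∀ F : HL.P, (HL.sy f - z • 1) * (F : Li) +
        (((algebraMap ℂ (HL.P →L[ℂ] HL.P) z - Top f) F : HL.P) : Li) ∈ Hm := by
      intro F
      have h3 : HL.sy f * (F : Li) - ((Top f F : HL.P) : Li) ∈ Hm := isT_Top f F
      convert! h3 using 1
      have e : (((algebraMap ℂ (HL.P →L[ℂ] HL.P) z - Top f) F : HL.P) : Li) =
        z • (F : Li) - ((Top f F : HL.P) : Li) := rfl
      rw [e, sub_mul, smul_mul_assoc, one_mul]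
      abel
    constructor
    · rw [injective_iff_map_eq_zero]
      intro F hF
      have h3 := key F
      rw [hF] at h3
      have e : ((0 : HL.P) : Li) = 0 := rfl
      rw [e, add_zero] at h3
      exact Subtype.ext (h1 F F.2 h3)
    · intro F
      obtain ⟨G, hG, hG2⟩ := h2 F F.2
      refine ⟨-⟨G, hG⟩, ?_⟩
      have h3 := key ⟨G, hG⟩
      rw [map_neg]
      apply Subtype.ext
      have h4 := Hm.sub_mem h3 hG2
      rw [← sub_eq_zero, ← neg_eq_zero]
      apply Hi_inter_Hm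
      · exact Hi.neg_mem (Hi.sub_mem (-((algebraMap ℂ (HL.P →L[ℂ] HL.P) z - Top f) ⟨G, hG⟩)).2 F.2)
      · convert! h4 using 1
        have e : ((-((algebraMap ℂ (HL.P →L[ℂ] HL.P) z - Top f) ⟨G, hG⟩) : HL.P) : Li) =
          -((((algebraMap ℂ (HL.P →L[ℂ] HL.P) z - Top f) ⟨G, hG⟩) : HL.P) : Li) := rfl
        rw [e]
        abel

/-- class of a bounded function -/
noncomputable def cls (F : UnitAddCircle → ℂ) (h1 : AEStronglyMeasurable F haarAddCircle)
    (h2 : eLpNorm F ⊤ haarAddCircle < ⊤) : Li := MemLp.toLp F ⟨h1, h2⟩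

lemma coeFn_cls (F : UnitAddCircle → ℂ) (h1 : AEStronglyMeasurable F haarAddCircle)
    (h2 : eLpNorm F ⊤ haarAddCircle < ⊤) : ⇑(cls F h1 h2) =ᵐ[mu] F := MemLp.coeFn_toLp _

lemma norm_cls (F : UnitAddCircle → ℂ) (h1 : AEStronglyMeasurable F haarAddCircle)
    (h2 : eLpNorm F ⊤ haarAddCircle < ⊤) : ‖cls F h1 h2‖ = (eLpNorm F ⊤ haarAddCircle).toReal :=
  Lp.norm_toLp _ _

lemma co_cls (F : UnitAddCircle → ℂ) (h1 : AEStronglyMeasurable F haarAddCircle)
    (h2 : eLpNorm F ⊤ haarAddCircle < ⊤) (n : ℤ) : co n (cls F h1 h2) = fourierCoeff F n := by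
  rw [co_eq, fourierCoeff_congr_ae (coeFn_cls F h1 h2)]

lemma coe_class (u : Li) : AEStronglyMeasurable u haarAddCircle ∧ eLpNorm u ⊤ haarAddCircle < ⊤ :=
  ⟨(Lp.memLp u).1, (Lp.memLp u).2⟩

/-- products -/
lemma co_mul_cls {φ F : UnitAddCircle → ℂ} (f u : Li) (hf : ⇑f =ᵐ[mu] φ) (hu : ⇑u =ᵐ[mu] F)
    (n : ℤ) : co n (f * u) = fourierCoeff (fun t => φ t * F t) n := by
  rw [co_eq]
  have : ⇑(f * u) =ᵐ[haarAddCircle] fun t => φ t * F t := by
    filter_upwards [coeFn_mul f u, hf, hu] with t h1 h2 h3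
    rw [h1, h2, h3]
  rw [fourierCoeff_congr_ae this]

lemma co_sub_mul_cls {φ F : UnitAddCircle → ℂ} (f u : Li) (hf : ⇑f =ᵐ[mu] φ) (hu : ⇑u =ᵐ[mu] F)
    (c : ℂ) (n : ℤ) : co n ((f - c • 1) * u) = fourierCoeff (fun t => (φ t - c) * F t) n := by
  apply co_mul_cls _ _ _ hu
  filter_upwards [coeFn_sub f (c • 1), coeFn_smul c 1, coeFn_one, hf] with t h1 h2 h3 h4
  rw [h1, h2, h3, h4, mul_one]

/-- the frozen statement -/
theorem main (φ : UnitAddCircle → ℂ) (h1 : AEStronglyMeasurable φ haarAddCircle)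
    (h2 : eLpNorm φ ⊤ haarAddCircle < ⊤)
    (h3 : ∀ f : UnitAddCircle → ℂ,
        (AEStronglyMeasurable f haarAddCircle ∧ eLpNorm f ⊤ haarAddCircle < ⊤ ∧
          ∀ n : ℤ, n < 0 → fourierCoeff f n = 0) →
        ∃ g : UnitAddCircle → ℂ,
          (AEStronglyMeasurable g haarAddCircle ∧ eLpNorm g ⊤ haarAddCircle < ⊤ ∧
            ∀ n : ℤ, n < 0 → fourierCoeff g n = 0) ∧
          ∀ n : ℤ, 0 ≤ n → fourierCoeff g n = fourierCoeff (fun t => φ t * f t) n) :
      IsLUB
        {r : ℝ | ∃ c : ℂ, r = ‖c‖ ∧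
          ¬ ((∀ f : UnitAddCircle → ℂ,
                (AEStronglyMeasurable f haarAddCircle ∧ eLpNorm f ⊤ haarAddCircle < ⊤ ∧
                  ∀ n : ℤ, n < 0 → fourierCoeff f n = 0) →
                (∀ n : ℤ, 0 ≤ n → fourierCoeff (fun t => (φ t - c) * f t) n = 0) →
                f =ᵐ[haarAddCircle] 0) ∧
             (∀ g : UnitAddCircle → ℂ,
                (AEStronglyMeasurable g haarAddCircle ∧ eLpNorm g ⊤ haarAddCircle < ⊤ ∧
                  ∀ n : ℤ, n < 0 → fourierCoeff g n = 0) →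
                ∃ f : UnitAddCircle → ℂ,
                  (AEStronglyMeasurable f haarAddCircle ∧ eLpNorm f ⊤ haarAddCircle < ⊤ ∧
                    ∀ n : ℤ, n < 0 → fourierCoeff f n = 0) ∧
                  ∀ n : ℤ, 0 ≤ n →
                    fourierCoeff (fun t => (φ t - c) * f t) n = fourierCoeff g n))}
        (eLpNorm φ ⊤ haarAddCircle).toReal := by
  set f0 : Li := cls φ h1 h2 with hf0
  have hf0c : ⇑f0 =ᵐ[mu] φ := coeFn_cls φ h1 h2
  have hcoe : ∀ u : Li, u ∈ Hi → (AEStronglyMeasurable u haarAddCircle ∧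
      eLpNorm u ⊤ haarAddCircle < ⊤ ∧ ∀ n : ℤ, n < 0 → fourierCoeff u n = 0) := by
    intro u hu
    refine ⟨(coe_class u).1, (coe_class u).2, fun n hn => ?_⟩
    rw [← co_eq]; exact hu n hn
  have hmem : f0 ∈ HL.TTs := by
    apply mem_TTs_of_maps
    intro F hF
    obtain ⟨g, ⟨g1, g2, g3⟩, g4⟩ := h3 F (hcoe F hF)
    refine ⟨cls g g1 g2, fun n hn => by rw [co_cls]; exact g3 n hn, fun n hn => ?_⟩
    rw [map_sub, co_cls, g4 n hn, co_mul_cls f0 F hf0c (Eventually.of_forall fun _ => rfl),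
      sub_self]
  set f : TL := mk f0 hmem with hf
  have hsy : HL.sy f = f0 := rfl
  -- the equivalence of the two forms of bijectivity
  have hequiv : ∀ c : ℂ, ((∀ f : UnitAddCircle → ℂ,
                (AEStronglyMeasurable f haarAddCircle ∧ eLpNorm f ⊤ haarAddCircle < ⊤ ∧
                  ∀ n : ℤ, n < 0 → fourierCoeff f n = 0) →
                (∀ n : ℤ, 0 ≤ n → fourierCoeff (fun t => (φ t - c) * f t) n = 0) →
                f =ᵐ[haarAddCircle] 0) ∧
             (∀ g : UnitAddCircle → ℂ,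
                (AEStronglyMeasurable g haarAddCircle ∧ eLpNorm g ⊤ haarAddCircle < ⊤ ∧
                  ∀ n : ℤ, n < 0 → fourierCoeff g n = 0) →
                ∃ f : UnitAddCircle → ℂ,
                  (AEStronglyMeasurable f haarAddCircle ∧ eLpNorm f ⊤ haarAddCircle < ⊤ ∧
                    ∀ n : ℤ, n < 0 → fourierCoeff f n = 0) ∧
                  ∀ n : ℤ, 0 ≤ n →
                    fourierCoeff (fun t => (φ t - c) * f t) n = fourierCoeff g n)) ↔
      ((∀ F ∈ Hi, (HL.sy f - c • 1) * F ∈ Hm → F = 0) ∧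
      (∀ F ∈ Hi, ∃ G ∈ Hi, (HL.sy f - c • 1) * G - F ∈ Hm)) := by
    intro c
    rw [hsy]
    constructor
    · rintro ⟨a1, a2⟩
      constructor
      · intro F hF hm
        have h4 := a1 F (hcoe F hF) (fun n hn => by
          rw [← co_sub_mul_cls f0 F hf0c (Eventually.of_forall fun _ => rfl)]
          exact hm n hn)
        apply Lp.ext
        filter_upwards [h4, Lp.coeFn_zero ℂ ⊤ mu] with t h5 h6
        rw [h5, h6]
      · intro F hF
        obtain ⟨G, ⟨g1, g2, g3⟩, g4⟩ := a2 F (hcoe F hF)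
        refine ⟨cls G g1 g2, fun n hn => by rw [co_cls]; exact g3 n hn, fun n hn => ?_⟩
        rw [map_sub, co_sub_mul_cls f0 _ hf0c (coeFn_cls G g1 g2), g4 n hn, ← co_eq, sub_self]
    · rintro ⟨a1, a2⟩
      constructor
      · rintro F ⟨g1, g2, g3⟩ hm
        have h4 := a1 (cls F g1 g2) (fun n hn => by rw [co_cls]; exact g3 n hn) (fun n hn => by
          rw [co_sub_mul_cls f0 _ hf0c (coeFn_cls F g1 g2)]
          exact hm n hn)
        filter_upwards [coeFn_cls F g1 g2, Lp.coeFn_zero ℂ ⊤ mu] with t h5 h6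
        rw [← h5, h4, h6]
      · rintro F ⟨g1, g2, g3⟩
        obtain ⟨G, hG, hG2⟩ := a2 (cls F g1 g2) (fun n hn => by rw [co_cls]; exact g3 n hn)
        refine ⟨G, hcoe G hG, fun n hn => ?_⟩
        have h5 := hG2 n hn
        rw [map_sub, sub_eq_zero, co_cls,
          co_sub_mul_cls f0 G hf0c (Eventually.of_forall fun _ => rfl)] at h5
        exact h5
  rw [← norm_cls φ h1 h2, ← hf0, ← hsy]
  constructor
  · rintro r ⟨c, rfl, hc⟩
    by_contra hlt
    push Not at hlt
    exact hc ((hequiv c).mpr (bijective_of_lt f hlt))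
  · intro R hR
    obtain ⟨z, hz1, hz2⟩ := exists_spectrum f
    refine hz1.trans (hR ⟨z, rfl, fun h => hz2 ((hequiv z).mp h)⟩)

end Pool.Agent.Helper406.Toep
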