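import Pool.Agent.Helper406.ToepPoly

open MeasureTheory AddCircle Filter Topology
open scoped ComplexConjugate ENNReal NNReal

namespace Pool.Agent.Helper406.Toep

open Hardy

/-- `‖P₊(f p)‖_∞ ≤ C ‖p‖_∞` for all analytic polynomials `p` -/
def STBound (f : UnitAddCircle → ℂ) (C : ℝ) : Prop :=
  ∀ p : Polynomial ℂ, ∃ g : UnitAddCircle → ℂ, AEStronglyMeasurable g haarAddCircle ∧
    eLpNorm g ⊤ haarAddCircle ≤
      ENNReal.ofReal C * eLpNorm (fun t : UnitAddCircle => p.eval (fourier 1 t)) ⊤ haarAddCircle ∧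
    ∀ n : ℤ, fourierCoeff g n =
      if 0 ≤ n then fourierCoeff (fun t : UnitAddCircle => f t * p.eval (fourier 1 t)) n else 0

/-- the space `ST(H^∞)` -/
def ST (f : UnitAddCircle → ℂ) : Prop :=
  AEStronglyMeasurable f haarAddCircle ∧ eLpNorm f ⊤ haarAddCircle < ⊤ ∧
    ∃ C : ℝ, 0 ≤ C ∧ STBound f C

/-- the norm of `ST(H^∞)` -/
noncomputable def stNorm (f : UnitAddCircle → ℂ) : ℝ := sInf {C : ℝ | 0 ≤ C ∧ STBound f C}

lemma pol_ae (p : Polynomial ℂ) : ⇑(jj (pol p)) =ᵐ[mu] fun t => p.eval (fourier 1 t) := by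
  filter_upwards [coeFn_jj (pol p)] with t h
  rw [h, pol_apply]; rfl

lemma eLpNorm_coe (u : Li) : eLpNorm u ⊤ haarAddCircle = ENNReal.ofReal ‖u‖ := by
  rw [Lp.norm_def, ENNReal.ofReal_toReal (Lp.eLpNorm_ne_top u)]

lemma eLpNorm_pol (p : Polynomial ℂ) :
    eLpNorm (fun t : UnitAddCircle => p.eval (fourier 1 t)) ⊤ haarAddCircle = ENNReal.ofReal ‖jj (pol p)‖ := by
  rw [← eLpNorm_coe]
  exact eLpNorm_congr_ae (pol_ae p).symm

/-- the bound in terms of classes -/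
lemma STBound_iff {f : UnitAddCircle → ℂ} (f0 : Li) (hf : ⇑f0 =ᵐ[mu] f) {C : ℝ} (hC : 0 ≤ C) :
    STBound f C ↔ ∀ F ∈ Hi, ∃ G ∈ Hi, f0 * F - G ∈ Hm ∧ ‖G‖ ≤ C * ‖F‖ := by
  have hmul : ∀ p : Polynomial ℂ, ∀ n, co n (f0 * jj (pol p)) =
      fourierCoeff (fun t : UnitAddCircle => f t * p.eval (fourier 1 t)) n := fun p n =>
    co_mul_cls f0 _ hf (pol_ae p) n
  constructor
  · intro h
    apply bounded_of_poly f0 hC
    intro p
    obtain ⟨g, g1, g2, g3⟩ := h p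
    rw [eLpNorm_pol, ← ENNReal.ofReal_mul hC] at g2
    have g4 : eLpNorm g ⊤ haarAddCircle < ⊤ := lt_of_le_of_lt g2 ENNReal.ofReal_lt_top
    refine ⟨cls g g1 g4, fun n hn => ?_, fun n hn => ?_, ?_⟩
    · rw [co_cls, g3, if_neg (by omega)]
    · rw [map_sub, hmul, co_cls, g3, if_pos hn, sub_self]
    · rw [norm_cls]
      exact ENNReal.toReal_le_of_le_ofReal (mul_nonneg hC (norm_nonneg _)) g2
  · intro h p
    obtain ⟨G, hG1, hG2, hG3⟩ := h (jj (pol p)) (jj_pol_mem p)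
    refine ⟨G, (coe_class G).1, ?_, fun n => ?_⟩
    · rw [eLpNorm_coe, eLpNorm_pol, ← ENNReal.ofReal_mul hC]
      exact ENNReal.ofReal_le_ofReal hG3
    · rw [← co_eq]
      split_ifs with hn
      · have := hG2 n hn
        rw [map_sub, sub_eq_zero, hmul] at this
        exact this.symm
      · exact hG1 n (by omega)

lemma STBound_iff' {f : UnitAddCircle → ℂ} (x : TL) (hf : ⇑(HL.sy x) =ᵐ[mu] f) {C : ℝ}
    (hC : 0 ≤ C) : STBound f C ↔ ‖Top x‖ ≤ C := by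
  rw [STBound_iff (HL.sy x) hf hC]
  constructor
  · intro h
    apply ContinuousLinearMap.opNorm_le_bound _ hC
    intro F
    obtain ⟨G, hG1, hG2, hG3⟩ := h F F.2
    have h1 : HL.sy x * (F : Li) - ((Top x F : HL.P) : Li) ∈ Hm := isT_Top x F
    have h2 : G = ((Top x F : HL.P) : Li) := by
      rw [← sub_eq_zero]
      apply Hi_inter_Hm (Hi.sub_mem hG1 (Top x F).2)
      have := Hm.sub_mem h1 hG2
      convert! this using 1
      abel
    have h3 : ‖Top x F‖ = ‖G‖ := by rw [h2]; rfl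
    rw [h3]
    exact hG3
  · intro h F hF
    refine ⟨Top x ⟨F, hF⟩, (Top x ⟨F, hF⟩).2, isT_Top x ⟨F, hF⟩, ?_⟩
    exact ((Top x).le_opNorm ⟨F, hF⟩).trans (mul_le_mul_of_nonneg_right h (norm_nonneg _))

/-- `ST(H^∞)` is the symbol algebra -/
lemma ST_iff (f : UnitAddCircle → ℂ) : ST f ↔ ∃ x : TL, ⇑(HL.sy x) =ᵐ[mu] f := by
  constructor
  · rintro ⟨h1, h2, C, hC, h3⟩
    have h4 := (STBound_iff (cls f h1 h2) (coeFn_cls f h1 h2) hC).mp h3
    have h5 : cls f h1 h2 ∈ HL.TTs := mem_TTs_of_maps _ fun F hF => by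
      obtain ⟨G, hG1, hG2, _⟩ := h4 F hF
      exact ⟨G, hG1, hG2⟩
    exact ⟨mk _ h5, coeFn_cls f h1 h2⟩
  · rintro ⟨x, hx⟩
    refine ⟨(coe_class (HL.sy x)).1.congr hx, ?_, ‖Top x‖, norm_nonneg (Top x),
      (STBound_iff' x hx (norm_nonneg (Top x))).mpr le_rfl⟩
    rw [← eLpNorm_congr_ae hx]
    exact (coe_class (HL.sy x)).2

lemma stNorm_eq {f : UnitAddCircle → ℂ} (x : TL) (hf : ⇑(HL.sy x) =ᵐ[mu] f) :
    stNorm f = ‖Top x‖ := by
  unfold stNorm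
  have h : {C : ℝ | 0 ≤ C ∧ STBound f C} = Set.Ici ‖Top x‖ := by
    ext C
    constructor
    · rintro ⟨h1, h2⟩
      exact (STBound_iff' x hf h1).mp h2
    · intro h
      have h1 : 0 ≤ C := (norm_nonneg (Top x)).trans h
      exact ⟨h1, (STBound_iff' x hf h1).mpr h⟩
  rw [h, csInf_Ici]

lemma norm_eq_three (x : TL) : ‖x‖ = 3 * ‖Top x‖ := by
  rw [norm_TT, max_eq_right]
  have := pow_le x 1
  rw [pow_one, pow_one] at this
  linarith

lemma ST_add {f g : UnitAddCircle → ℂ} (hf : ST f) (hg : ST g) : ST (fun t => f t + g t) := by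
  rw [ST_iff] at *
  obtain ⟨x, hx⟩ := hf
  obtain ⟨y, hy⟩ := hg
  refine ⟨x + y, ?_⟩
  rw [map_add]
  filter_upwards [coeFn_add (HL.sy x) (HL.sy y), hx, hy] with t h1 h2 h3
  rw [h1, h2, h3]

lemma ST_mul {f g : UnitAddCircle → ℂ} (hf : ST f) (hg : ST g) : ST (fun t => f t * g t) := by
  rw [ST_iff] at *
  obtain ⟨x, hx⟩ := hf
  obtain ⟨y, hy⟩ := hg
  refine ⟨x * y, ?_⟩
  rw [map_mul]
  filter_upwards [coeFn_mul (HL.sy x) (HL.sy y), hx, hy] with t h1 h2 h3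
  rw [h1, h2, h3]

lemma ST_Hinf {f : UnitAddCircle → ℂ} (h1 : AEStronglyMeasurable f haarAddCircle)
    (h2 : eLpNorm f ⊤ haarAddCircle < ⊤) (h3 : ∀ n : ℤ, n < 0 → fourierCoeff f n = 0) : ST f := by
  rw [ST_iff]
  refine ⟨mk (cls f h1 h2) (P_le_TTs fun n hn => ?_), coeFn_cls f h1 h2⟩
  rw [co_cls]
  exact h3 n hn

lemma ST_congr {f g : UnitAddCircle → ℂ} (hf : ST f) (h : f =ᵐ[haarAddCircle] g) : ST g := by
  rw [ST_iff] at *
  obtain ⟨x, hx⟩ := hf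
  exact ⟨x, hx.trans h⟩

/-- the GD property -/
theorem ST_inv {f : UnitAddCircle → ℂ} (hf : ST f) (h1 : eLpNorm f ⊤ haarAddCircle < 1) :
    ST (fun t => 1 / (1 - f t)) := by
  rw [ST_iff] at *
  obtain ⟨x, hx⟩ := hf
  have hn : ‖HL.sy x‖ < 1 := by
    rw [← eLpNorm_congr_ae hx, eLpNorm_coe] at h1
    rw [← ENNReal.ofReal_one] at h1
    exact (ENNReal.ofReal_lt_ofReal_iff one_pos).mp h1
  have hr : spectralRadius ℂ x < 1 := by
    refine lt_of_le_of_lt (spectralRadius_le x) ?_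
    exact_mod_cast hn
  have hu : IsUnit (1 - x) := by
    by_contra hc
    have h2 : (1 : ℂ) ∈ spectrum ℂ x := by
      rw [spectrum.mem_iff, map_one]
      exact hc
    have h3 : ((‖(1 : ℂ)‖₊ : ℝ≥0∞)) ≤ spectralRadius ℂ x := by
      unfold spectralRadius
      exact le_iSup₂ (f := fun (k : ℂ) (_ : k ∈ spectrum ℂ x) => (‖k‖₊ : ℝ≥0∞)) 1 h2
    rw [nnnorm_one] at h3
    exact absurd hr (not_lt.mpr h3)
  obtain ⟨u, hu⟩ := hu
  have h4 : (1 - x) * (↑u⁻¹ : TL) = 1 := by rw [← hu]; exact u.mul_inv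
  refine ⟨(↑u⁻¹ : TL), ?_⟩
  have h5 : (1 - HL.sy x) * HL.sy (↑u⁻¹ : TL) = 1 := by
    rw [← map_one HL.sy, ← map_sub, ← map_mul, h4]
  filter_upwards [coeFn_mul (1 - HL.sy x) (HL.sy (↑u⁻¹ : TL)), coeFn_sub 1 (HL.sy x), coeFn_one,
    hx] with t h6 h7 h8 h9
  rw [h5, h7, h8, h9] at h6
  rw [eq_comm] at h6
  have h10 : (1 - f t) ≠ 0 := by
    intro h0
    rw [h0, zero_mul] at h6
    exact zero_ne_one h6
  rw [eq_div_iff h10, mul_comm]
  exact h6

/-- the spectral radius formula -/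
theorem ST_radius {f : UnitAddCircle → ℂ} (hf : ST f) :
    Tendsto (fun n : ℕ => stNorm (fun t => f t ^ n) ^ (1 / (n : ℝ))) atTop
      (𝓝 (eLpNorm f ⊤ haarAddCircle).toReal) := by
  obtain ⟨x, hx⟩ := (ST_iff f).mp hf
  have hnorm : (eLpNorm f ⊤ haarAddCircle).toReal = ‖HL.sy x‖ := by
    rw [← eLpNorm_congr_ae hx, Lp.norm_def]
  rw [hnorm]
  have hst : ∀ n : ℕ, stNorm (fun t => f t ^ n) = ‖x ^ n‖ / 3 := by
    intro n
    rw [norm_eq_three, mul_div_cancel_left₀ _ (by norm_num : (3 : ℝ) ≠ 0)]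
    apply stNorm_eq
    rw [map_pow]
    filter_upwards [coeFn_pow (HL.sy x) n, hx] with t h1 h2
    rw [h1, h2]
  have hrad : spectralRadius ℂ x = ENNReal.ofReal ‖HL.sy x‖ := by
    apply le_antisymm
    · have := spectralRadius_le x
      rw [ENNReal.ofReal, norm_toNNReal]
      exact this
    · have h1 := spectrum.pow_norm_pow_one_div_tendsto_nhds_spectralRadius x
      refine ge_of_tendsto h1 ?_
      filter_upwards [eventually_gt_atTop 0] with k hk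
      have hk' : (k : ℝ) ≠ 0 := by exact_mod_cast hk.ne'
      apply ENNReal.ofReal_le_ofReal
      have h2 : ‖HL.sy x‖ ^ k ≤ ‖x ^ k‖ := by
        refine (norm_pow_eq _ _).trans ?_
        rw [← map_pow]
        exact norm_sy_le _
      have h3 := Real.rpow_le_rpow (by positivity) h2 (z := 1 / (k : ℝ)) (by positivity)
      rwa [← Real.rpow_natCast, ← Real.rpow_mul (norm_nonneg _), mul_one_div_cancel hk',
        Real.rpow_one] at h3
  have h1 := spectrum.pow_norm_pow_one_div_tendsto_nhds_spectralRadius x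
  rw [hrad] at h1
  have h2 := (ENNReal.tendsto_toReal ENNReal.ofReal_ne_top).comp h1
  rw [ENNReal.toReal_ofReal (norm_nonneg _)] at h2
  have h3 : Tendsto (fun n : ℕ => ‖x ^ n‖ ^ (1 / (n : ℝ))) atTop (𝓝 ‖HL.sy x‖) := by
    refine h2.congr fun n => ?_
    simp only [Function.comp]
    rw [ENNReal.toReal_ofReal (Real.rpow_nonneg (norm_nonneg (x ^ n)) _)]
  have h4 : Tendsto (fun n : ℕ => (1 / 3 : ℝ) ^ (1 / (n : ℝ))) atTop (𝓝 ((1 / 3 : ℝ) ^ (0 : ℝ))) := by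
    apply Tendsto.rpow tendsto_const_nhds tendsto_one_div_atTop_nhds_zero_nat
    left; norm_num
  rw [Real.rpow_zero] at h4
  have h5 := h3.mul h4
  rw [mul_one] at h5
  refine h5.congr fun n => ?_
  rw [hst, div_eq_mul_one_div (‖x ^ n‖) 3, Real.mul_rpow (norm_nonneg (x ^ n)) (by norm_num)]

end Pool.Agent.Helper406.Toep
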