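import Pool.Agent.Helper406.ToepMain
import Pool.Agent.Helper406.ToepAlg

open MeasureTheory AddCircle Filter Topology
open scoped ComplexConjugate ENNReal

namespace Pool.Agent.Helper406.Toep

lemma isClosed_Hm : IsClosed (Hm : Set Li) := by
  have : (Hm : Set Li) = ⋂ n : ℤ, ⋂ _ : 0 ≤ n, {u | co n u = 0} := by
    ext u; simp [mem_Hm]
  rw [this]
  exact isClosed_iInter fun n => isClosed_iInter fun _ =>
    isClosed_eq (co n).continuous continuous_const

lemma norm_one_Li_le : ‖(1 : Li)‖ ≤ 1 := by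
  apply norm_le_of_ae zero_le_one
  filter_upwards [coeFn_one] with t h
  rw [h, norm_one]

/-- the Hardy structure on the circle -/
noncomputable def HL : Hardy Li where
  P := Hi
  M := Hm
  N := Hn
  one_mem := one_mem_Hi
  mul_mem := mul_mem_Hi
  M_le_N := Hm_le_Hn
  mul_mem_M := mul_mem_Hm
  inter := Hi_inter_Hm
  closed_P := isClosed_Hi
  closed_M := isClosed_Hm
  norm_one_le := norm_one_Li_le

lemma ae_tendsto {S : ℕ → Li} {v : Li} (h : Tendsto S atTop (𝓝 v)) :
    ∀ᵐ t ∂mu, Tendsto (fun n => S n t) atTop (𝓝 (v t)) := by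
  have h1 : ∀ᵐ t ∂mu, ∀ n, ‖S n t - v t‖ ≤ ‖S n - v‖ := by
    rw [ae_all_iff]
    intro n
    filter_upwards [ae_norm_le (S n - v), coeFn_sub (S n) v] with t h2 h3
    rwa [h3] at h2
  filter_upwards [h1] with t ht
  rw [tendsto_iff_norm_sub_tendsto_zero]
  exact squeeze_zero (fun n => norm_nonneg _) ht (tendsto_iff_norm_sub_tendsto_zero.mp h)

lemma coeFn_pow (u : Li) (n : ℕ) : ⇑(u ^ n) =ᵐ[mu] fun t => (u t) ^ n := by
  induction n with
  | zero =>
    filter_upwards [coeFn_one] with t h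
    rw [pow_zero, pow_zero, h]
  | succ n ih =>
    rw [pow_succ]
    filter_upwards [ih, coeFn_mul (u ^ n) u] with t h1 h2
    rw [h2, h1, pow_succ]

/-- polynomial sums in `Li` pointwise -/
lemma coeFn_poly (u : Li) (c : ℕ → ℂ) (n : ℕ) :
    ⇑(∑ k ∈ Finset.range n, c k • u ^ k) =ᵐ[mu] fun t => ∑ k ∈ Finset.range n, c k * (u t) ^ k := by
  induction n with
  | zero =>
    filter_upwards [Lp.coeFn_zero ℂ ⊤ mu] with t h
    simp only [Finset.range_zero, Finset.sum_empty]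
    rw [h]; rfl
  | succ n ih =>
    rw [Finset.sum_range_succ]
    filter_upwards [ih, coeFn_add (∑ k ∈ Finset.range n, c k • u ^ k) (c n • u ^ n),
      coeFn_smul (c n) (u ^ n), coeFn_pow u n] with t h1 h2 h3 h4
    rw [h2, h1, h3, h4, Finset.sum_range_succ]

/-- power series in `Li` pointwise -/
lemma coeFn_series (u v : Li) (c : ℕ → ℂ) (h : HasSum (fun k => c k • u ^ k) v) :
    ∀ᵐ t ∂mu, Tendsto (fun n => ∑ k ∈ Finset.range n, c k * (u t) ^ k) atTop (𝓝 (v t)) := by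
  have h1 := ae_tendsto h.tendsto_sum_nat
  have h2 : ∀ᵐ t ∂mu, ∀ n, (∑ k ∈ Finset.range n, c k • u ^ k : Li) t =
      ∑ k ∈ Finset.range n, c k * (u t) ^ k := by
    rw [ae_all_iff]
    exact fun n => coeFn_poly u c n
  filter_upwards [h1, h2] with t h3 h4
  exact h3.congr h4

lemma coeFn_exp (u : Li) : ⇑(NormedSpace.exp u) =ᵐ[mu] fun t => Complex.exp (u t) := by
  have h1 : HasSum (fun k => ((k.factorial : ℂ)⁻¹) • u ^ k) (NormedSpace.exp u) :=
    NormedSpace.exp_series_hasSum_exp' (𝕂 := ℂ) u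
  filter_upwards [coeFn_series u _ _ h1] with t h2
  have h3 : HasSum (fun k => ((k.factorial : ℂ)⁻¹) • (u t) ^ k) (NormedSpace.exp (u t)) :=
    NormedSpace.exp_series_hasSum_exp' (𝕂 := ℂ) (u t)
  rw [Complex.exp_eq_exp_ℂ]
  exact tendsto_nhds_unique h2 h3.tendsto_sum_nat

end Pool.Agent.Helper406.Toep
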