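import Pool.Agent.Helper406.ToepSpec

open MeasureTheory AddCircle Filter Topology
open scoped ComplexConjugate ENNReal NNReal

namespace Pool.Agent.Helper406.Toep

open Hardy

lemma summable_pow {A : Type} [NormedCommRing A] [NormedAlgebra ℂ A] [CompleteSpace A] {q : A}
    (hq : spectralRadius ℂ q < 1) : Summable (fun n : ℕ => ‖q ^ n‖) := by
  obtain ⟨r, hr1, hr2⟩ := ENNReal.lt_iff_exists_nnreal_btwn.mp hq
  have h1 := spectrum.pow_nnnorm_pow_one_div_tendsto_nhds_spectralRadius q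
  have h2 := h1.eventually_lt_const hr1
  have hr2' : (r : ℝ) < 1 := by exact_mod_cast hr2
  apply (summable_geometric_of_lt_one r.2 hr2').of_norm_bounded_eventually_nat
  filter_upwards [h2, eventually_gt_atTop 0] with n hn hn0
  rw [norm_norm]
  have h3 : (‖q ^ n‖₊ : ℝ≥0∞) ≤ (r : ℝ≥0∞) ^ n := by
    have h4 : (n : ℝ) ≠ 0 := by exact_mod_cast hn0.ne'
    have h5 := ENNReal.rpow_le_rpow hn.le (Nat.cast_nonneg n)
    rw [← ENNReal.rpow_mul, one_div_mul_cancel h4, ENNReal.rpow_one, ENNReal.rpow_natCast] at h5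
    exact h5
  have h6 : ‖q ^ n‖₊ ≤ r ^ n := by exact_mod_cast h3
  exact_mod_cast h6

lemma exp_mem_of {S : Submodule ℂ Li} (hc : IsClosed (S : Set Li)) (h1 : (1 : Li) ∈ S)
    (hm : ∀ {u v : Li}, u ∈ S → v ∈ S → u * v ∈ S) {u : Li} (hu : u ∈ S) :
    NormedSpace.exp u ∈ S := by
  have h2 : HasSum (fun k => ((k.factorial : ℂ)⁻¹) • u ^ k) (NormedSpace.exp u) :=
    NormedSpace.exp_series_hasSum_exp' (𝕂 := ℂ) u
  have hpow : ∀ n : ℕ, u ^ n ∈ S := by
    intro n
    induction n with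
    | zero => rw [pow_zero]; exact h1
    | succ n ih => rw [pow_succ]; exact hm ih hu
  apply hc.mem_of_tendsto h2
  exact Eventually.of_forall fun s => S.sum_mem fun k _ => S.smul_mem _ (hpow k)

lemma one_mem_Hn : (1 : Li) ∈ Hn := by
  have := cj_mem_Hn one_mem_Hi
  rwa [← ex_zero, cj_ex, neg_zero, ex_zero] at this

/-- the logarithm -/
lemma exists_log {q : TL} (hq : ‖HL.sy q‖ < 1) :
    ∃ β : TL, NormedSpace.exp (HL.sy β) = 1 - HL.sy q := by
  have hr : spectralRadius ℂ q < 1 := by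
    refine lt_of_le_of_lt (spectralRadius_le q) ?_
    exact_mod_cast hq
  have hs := summable_pow hr
  set c : ℕ → ℂ := fun k => -(1 / (k : ℂ)) with hc
  have hsum : Summable (fun k => c k • q ^ k) := by
    apply Summable.of_norm_bounded hs
    intro k
    refine (norm_smul_le _ _).trans ?_
    have : ‖c k‖ ≤ 1 := by
      rw [hc]
      simp only [norm_neg, norm_div, norm_one, Complex.norm_natCast]
      rcases Nat.eq_zero_or_pos k with h | h
      · subst h; simp
      · rw [div_le_one (by exact_mod_cast h)]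
        exact_mod_cast h
    calc ‖c k‖ * ‖q ^ k‖ ≤ 1 * ‖q ^ k‖ := mul_le_mul_of_nonneg_right this (norm_nonneg _)
      _ = _ := one_mul _
  refine ⟨∑' k, c k • q ^ k, ?_⟩
  set β : TL := ∑' k, c k • q ^ k with hβ
  have h1 : HasSum (fun k => c k • q ^ k) β := hsum.hasSum
  have h2 : HasSum (fun k => c k • (HL.sy q) ^ k) (HL.sy β) := by
    have := h1.map HL.sy continuous_sy
    convert! this using 1
  apply Lp.ext
  filter_upwards [coeFn_series _ _ _ h2, coeFn_exp (HL.sy β), ae_norm_le (HL.sy q),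
    coeFn_sub 1 (HL.sy q), coeFn_one] with t h3 h4 h5 h6 h7
  have h8 : ‖HL.sy q t‖ < 1 := lt_of_le_of_lt h5 hq
  have h9 := (Complex.hasSum_taylorSeries_neg_log h8).neg
  have h10 : HasSum (fun k => c k * (HL.sy q t) ^ k) (Complex.log (1 - HL.sy q t)) := by
    rw [neg_neg] at h9
    convert! h9 using 1
    ext1 k
    rw [hc]
    ring
  have h11 := tendsto_nhds_unique h3 h10.tendsto_sum_nat
  rw [h4, h11, h6, h7, Complex.exp_log]
  intro h0
  have : HL.sy q t = 1 := (sub_eq_zero.mp h0).symm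
  rw [this, norm_one] at h8
  exact lt_irrefl _ h8

/-- invertibility of the Toeplitz operator with symbol `exp β` -/
lemma bijective_exp (β : TL) :
    (∀ F ∈ Hi, NormedSpace.exp (HL.sy β) * F ∈ Hm → F = 0) ∧
    (∀ F ∈ Hi, ∃ G ∈ Hi, NormedSpace.exp (HL.sy β) * G - F ∈ Hm) := by
  set a : Hi := Top β HL.oneP with ha
  set N : Li := HL.sy β - (a : Li) with hN
  have hNm : N ∈ Hm := (isT_Top β).sub_mem
  have hNn : N ∈ Hn := Hm_le_Hn hNm
  set nT : TL := β - mk (a : Li) (P_le_TTs a.2) with hnT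
  have hnTs : HL.sy nT = N := by rw [hnT, map_sub, sy_mk]
  set eN : TL := NormedSpace.exp (-nT) with heN
  have heNs : HL.sy eN = NormedSpace.exp (-N) := by rw [heN, sy_exp, map_neg, hnTs]
  have hb : NormedSpace.exp (HL.sy β) = NormedSpace.exp (a : Li) * NormedSpace.exp N := by
    rw [← exp_add', hN]; congr 1; abel
  have hea : NormedSpace.exp (a : Li) ∈ Hi := exp_mem_of isClosed_Hi one_mem_Hi mul_mem_Hi a.2
  have hea' : NormedSpace.exp (-(a : Li)) ∈ Hi :=
    exp_mem_of isClosed_Hi one_mem_Hi mul_mem_Hi (Hi.neg_mem a.2)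
  have heN1 : NormedSpace.exp N ∈ Hn := exp_mem_of isClosed_Hn one_mem_Hn mul_mem_Hn hNn
  have heN2 : NormedSpace.exp (-N) ∈ Hn :=
    exp_mem_of isClosed_Hn one_mem_Hn mul_mem_Hn (Hn.neg_mem hNn)
  have i1 : NormedSpace.exp (-(a : Li)) * NormedSpace.exp (a : Li) = 1 := exp_neg_mul' _
  have i2 : NormedSpace.exp (-N) * NormedSpace.exp N = 1 := exp_neg_mul' _
  constructor
  · intro F hF h
    have h1 := mul_mem_Hm heN2 h
    have h2 : NormedSpace.exp (-N) * (NormedSpace.exp (HL.sy β) * F) =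
        NormedSpace.exp (a : Li) * F := by
      rw [hb]
      linear_combination (NormedSpace.exp (a : Li) * F) * i2
    rw [h2] at h1
    have h3 := Hi_inter_Hm (mul_mem_Hi hea hF) h1
    calc F = (NormedSpace.exp (-(a : Li)) * NormedSpace.exp (a : Li)) * F := by rw [i1, one_mul]
      _ = NormedSpace.exp (-(a : Li)) * (NormedSpace.exp (a : Li) * F) := by ring
      _ = 0 := by rw [h3, mul_zero]
  · intro F hF
    set F' : Hi := Top eN ⟨F, hF⟩ with hF'
    refine ⟨NormedSpace.exp (-(a : Li)) * F', mul_mem_Hi hea' F'.2, ?_⟩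
    have h1 : HL.sy eN * F - (F' : Li) ∈ Hm := isT_Top eN ⟨F, hF⟩
    rw [heNs] at h1
    have h2 := Hm.neg_mem (mul_mem_Hm heN1 h1)
    convert h2 using 1
    rw [hb]
    linear_combination (NormedSpace.exp N * (F' : Li)) * i1 + F * i2

/-- **Invertibility outside the disc of radius `‖f‖`.** -/
theorem bijective_of_lt (f : TL) {c : ℂ} (hc : ‖HL.sy f‖ < ‖c‖) :
    (∀ F ∈ Hi, (HL.sy f - c • 1) * F ∈ Hm → F = 0) ∧
    (∀ F ∈ Hi, ∃ G ∈ Hi, (HL.sy f - c • 1) * G - F ∈ Hm) := by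
  have hc0 : c ≠ 0 := by
    intro h
    rw [h, norm_zero] at hc
    exact absurd hc (not_lt.mpr (norm_nonneg _))
  have hcn : 0 < ‖c‖ := norm_pos_iff.mpr hc0
  have hq : ‖HL.sy (c⁻¹ • f)‖ < 1 := by
    rw [map_smul, norm_smul, norm_inv, inv_mul_eq_div, div_lt_one hcn]
    exact hc
  obtain ⟨β, hβ⟩ := exists_log hq
  obtain ⟨h1, h2⟩ := bijective_exp β
  rw [hβ] at h1 h2
  have e : HL.sy f - c • 1 = (-c) • (1 - HL.sy (c⁻¹ • f)) := by
    rw [map_smul, neg_smul, smul_sub, smul_inv_smul₀ hc0]; abel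
  rw [e]
  constructor
  · intro F hF h
    apply h1 F hF
    have := Hm.smul_mem (-c)⁻¹ h
    rwa [smul_mul_assoc, inv_smul_smul₀ (neg_ne_zero.mpr hc0)] at this
  · intro F hF
    obtain ⟨G, hG, hG2⟩ := h2 F hF
    refine ⟨(-c)⁻¹ • G, Hi.smul_mem _ hG, ?_⟩
    rwa [smul_mul_assoc, mul_smul_comm, smul_inv_smul₀ (neg_ne_zero.mpr hc0)]

end Pool.Agent.Helper406.Toep
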