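import Pool.Agent.Helper406.ToepBasic

open MeasureTheory AddCircle Filter Topology
open scoped ComplexConjugate ENNReal

namespace Pool.Agent.Helper406.Toep

abbrev CC : Type := C(UnitAddCircle, ℂ)

noncomputable def zz : CC := fourier 1
noncomputable def zb : CC := fourier (-1)

lemma zz_mul_zb : zz * zb = 1 := by
  ext t
  simp only [zz, zb, ContinuousMap.mul_apply, ContinuousMap.one_apply]
  rw [← fourier_add]; simp

lemma norm_zb : ‖zb‖ = 1 := fourier_norm _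
lemma norm_zz : ‖zz‖ = 1 := fourier_norm _

lemma zb_apply (t : UnitAddCircle) : zb t = conj (zz t) := by
  simp only [zz, zb]; rw [fourier_neg]

lemma norm_zz_apply (t : UnitAddCircle) : ‖zz t‖ = 1 := by
  simp only [zz, fourier_one]
  exact Circle.norm_coe _

lemma zz_mul_conj (t : UnitAddCircle) : zz t * conj (zz t) = 1 := by
  rw [RCLike.mul_conj, norm_zz_apply]; simp

/-- Cauchy kernel `1 / (1 - w z̄)` -/
noncomputable def KK (w : ℂ) : CC := Ring.inverse (1 - w • zb)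

lemma norm_smul_zb (w : ℂ) : ‖w • zb‖ = ‖w‖ := by rw [norm_smul, norm_zb, mul_one]

lemma KK_isUnit {w : ℂ} (hw : ‖w‖ < 1) : IsUnit (1 - w • zb) :=
  isUnit_one_sub_of_norm_lt_one (by rwa [norm_smul_zb])

lemma KK_mul {w : ℂ} (hw : ‖w‖ < 1) : KK w * (1 - w • zb) = 1 :=
  Ring.inverse_mul_cancel _ (KK_isUnit hw)

lemma KK_apply {w : ℂ} (hw : ‖w‖ < 1) (t : UnitAddCircle) :
    KK w t * (1 - w * conj (zz t)) = 1 := by
  have h := congrArg (fun f : CC => f t) (KK_mul hw)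
  simpa [zb_apply] using h

lemma KK_apply' {w : ℂ} (hw : ‖w‖ < 1) (t : UnitAddCircle) :
    KK w t = (1 - w * conj (zz t))⁻¹ := eq_inv_of_mul_eq_one_left (KK_apply hw t)

lemma hasDerivAt_KK {w : ℂ} (hw : ‖w‖ < 1) : HasDerivAt KK (KK w * zb * KK w) w := by
  obtain ⟨x, hx⟩ := KK_isUnit hw
  have h1 := hasFDerivAt_ringInverse (𝕜 := ℂ) x
  have h2 : HasDerivAt (fun w : ℂ => (1 : CC) - w • zb) (-((1 : ℂ) • zb)) w :=
    ((hasDerivAt_id w).smul_const zb).const_sub 1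
  rw [hx] at h1
  have h3 := h1.comp_hasDerivAt w h2
  have h4 : KK w = ↑x⁻¹ := by
    unfold KK; rw [← hx, Ring.inverse_unit]
  rw [h4]
  convert! h3 using 1
  rw [neg_apply, ContinuousLinearMap.mulLeftRight_apply, one_smul]
  ring

lemma KK_zero : KK 0 = 1 := by
  have h : (0 : ℂ) • zb = 0 := by ext t; simp
  unfold KK; rw [h, sub_zero, Ring.inverse_one]

/-- recursion for the kernel -/
lemma KK_rec {w : ℂ} (hw : ‖w‖ < 1) : KK w = 1 + w • (zb * KK w) := by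
  have h := KK_mul hw
  have e : KK w * (1 - w • zb) = KK w - w • (zb * KK w) := by
    rw [mul_sub, mul_one, mul_smul_comm, mul_comm (KK w) zb]
  rw [e] at h
  rw [← h]; abel

lemma jj_zz : jj zz = ex 1 := rfl
lemma jj_zb : jj zb = ex (-1) := rfl

lemma jj_KK_mem {w : ℂ} (hw : ‖w‖ < 1) : jj (KK w) ∈ Hn := by
  have hrec : jj (KK w) = 1 + w • (ex (-1) * jj (KK w)) := by
    conv_lhs => rw [KK_rec hw]
    rw [map_add, map_smul, jj_mul, jj_one, jj_zb]
  have hco : ∀ n : ℤ, 0 < n → co n (jj (KK w)) = w * co (n + 1) (jj (KK w)) := by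
    intro n hn
    conv_lhs => rw [hrec]
    rw [map_add, map_smul, co_ex_mul, ← ex_zero, co_ex, if_neg (by omega)]
    simp
  intro n hn
  have hpow : ∀ j : ℕ, co n (jj (KK w)) = w ^ j * co (n + j) (jj (KK w)) := by
    intro j
    induction j with
    | zero => simp
    | succ j ih =>
      rw [ih, hco (n + j) (by omega), pow_succ]
      push_cast
      ring_nf
  have hbound : ∀ j : ℕ, ‖co n (jj (KK w))‖ ≤ ‖w‖ ^ j * ‖jj (KK w)‖ := by
    intro j
    rw [hpow j, norm_mul, norm_pow]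
    gcongr
    exact norm_co_le _ _
  have hlim : Tendsto (fun j : ℕ => ‖w‖ ^ j * ‖jj (KK w)‖) atTop (𝓝 (0 * ‖jj (KK w)‖)) :=
    (tendsto_pow_atTop_nhds_zero_of_lt_one (norm_nonneg _) hw).mul_const _
  rw [zero_mul] at hlim
  have := ge_of_tendsto' hlim hbound
  exact norm_le_zero_iff.mp this

lemma star_eq_cj (g : CC) : jj (star g) = cj (jj g) := by
  apply Lp.ext
  filter_upwards [coeFn_cj (jj g), coeFn_jj g, coeFn_jj (star g)] with t h1 h2 h3
  rw [h1, h2, h3]; rfl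

lemma jj_star_KK_mem {w : ℂ} (hw : ‖w‖ < 1) : jj (star (KK w)) ∈ Hi := by
  rw [star_eq_cj]; exact cj_mem_Hi (jj_KK_mem hw)

/-- evaluation at `w` -/
noncomputable def ev (w : ℂ) : Li →L[ℂ] ℂ := integL ∘L (ContinuousLinearMap.mul ℂ Li (jj (KK w)))

lemma ev_def (w : ℂ) (u : Li) : ev w u = integL (jj (KK w) * u) := rfl

lemma integL_eq_co (u : Li) : integL u = co 0 u := by
  rw [co_def, neg_zero, ex_zero, one_mul]

lemma integL_Hm {u : Li} (hu : u ∈ Hm) : integL u = 0 := by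
  rw [integL_eq_co]; exact hu 0 le_rfl

lemma integL_ex_mul_Hi {u : Li} (hu : u ∈ Hi) : integL (ex 1 * u) = 0 := by
  rw [integL_eq_co, co_ex_mul]; exact hu _ (by norm_num)

lemma ev_Hm {w : ℂ} (hw : ‖w‖ < 1) {u : Li} (hu : u ∈ Hm) : ev w u = 0 :=
  integL_Hm (mul_mem_Hm (jj_KK_mem hw) hu)

lemma ev_congr {w : ℂ} (hw : ‖w‖ < 1) {u v : Li} (h : ∀ n : ℤ, 0 ≤ n → co n u = co n v) :
    ev w u = ev w v := by
  rw [← sub_eq_zero, ← map_sub]
  apply ev_Hm hw
  intro n hn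
  rw [map_sub, h n hn, sub_self]

/-- `(z - w) K_w = z` -/
lemma KK_sub {w : ℂ} (hw : ‖w‖ < 1) : KK w * (zz - w • 1) = zz := by
  have h := KK_mul hw
  have e : zz - w • (1 : CC) = (1 - w • zb) * zz := by
    rw [sub_mul, one_mul, smul_mul_assoc, mul_comm zb zz, zz_mul_zb]
  rw [e, ← mul_assoc, h, one_mul]

lemma ev_sub_mul {w : ℂ} (hw : ‖w‖ < 1) {F : Li} (hF : F ∈ Hi) :
    ev w ((ex 1 - w • 1) * F) = 0 := by
  rw [ev_def, ← mul_assoc]
  have : jj (KK w) * (ex 1 - w • 1) = ex 1 := by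
    rw [← jj_zz, ← jj_one, ← map_smul, ← map_sub, ← jj_mul, KK_sub hw]
  rw [this, integL_ex_mul_Hi hF]

lemma ev_ex_mul {w : ℂ} (hw : ‖w‖ < 1) {F : Li} (hF : F ∈ Hi) :
    ev w (ex 1 * F) = w * ev w F := by
  have h := ev_sub_mul hw hF
  rw [sub_mul, map_sub, smul_mul_assoc, one_mul, map_smul, sub_eq_zero, smul_eq_mul] at h
  exact h

lemma ev_one {w : ℂ} (hw : ‖w‖ < 1) : ev w 1 = 1 := by
  rw [ev_def, mul_one, KK_rec hw, map_add, map_add, map_smul, map_smul, jj_one, integL_one, jj_mul,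
    jj_zb, integL_Hm, smul_zero, add_zero]
  rw [mul_comm]
  apply mul_mem_Hm (jj_KK_mem hw)
  intro n hn
  rw [co_ex, if_neg (by omega)]

/-- difference quotient -/
noncomputable def dq (w : ℂ) (F : Li) : Li := ex (-1) * (jj (KK w) * (F - ev w F • 1))

lemma mul_dq {w : ℂ} (hw : ‖w‖ < 1) (F : Li) : (ex 1 - w • 1) * dq w F = F - ev w F • 1 := by
  unfold dq
  have h : jj (KK w) * (ex 1 - w • 1) = ex 1 := by
    rw [← jj_zz, ← jj_one, ← map_smul, ← map_sub, ← jj_mul, KK_sub hw]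
  have h2 : ex 1 * ex (-1) = 1 := by rw [ex_mul]; simp [ex_zero]
  calc (ex 1 - w • 1) * (ex (-1) * (jj (KK w) * (F - ev w F • 1)))
      = (jj (KK w) * (ex 1 - w • 1)) * ex (-1) * (F - ev w F • 1) := by ring
    _ = _ := by rw [h, h2, one_mul]

lemma dq_mem {w : ℂ} (hw : ‖w‖ < 1) {F : Li} (hF : F ∈ Hi) : dq w F ∈ Hi := by
  set G := F - ev w F • (1 : Li) with hG
  have hGm : G ∈ Hi := Hi.sub_mem hF (Hi.smul_mem _ one_mem_Hi)
  have hG0 : ev w G = 0 := by
    rw [hG, map_sub, map_smul, ev_one hw]; simp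
  have key : ∀ j : ℕ, ev w (ex j * G) = 0 ∧ ex j * G ∈ Hi := by
    intro j
    induction j with
    | zero => simp [ex_zero, hG0, hGm]
    | succ j ih =>
      have e : ex ((j + 1 : ℕ) : ℤ) * G = ex 1 * (ex j * G) := by
        rw [← mul_assoc, ex_mul]; congr 2; push_cast; ring
      rw [e]
      refine ⟨?_, mul_mem_Hi (ex_mem_Hi (by norm_num)) ih.2⟩
      rw [ev_ex_mul hw ih.2, ih.1, mul_zero]
  intro n hn
  obtain ⟨j, hj⟩ : ∃ j : ℕ, (j : ℤ) = -(n + 1) := ⟨(-(n + 1)).toNat, by omega⟩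
  have h := (key j).1
  unfold dq
  rw [co_ex_mul, co_def]
  have e : n - -1 = -(j : ℤ) := by omega
  rw [e, neg_neg]
  rw [ev_def] at h
  rw [← h]
  congr 1
  ring

lemma ev_mul {w : ℂ} (hw : ‖w‖ < 1) {F G : Li} (hF : F ∈ Hi) (hG : G ∈ Hi) :
    ev w (F * G) = ev w F * ev w G := by
  have h1 : F = (ex 1 - w • 1) * dq w F + ev w F • 1 := by rw [mul_dq hw]; abel
  have h2 : F * G = (ex 1 - w • 1) * (dq w F * G) + ev w F • G := by
    conv_lhs => rw [h1]
    rw [add_mul, smul_mul_assoc, one_mul, mul_assoc]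
  rw [h2, map_add, ev_sub_mul hw (mul_mem_Hi (dq_mem hw hF) hG), map_smul, zero_add, smul_eq_mul]

end Pool.Agent.Helper406.Toep
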