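import Pool.Agent.Helper406.ToepInv

open MeasureTheory AddCircle Filter Topology
open scoped ComplexConjugate ENNReal NNReal

namespace Pool.Agent.Helper406.Toep

open Hardy

lemma norm_two_le (u : Li) : ‖two u‖ ≤ ‖u‖ := by
  have h1 : (inner ℂ (two u) (two u) : ℂ) = integL (cj u * u) := two_inner u u
  have h2 : ‖integL (cj u * u)‖ ≤ ‖u‖ * ‖u‖ := by
    refine (norm_integ_le _).trans ((_root_.norm_mul_le _ _).trans ?_)
    rw [norm_cj]
  rw [← h1, inner_self_eq_norm_sq_to_K, norm_pow, RCLike.norm_ofReal, abs_norm] at h2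
  nlinarith [norm_nonneg (two u), norm_nonneg u]

lemma weak_tendsto {e : ℕ → Li} {B : ℝ} (hB : ∀ n, ‖e n‖ ≤ B) {u : Li}
    (h : ∀ m, Tendsto (fun n => co m (e n)) atTop (𝓝 (co m u))) (g : Li) :
    Tendsto (fun n => integL (g * e n)) atTop (𝓝 (integL (g * u))) := by
  have hB0 : 0 ≤ B := (norm_nonneg _).trans (hB 0)
  set F : ℕ → Lp ℂ 2 mu → ℂ := fun n x => inner ℂ x (two (e n)) with hF
  have hLip : ∀ n, LipschitzWith (Real.toNNReal B) (F n) := by
    intro n
    apply LipschitzWith.of_dist_le_mul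
    intro x y
    rw [dist_eq_norm, dist_eq_norm, hF]
    simp only
    rw [← inner_sub_left, Real.coe_toNNReal _ hB0]
    refine (norm_inner_le_norm _ _).trans ?_
    rw [mul_comm]
    exact mul_le_mul_of_nonneg_right ((norm_two_le _).trans (hB n)) (norm_nonneg _)
  have heq : Equicontinuous F := (LipschitzWith.uniformEquicontinuous F _ hLip).equicontinuous
  have hcont : Continuous fun x : Lp ℂ 2 mu => (inner ℂ x (two u) : ℂ) :=
    continuous_id.inner continuous_const
  have hclosed := heq.isClosed_setOfPred_tendsto (l := atTop) hcont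
  have hspan : ∀ x ∈ Submodule.span ℂ (Set.range (fourierBasis (T := (1 : ℝ)))),
      Tendsto (F · x) atTop (𝓝 (inner ℂ x (two u))) := by
    intro x hx
    induction hx using Submodule.span_induction with
    | mem x hx =>
      obtain ⟨m, rfl⟩ := hx
      have := h m
      simp only [hF]
      simp_rw [two_coeff]
      exact this
    | zero => simp [hF]
    | add x y _ _ hx hy =>
      simp only [hF, inner_add_left]
      exact hx.add hy
    | smul c x _ hx =>
      simp only [hF, inner_smul_left]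
      exact hx.const_mul _
  have hall : ∀ x, Tendsto (F · x) atTop (𝓝 (inner ℂ x (two u))) := by
    intro x
    have h1 : x ∈ (Submodule.span ℂ (Set.range (fourierBasis (T := (1 : ℝ))))).topologicalClosure := by
      rw [HilbertBasis.dense_span]; trivial
    exact closure_minimal hspan hclosed h1
  have h2 := hall (two (cj g))
  simp only [hF, two_inner, cj_cj] at h2
  exact h2

lemma norm_pow_eq (u : Li) (k : ℕ) : ‖u‖ ^ k ≤ ‖u ^ k‖ := by
  rcases Nat.eq_zero_or_pos k with hk | hk
  · subst hk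
    rw [pow_zero, pow_zero]
    have := ev_one (w := 0) (by simp)
    have h2 : ‖ev 0 (1 : Li)‖ ≤ ‖(1 : Li)‖ := norm_ev_le (by simp) one_mem_Hi
    rw [this, norm_one] at h2
    exact h2
  · have h1 : ‖u‖ ≤ ‖u ^ k‖ ^ (1 / (k : ℝ)) := by
      apply norm_le_of_ae (by positivity)
      filter_upwards [ae_norm_le (u ^ k), coeFn_pow u k] with t h2 h3
      rw [h3, norm_pow] at h2
      have hk' : (k : ℝ) ≠ 0 := by exact_mod_cast hk.ne'
      have h4 := Real.rpow_le_rpow (by positivity) h2 (z := 1 / (k : ℝ)) (by positivity)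
      rwa [← Real.rpow_natCast, ← Real.rpow_mul (norm_nonneg _), mul_one_div_cancel hk',
        Real.rpow_one] at h4
    have hk' : (k : ℝ) ≠ 0 := by exact_mod_cast hk.ne'
    calc ‖u‖ ^ k ≤ (‖u ^ k‖ ^ (1 / (k : ℝ))) ^ k := pow_le_pow_left₀ (norm_nonneg _) h1 k
      _ = ‖u ^ k‖ := by
        rw [← Real.rpow_natCast, ← Real.rpow_mul (norm_nonneg _), one_div_mul_cancel hk',
          Real.rpow_one]

/-- monomials as elements of `H^∞` -/
noncomputable def zn (n : ℕ) : HL.P := ⟨ex n, ex_mem_Hi (by positivity)⟩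

lemma norm_zn_le (n : ℕ) : ‖zn n‖ ≤ 1 := norm_ex _

section lower

variable (f : TL)

/-- the shifted iterates -/
noncomputable def sh (k n : ℕ) : Li := ex (-n) * ((((Top f) ^ k) (zn n) : HL.P) : Li)

lemma norm_sh_le (k n : ℕ) : ‖sh f k n‖ ≤ ‖(Top f) ^ k‖ := by
  unfold sh
  refine (_root_.norm_mul_le _ _).trans ?_
  have h1 : ‖(((Top f) ^ k) (zn n) : HL.P)‖ ≤ ‖(Top f) ^ k‖ * ‖zn n‖ :=
    ((Top f) ^ k).le_opNorm _
  have h2 : ‖((((Top f) ^ k) (zn n) : HL.P) : Li)‖ ≤ ‖(Top f) ^ k‖ := by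
    refine h1.trans ?_
    calc ‖(Top f) ^ k‖ * ‖zn n‖ ≤ ‖(Top f) ^ k‖ * 1 :=
          mul_le_mul_of_nonneg_left (norm_zn_le n) (norm_nonneg ((Top f) ^ k))
      _ = _ := mul_one _
  calc ‖ex (-n)‖ * ‖((((Top f) ^ k) (zn n) : HL.P) : Li)‖
      ≤ 1 * ‖(Top f) ^ k‖ := by
        apply mul_le_mul (norm_ex _) h2 (norm_nonneg _) zero_le_one
    _ = _ := one_mul _

lemma tendsto_sh (k : ℕ) : ∀ m : ℤ,
    Tendsto (fun n : ℕ => co m (sh f k n)) atTop (𝓝 (co m ((HL.sy f) ^ k))) := by
  induction k with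
  | zero =>
    intro m
    have : (fun n : ℕ => co m (sh f 0 n)) = fun _ => co m (1 : Li) := by
      ext n
      unfold sh
      rw [pow_zero]
      have : ((1 : HL.P →L[ℂ] HL.P) (zn n) : HL.P) = zn n := rfl
      rw [this]
      have h2 : ((zn n : HL.P) : Li) = ex n := rfl
      rw [h2, ex_mul, neg_add_cancel, ex_zero]
    rw [this, pow_zero]
    exact tendsto_const_nhds
  | succ k ih =>
    intro m
    have h1 := weak_tendsto (norm_sh_le f k) ih (ex (-m) * HL.sy f)
    have e1 : integL (ex (-m) * HL.sy f * (HL.sy f) ^ k) = co m ((HL.sy f) ^ (k + 1)) := by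
      rw [co_def, pow_succ]
      congr 1
      ring
    rw [e1] at h1
    refine h1.congr' ?_
    filter_upwards [eventually_ge_atTop (-m).toNat] with n hn
    have hn' : 0 ≤ m + n := by omega
    set F : HL.P := ((Top f) ^ k) (zn n) with hF
    have h2 : ((Top f) ^ (k + 1)) (zn n) = Top f F := by rw [pow_succ']; rfl
    have h3 : HL.sy f * (F : Li) - ((Top f F : HL.P) : Li) ∈ Hm := isT_Top f F
    have h4 := h3 (m + n) hn'
    rw [map_sub, sub_eq_zero] at h4
    have h5 : co m (sh f (k + 1) n) = co (m + n) ((Top f F : HL.P) : Li) := by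
      unfold sh
      rw [h2, co_ex_mul, sub_neg_eq_add]
    rw [h5, ← h4]
    have h6 : co (m + n) (HL.sy f * (F : Li)) = co m (ex (-n) * (HL.sy f * (F : Li))) := by
      rw [co_ex_mul, sub_neg_eq_add]
    rw [h6, co_def]
    unfold sh
    congr 1
    ring

/-- **lower bound for the powers** -/
theorem pow_le (k : ℕ) : ‖HL.sy f‖ ^ k ≤ ‖(Top f) ^ k‖ := by
  refine (norm_pow_eq _ _).trans ?_
  apply norm_le_of_pair (norm_nonneg ((Top f) ^ k))
  intro g
  have h1 := (weak_tendsto (norm_sh_le f k) (tendsto_sh f k) g).norm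
  rw [mul_comm]
  refine le_of_tendsto h1 (Eventually.of_forall fun n => ?_)
  rw [integL_apply, ← integral_const_mul]
  apply norm_integral_le_of_norm_le ((integrable g).norm.const_mul _)
  filter_upwards [coeFn_mul g (sh f k n), ae_norm_le (sh f k n)] with t h2 h3
  rw [h2, norm_mul, mul_comm]
  exact mul_le_mul_of_nonneg_right (h3.trans (norm_sh_le f k n)) (norm_nonneg _)

end lower

end Pool.Agent.Helper406.Toep
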