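import Pool.Agent.Helper406.ToepEnergy

open MeasureTheory AddCircle Filter Topology
open scoped ComplexConjugate ENNReal

namespace Pool.Agent.Helper406.Toep

lemma exp_bound (θ : ℝ) : ‖Complex.exp (Complex.I * θ) - 1 - Complex.I * θ‖ ≤ 2 * θ ^ 2 := by
  have hn : ‖Complex.I * (θ : ℂ)‖ = |θ| := by
    rw [norm_mul, Complex.norm_I, one_mul, Complex.norm_real, Real.norm_eq_abs]
  rcases le_total |θ| 1 with h | h
  · have h1 := Complex.norm_exp_sub_one_sub_id_le (x := Complex.I * θ) (by rw [hn]; exact h)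
    rw [hn, sq_abs] at h1
    nlinarith [sq_nonneg θ]
  · have h1 : ‖Complex.exp (Complex.I * θ) - 1‖ ≤ |θ| := by
      have := Real.norm_exp_I_mul_ofReal_sub_one_le (x := θ)
      simpa using this
    have h2 : ‖Complex.exp (Complex.I * θ) - 1 - Complex.I * θ‖ ≤ |θ| + |θ| := by
      refine (norm_sub_le _ _).trans ?_
      rw [hn]
      linarith
    have h3 : |θ| ≤ θ ^ 2 := by
      rw [← sq_abs]; nlinarith [abs_nonneg θ]
    linarith

section main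

variable {ζ : ℂ} (hζ : ‖ζ‖ < 1)
include hζ

lemma hasDerivAt_path (u : Li) {r : ℝ} (hr : r ∈ Set.uIcc (0 : ℝ) 1) :
    HasDerivAt (fun r : ℝ => ev (r * ζ) u) (ζ * dv (r * ζ) u) r := by
  have h1 : HasDerivAt (fun r : ℝ => (r : ℂ) * ζ) ζ r := by
    have := (Complex.ofRealCLM.hasDerivAt (x := r)).mul_const ζ
    simpa using this
  have h2 := (hasDerivAt_ev (norm_path hζ hr) u).scomp r h1
  exact h2

omit hζ in
/-- the exponent along the path -/
noncomputable def ur (ζ : ℂ) (h : Li) (r : ℝ) : ℂ := ev (r * ζ) h + conj (ev (r * ζ) h)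

omit hζ in
noncomputable def Er (s : ℝ) (ζ : ℂ) (h : Li) (r : ℝ) : ℂ := Complex.exp (Complex.I * s * ur ζ h r)

omit hζ in
noncomputable def Br (s : ℝ) (ζ : ℂ) (h F : Li) (r : ℝ) : ℂ :=
  ev (r * ζ) F + Complex.I * s * (ev (r * ζ) (cj h * F) - conj (ev (r * ζ) h) * ev (r * ζ) F)

omit hζ in
noncomputable def ud (ζ : ℂ) (h : Li) (r : ℝ) : ℂ := ζ * dv (r * ζ) h + conj (ζ * dv (r * ζ) h)

omit hζ in
noncomputable def Bd (s : ℝ) (ζ : ℂ) (h F : Li) (r : ℝ) : ℂ :=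
  ζ * dv (r * ζ) F + Complex.I * s * (ζ * dv (r * ζ) (cj h * F) -
    (conj (ζ * dv (r * ζ) h) * ev (r * ζ) F + conj (ev (r * ζ) h) * (ζ * dv (r * ζ) F)))

omit hζ in
noncomputable def Jr (s : ℝ) (ζ : ℂ) (h F v : Li) (r : ℝ) : ℂ :=
  ev (r * ζ) (v * F) - Er s ζ h r * Br s ζ h F r

omit hζ in
noncomputable def Jd (s : ℝ) (ζ : ℂ) (h F v : Li) (r : ℝ) : ℂ :=
  ζ * dv (r * ζ) (v * F) -
    (Er s ζ h r * (Complex.I * s * ud ζ h r) * Br s ζ h F r + Er s ζ h r * Bd s ζ h F r)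

lemma hasDerivAt_ur (h : Li) {r : ℝ} (hr : r ∈ Set.uIcc (0 : ℝ) 1) :
    HasDerivAt (ur ζ h) (ud ζ h r) r := by
  have h1 := hasDerivAt_path hζ h hr
  have h2 := h1.star
  exact h1.add h2

lemma hasDerivAt_Er (s : ℝ) (h : Li) {r : ℝ} (hr : r ∈ Set.uIcc (0 : ℝ) 1) :
    HasDerivAt (Er s ζ h) (Er s ζ h r * (Complex.I * s * ud ζ h r)) r := by
  have h1 := (hasDerivAt_ur hζ h hr).const_mul (Complex.I * s)
  exact h1.cexp

lemma hasDerivAt_Br (s : ℝ) (h F : Li) {r : ℝ} (hr : r ∈ Set.uIcc (0 : ℝ) 1) :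
    HasDerivAt (Br s ζ h F) (Bd s ζ h F r) r := by
  have h1 := hasDerivAt_path hζ F hr
  have h2 := hasDerivAt_path hζ (cj h * F) hr
  have h3 := (hasDerivAt_path hζ h hr).star
  exact h1.add ((h2.sub (h3.mul h1)).const_mul (Complex.I * s))

lemma hasDerivAt_Jr (s : ℝ) (h F v : Li) {r : ℝ} (hr : r ∈ Set.uIcc (0 : ℝ) 1) :
    HasDerivAt (Jr s ζ h F v) (Jd s ζ h F v r) r := by
  have h1 := hasDerivAt_path hζ (v * F) hr
  exact h1.sub ((hasDerivAt_Er hζ s h hr).mul (hasDerivAt_Br hζ s h F hr))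

lemma continuousOn_Jd (s : ℝ) (h F v : Li) :
    ContinuousOn (Jd s ζ h F v) (Set.uIcc (0 : ℝ) 1) := by
  have e := continuousOn_ev hζ
  have d := continuousOn_dv hζ
  have hu : ContinuousOn (ur ζ h) (Set.uIcc (0 : ℝ) 1) :=
    (e h).add (Complex.continuous_conj.comp_continuousOn (e h))
  have hE : ContinuousOn (Er s ζ h) (Set.uIcc (0 : ℝ) 1) :=
    Complex.continuous_exp.comp_continuousOn (continuousOn_const.mul hu)
  have hud : ContinuousOn (ud ζ h) (Set.uIcc (0 : ℝ) 1) :=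
    (continuousOn_const.mul (d h)).add
      (Complex.continuous_conj.comp_continuousOn (continuousOn_const.mul (d h)))
  have hB : ContinuousOn (Br s ζ h F) (Set.uIcc (0 : ℝ) 1) :=
    (e F).add (continuousOn_const.mul ((e (cj h * F)).sub
      ((Complex.continuous_conj.comp_continuousOn (e h)).mul (e F))))
  have hBd : ContinuousOn (Bd s ζ h F) (Set.uIcc (0 : ℝ) 1) :=
    (continuousOn_const.mul (d F)).add (continuousOn_const.mul
      ((continuousOn_const.mul (d (cj h * F))).sub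
        (((Complex.continuous_conj.comp_continuousOn (continuousOn_const.mul (d h))).mul (e F)).add
          ((Complex.continuous_conj.comp_continuousOn (e h)).mul
            (continuousOn_const.mul (d F))))))
  exact (continuousOn_const.mul (d (v * F))).sub
    (((hE.mul (continuousOn_const.mul hud)).mul hB).add (hE.mul hBd))

omit hζ in
/-- the remainder -/
noncomputable def Rr (s : ℝ) (ζ : ℂ) (h v : Li) (r : ℝ) : Li :=
  (Er s ζ h r)⁻¹ • v - (1 + (Complex.I * s) • (h + cj h - ur ζ h r • 1))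

omit hζ in
lemma Er_ne (s : ℝ) (h : Li) (r : ℝ) : Er s ζ h r ≠ 0 := Complex.exp_ne_zero _

omit hζ in
lemma v_eq (s : ℝ) (h v : Li) (r : ℝ) :
    v = Er s ζ h r • (Rr s ζ h v r + (1 + (Complex.I * s) • (h + cj h - ur ζ h r • 1))) := by
  unfold Rr
  rw [sub_add_cancel, smul_smul, mul_inv_cancel₀ (Er_ne s h r), one_smul]

lemma Jd_eq (s : ℝ) {h F : Li} (hh : h ∈ Hi) (hF : F ∈ Hi) (v : Li) {r : ℝ}
    (hr : r ∈ Set.uIcc (0 : ℝ) 1) :
    Jd s ζ h F v r = Er s ζ h r * (ζ * dv (r * ζ) (Rr s ζ h v r * F) +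
      s ^ 2 * ud ζ h r * (ev (r * ζ) (cj h * F) - conj (ev (r * ζ) h) * ev (r * ζ) F)) := by
  have hw := norm_path hζ hr
  have h1 : dv (r * ζ) (v * F) = Er s ζ h r * (dv (r * ζ) (Rr s ζ h v r * F) + dv (r * ζ) F +
      Complex.I * s * (dv (r * ζ) (h * F) + dv (r * ζ) (cj h * F) - ur ζ h r * dv (r * ζ) F)) := by
    conv_lhs => rw [v_eq (ζ := ζ) s h v r]
    rw [smul_mul_assoc, map_smul, smul_eq_mul, add_mul, map_add, add_mul, one_mul, map_add,
      smul_mul_assoc, map_smul, sub_mul, add_mul, map_sub, map_add, smul_mul_assoc, one_mul,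
      map_smul, smul_eq_mul, smul_eq_mul]
    ring
  have h2 := dv_mul hw hh hF
  unfold Jd Br Bd
  rw [h1, h2]
  unfold ud ur
  have hI : Complex.I ^ 2 = -1 := Complex.I_sq
  simp only [map_mul]
  linear_combination (-(Er s ζ h r * s ^ 2 * (ζ * dv (r * ζ) h + conj ζ * conj (dv (r * ζ) h)) *
    (ev (r * ζ) (cj h * F) - conj (ev (r * ζ) h) * ev (r * ζ) F))) * hI

omit hζ in
lemma ur_real (h : Li) (r : ℝ) : ur ζ h r = ((2 * (ev (r * ζ) h).re : ℝ) : ℂ) := by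
  unfold ur
  rw [Complex.add_conj]

omit hζ in
lemma norm_Er (s : ℝ) (h : Li) (r : ℝ) : ‖Er s ζ h r‖ = 1 := by
  unfold Er
  rw [ur_real, Complex.norm_exp]
  simp

omit hζ in
lemma norm_R_le (s : ℝ) {h v : Li}
    (hv : ∀ᵐ t ∂mu, v t = Complex.exp (Complex.I * s * (h t + conj (h t)))) (r : ℝ) :
    ∀ᵐ t ∂mu, ‖Rr s ζ h v r t‖ ≤ 8 * s ^ 2 * ‖h t - ev (r * ζ) h‖ ^ 2 := by
  unfold Rr
  filter_upwards [hv, coeFn_sub ((Er s ζ h r)⁻¹ • v) (1 + (Complex.I * s) • (h + cj h - ur ζ h r • 1)),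
    coeFn_smul (Er s ζ h r)⁻¹ v, coeFn_add 1 ((Complex.I * s) • (h + cj h - ur ζ h r • 1)),
    coeFn_one, coeFn_smul (Complex.I * s) (h + cj h - ur ζ h r • 1),
    coeFn_sub (h + cj h) (ur ζ h r • 1), coeFn_add h (cj h), coeFn_cj h,
    coeFn_smul (ur ζ h r) 1] with t h1 h2 h3 h4 h5 h6 h7 h8 h9 h10
  rw [h2, h3, h4, h5, h6, h7, h8, h9, h10, h5, h1]
  set θ : ℝ := 2 * s * ((h t).re - (ev (r * ζ) h).re) with hθ
  have e1 : h t + conj (h t) - ur ζ h r * 1 = ((2 * ((h t).re - (ev (r * ζ) h).re) : ℝ) : ℂ) := by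
    rw [ur_real, Complex.add_conj]; push_cast; ring
  have e2 : Complex.I * s * (h t + conj (h t) - ur ζ h r * 1) = Complex.I * θ := by
    rw [e1, hθ]; push_cast; ring
  have e3 : (Er s ζ h r)⁻¹ * Complex.exp (Complex.I * s * (h t + conj (h t))) =
      Complex.exp (Complex.I * θ) := by
    unfold Er
    rw [← Complex.exp_neg, ← Complex.exp_add, ← e2]
    congr 1
    ring
  rw [e2, e3, ← sub_sub]
  refine (exp_bound θ).trans ?_
  have h11 : ((h t).re - (ev (r * ζ) h).re) ^ 2 ≤ ‖h t - ev (r * ζ) h‖ ^ 2 := by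
    rw [← Complex.sub_re, ← sq_abs]
    exact pow_le_pow_left₀ (abs_nonneg _) (Complex.abs_re_le_norm _) 2
  have : 2 * θ ^ 2 = 8 * s ^ 2 * ((h t).re - (ev (r * ζ) h).re) ^ 2 := by rw [hθ]; ring
  rw [this]
  gcongr

lemma norm_rho_le (s : ℝ) {h v : Li} (F : Li)
    (hv : ∀ᵐ t ∂mu, v t = Complex.exp (Complex.I * s * (h t + conj (h t)))) {r : ℝ}
    (hr : r ∈ Set.uIcc (0 : ℝ) 1) :
    ‖ζ * dv (r * ζ) (Rr s ζ h v r * F)‖ ≤ 8 * s ^ 2 * ‖F‖ * en ζ h r := by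
  have h0 : ‖dv (r * ζ) (Rr s ζ h v r * F)‖ ≤ 8 * s ^ 2 * ‖F‖ * en ζ h r := by
    rw [dv_def, integL_apply]
    unfold en
    rw [← integral_const_mul]
    apply norm_integral_le_of_norm_le
    · apply Integrable.const_mul
      set c := ev (r * ζ) h
      have hi := integrable (jj (star (KK (r * ζ)) * KK (r * ζ)) * ((h - c • 1) * cj (h - c • 1)))
      have hi2 := Integrable.re hi
      refine hi2.congr ?_
      filter_upwards [coeFn_star_mul (r * ζ) ((h - c • 1) * cj (h - c • 1)),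
        coeFn_mul (h - c • 1) (cj (h - c • 1)), coeFn_cj (h - c • 1), coeFn_sub h (c • 1),
        coeFn_smul c 1, coeFn_one] with t h1 h2 h3 h4 h5 h6
      rw [h1, h2, h3, h4, h5, h6, mul_one, RCLike.mul_conj]
      rw [mul_comm (‖h t - c‖ ^ 2)]
      have : (((‖KK (r * ζ) t‖ ^ 2 : ℝ) : ℂ) * (‖h t - c‖ : ℂ) ^ 2) =
        ((‖KK (r * ζ) t‖ ^ 2 * ‖h t - c‖ ^ 2 : ℝ) : ℂ) := by push_cast; ring
      exact (congrArg Complex.re this).trans (Complex.ofReal_re _)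
    · filter_upwards [coeFn_mul (jj (KK (r * ζ) * zb * KK (r * ζ))) (Rr s ζ h v r * F),
        coeFn_mul (Rr s ζ h v r) F, coeFn_jj (KK (r * ζ) * zb * KK (r * ζ)), norm_R_le s hv r,
        ae_norm_le F] with t h1 h2 h3 h4 h5
      rw [h1, h2, h3]
      simp only [ContinuousMap.mul_apply, norm_mul, norm_zb_apply, mul_one]
      calc ‖KK (r * ζ) t‖ * ‖KK (r * ζ) t‖ * (‖Rr s ζ h v r t‖ * ‖F t‖)
          ≤ ‖KK (r * ζ) t‖ * ‖KK (r * ζ) t‖ * ((8 * s ^ 2 * ‖h t - ev (r * ζ) h‖ ^ 2) * ‖F‖) := by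
            gcongr
        _ = _ := by ring
  rw [norm_mul]
  have h1 := norm_nonneg (dv (r * ζ) (Rr s ζ h v r * F))
  nlinarith [norm_nonneg ζ]

/-- the main estimate -/
lemma main_estimate {h : Li} (hh : h ∈ Hi) {A : ℝ} (hA0 : 0 ≤ A)
    (hA : ∀ w : ℂ, ‖w‖ < 1 → ∀ F ∈ Hi, ‖ev w (cj h * F)‖ ≤ A * ‖F‖) (s : ℝ) {v : Li}
    (hv : ∀ᵐ t ∂mu, v t = Complex.exp (Complex.I * s * (h t + conj (h t)))) {F : Li}
    (hF : F ∈ Hi) :
    ‖ev ζ (v * F)‖ ≤ (3 + 2 * |s| * (A + ‖h‖) +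
      s ^ 2 * (128 * A * ‖h‖ + 16 * A * (A + ‖h‖))) * ‖F‖ := by
  have hder : ∀ r ∈ Set.uIcc (0 : ℝ) 1, HasDerivAt (Jr s ζ h F v) (Jd s ζ h F v r) r :=
    fun r hr => hasDerivAt_Jr hζ s h F v hr
  have hFTC := intervalIntegral.integral_eq_sub_of_hasDerivAt hder
    (continuousOn_Jd hζ s h F v).intervalIntegrable
  obtain ⟨hen1, hen2⟩ := energy_le hζ hh (hA ζ hζ) hA0
  have hvar := variation_le hζ (hA ζ hζ) (h := h)
  have hg : ∀ r ∈ Set.uIcc (0 : ℝ) 1,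
      ‖ev (r * ζ) (cj h * F) - conj (ev (r * ζ) h) * ev (r * ζ) F‖ ≤ (A + ‖h‖) * ‖F‖ := by
    intro r hr
    have hw := norm_path hζ hr
    refine (norm_sub_le _ _).trans ?_
    rw [norm_mul, RCLike.norm_conj, add_mul]
    gcongr
    · exact hA _ hw F hF
    · exact norm_ev_le hw hh
    · exact norm_ev_le hw hF
  have hB : ∀ r ∈ Set.uIcc (0 : ℝ) 1, ‖Er s ζ h r * Br s ζ h F r‖ ≤
      (1 + |s| * (A + ‖h‖)) * ‖F‖ := by
    intro r hr
    have hw := norm_path hζ hr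
    rw [norm_mul, norm_Er, one_mul]
    unfold Br
    refine (norm_add_le _ _).trans ?_
    rw [norm_mul, norm_mul, Complex.norm_I, one_mul, Complex.norm_real, Real.norm_eq_abs, add_mul,
      one_mul, mul_assoc]
    gcongr
    · exact norm_ev_le hw hF
    · exact hg r hr
  have hJd : ∀ r ∈ Set.Icc (0 : ℝ) 1, ‖Jd s ζ h F v r‖ ≤ 8 * s ^ 2 * ‖F‖ * en ζ h r +
      2 * s ^ 2 * ((A + ‖h‖) * ‖F‖) * ‖dv (r * ζ) h‖ := by
    intro r hr
    rw [← Set.uIcc_of_le (zero_le_one (α := ℝ))] at hr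
    rw [Jd_eq hζ s hh hF v hr, norm_mul, norm_Er, one_mul]
    refine (norm_add_le _ _).trans ?_
    have h1 : ‖ud ζ h r‖ ≤ 2 * ‖dv (r * ζ) h‖ := by
      unfold ud
      refine (norm_add_le _ _).trans ?_
      rw [RCLike.norm_conj, norm_mul]
      nlinarith [norm_nonneg (dv (r * ζ) h), norm_nonneg ζ]
    gcongr
    · exact norm_rho_le hζ s F hv hr
    · rw [norm_mul, norm_mul, norm_pow, Complex.norm_real, Real.norm_eq_abs, sq_abs]
      calc s ^ 2 * ‖ud ζ h r‖ *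
            ‖ev (r * ζ) (cj h * F) - conj (ev (r * ζ) h) * ev (r * ζ) F‖
          ≤ s ^ 2 * (2 * ‖dv (r * ζ) h‖) * ((A + ‖h‖) * ‖F‖) := by
            gcongr
            exact hg r hr
        _ = _ := by ring
  have hint : ‖∫ r in (0 : ℝ)..1, Jd s ζ h F v r‖ ≤
      8 * s ^ 2 * ‖F‖ * (16 * A * ‖h‖) + 2 * s ^ 2 * ((A + ‖h‖) * ‖F‖) * (8 * A) := by
    have hdc : ContinuousOn (fun r : ℝ => ‖dv (r * ζ) h‖) (Set.uIcc (0 : ℝ) 1) :=
      (continuousOn_dv hζ h).norm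
    calc ‖∫ r in (0 : ℝ)..1, Jd s ζ h F v r‖
        ≤ ∫ r in (0 : ℝ)..1, ‖Jd s ζ h F v r‖ :=
          intervalIntegral.norm_integral_le_integral_norm zero_le_one
      _ ≤ ∫ r in (0 : ℝ)..1, (8 * s ^ 2 * ‖F‖ * en ζ h r +
            2 * s ^ 2 * ((A + ‖h‖) * ‖F‖) * ‖dv (r * ζ) h‖) := by
          apply intervalIntegral.integral_mono_on zero_le_one
          · exact (continuousOn_Jd hζ s h F v).norm.intervalIntegrable
          · exact (hen1.const_mul _).add (hdc.intervalIntegrable.const_mul _)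
          · exact hJd
      _ = 8 * s ^ 2 * ‖F‖ * (∫ r in (0 : ℝ)..1, en ζ h r) +
            2 * s ^ 2 * ((A + ‖h‖) * ‖F‖) * ∫ r in (0 : ℝ)..1, ‖dv (r * ζ) h‖ := by
          rw [intervalIntegral.integral_add (hen1.const_mul _) (hdc.intervalIntegrable.const_mul _),
            intervalIntegral.integral_const_mul, intervalIntegral.integral_const_mul]
      _ ≤ _ := by gcongr
  have h0 : ‖ev ((0 : ℝ) * ζ) (v * F)‖ ≤ ‖F‖ := by
    have e : ((0 : ℝ) : ℂ) * ζ = 0 := by simp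
    rw [e, ev_def, KK_zero, jj_one, one_mul]
    refine (norm_integ_le _).trans ?_
    refine (norm_mul_le _ _).trans ?_
    have : ‖v‖ ≤ 1 := by
      apply norm_le_of_ae zero_le_one
      filter_upwards [hv] with t ht
      rw [ht, Complex.add_conj, Complex.norm_exp]
      simp
    nlinarith [norm_nonneg F]
  have h1 : ev ζ (v * F) = (Jr s ζ h F v 1 - Jr s ζ h F v 0) + (ev ((0 : ℝ) * ζ) (v * F) -
      Er s ζ h 0 * Br s ζ h F 0) + Er s ζ h 1 * Br s ζ h F 1 := by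
    unfold Jr
    rw [Complex.ofReal_one, one_mul]
    ring
  rw [h1, ← hFTC]
  have hB0 := hB 0 (by simp)
  have hB1 := hB 1 (by simp)
  calc ‖(∫ r in (0 : ℝ)..1, Jd s ζ h F v r) + (ev ((0 : ℝ) * ζ) (v * F) -
      Er s ζ h 0 * Br s ζ h F 0) + Er s ζ h 1 * Br s ζ h F 1‖
      ≤ ‖∫ r in (0 : ℝ)..1, Jd s ζ h F v r‖ + (‖ev ((0 : ℝ) * ζ) (v * F)‖ +
        ‖Er s ζ h 0 * Br s ζ h F 0‖) + ‖Er s ζ h 1 * Br s ζ h F 1‖ := by
        refine (norm_add_le _ _).trans ?_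
        gcongr
        refine (norm_add_le _ _).trans ?_
        gcongr
        exact norm_sub_le _ _
    _ ≤ (8 * s ^ 2 * ‖F‖ * (16 * A * ‖h‖) + 2 * s ^ 2 * ((A + ‖h‖) * ‖F‖) * (8 * A)) +
        (‖F‖ + (1 + |s| * (A + ‖h‖)) * ‖F‖) + (1 + |s| * (A + ‖h‖)) * ‖F‖ := by
        gcongr
    _ = _ := by ring

end main

end Pool.Agent.Helper406.Toep
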