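import Pool.Agent.Helper406.ToepEval

open MeasureTheory AddCircle Filter Topology
open scoped ComplexConjugate ENNReal

namespace Pool.Agent.Helper406.Toep

/-- the derivative of the evaluation -/
noncomputable def dv (w : ℂ) : Li →L[ℂ] ℂ :=
  integL ∘L (ContinuousLinearMap.mul ℂ Li (jj (KK w * zb * KK w)))

lemma dv_def (w : ℂ) (u : Li) : dv w u = integL (jj (KK w * zb * KK w) * u) := rfl

/-- pairing of a bounded function with continuous functions -/
noncomputable def pr (u : Li) : CC →L[ℂ] ℂ := integL ∘L ((ContinuousLinearMap.mul ℂ Li).flip u) ∘L jj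

lemma pr_apply (u : Li) (g : CC) : pr u g = integL (jj g * u) := rfl

lemma hasDerivAt_ev {w : ℂ} (hw : ‖w‖ < 1) (u : Li) :
    HasDerivAt (fun w => ev w u) (dv w u) w :=
  (pr u).hasFDerivAt.comp_hasDerivAt w (hasDerivAt_KK hw)

lemma dv_Hm {w : ℂ} (hw : ‖w‖ < 1) {u : Li} (hu : u ∈ Hm) : dv w u = 0 := by
  rw [dv_def]
  apply integL_Hm
  rw [jj_mul, jj_mul]
  have h1 := mul_mem_Hm (jj_KK_mem hw) hu
  have h2 : jj zb ∈ Hn := by
    rw [jj_zb]; intro n hn; rw [co_ex, if_neg (by omega)]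
  have h3 := mul_mem_Hm (jj_KK_mem hw) (mul_mem_Hm h2 h1)
  rw [mul_assoc, mul_assoc]
  exact h3

lemma dv_congr {w : ℂ} (hw : ‖w‖ < 1) {u v : Li} (h : u - v ∈ Hm) : dv w u = dv w v := by
  rw [← sub_eq_zero, ← map_sub, dv_Hm hw h]

lemma ev_congr' {w : ℂ} (hw : ‖w‖ < 1) {u v : Li} (h : u - v ∈ Hm) : ev w u = ev w v := by
  rw [← sub_eq_zero, ← map_sub, ev_Hm hw h]

lemma dv_mul {w : ℂ} (hw : ‖w‖ < 1) {F G : Li} (hF : F ∈ Hi) (hG : G ∈ Hi) :
    dv w (F * G) = dv w F * ev w G + ev w F * dv w G := by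
  have h1 := hasDerivAt_ev hw (F * G)
  have h2 := (hasDerivAt_ev hw F).mul (hasDerivAt_ev hw G)
  refine h1.unique (h2.congr_of_eventuallyEq ?_)
  have : Metric.ball (0 : ℂ) 1 ∈ 𝓝 w := Metric.isOpen_ball.mem_nhds (by simpa using hw)
  filter_upwards [this] with x hx
  have hx' : ‖x‖ < 1 := by simpa using hx
  exact ev_mul hx' hF hG

/-- an elementary estimate -/
lemma real_int (d : ℝ) (hd : 0 < d) :
    ∫ r in (0 : ℝ)..1, 4 * d / ((1 - r) + d / 2) ^ 2 ≤ 8 := by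
  have hpos : ∀ r ∈ Set.uIcc (0 : ℝ) 1, 0 < (1 - r) + d / 2 := by
    intro r hr
    rw [Set.uIcc_of_le zero_le_one] at hr
    have := hr.2
    linarith
  have hder : ∀ r ∈ Set.uIcc (0 : ℝ) 1,
      HasDerivAt (fun r : ℝ => 4 * d / ((1 - r) + d / 2)) (4 * d / ((1 - r) + d / 2) ^ 2) r := by
    intro r hr
    have h1 : HasDerivAt (fun r : ℝ => (1 - r) + d / 2) (-1) r := by
      have := ((hasDerivAt_id r).const_sub 1).add_const (d / 2)
      simpa using this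
    have h2 := (h1.inv (hpos r hr).ne').const_mul (4 * d)
    convert! h2 using 1
    field_simp
  have hcont : ContinuousOn (fun r : ℝ => 4 * d / ((1 - r) + d / 2) ^ 2) (Set.uIcc 0 1) := by
    apply ContinuousOn.div continuousOn_const (by fun_prop)
    intro r hr
    exact (pow_pos (hpos r hr) 2).ne'
  rw [intervalIntegral.integral_eq_sub_of_hasDerivAt hder hcont.intervalIntegrable]
  have h3 : 4 * d / ((1 - 1) + d / 2) = 8 := by field_simp; ring
  rw [h3]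
  have h4 : 0 ≤ 4 * d / (1 - 0 + d / 2) := by positivity
  linarith

lemma kernel_bound (c : ℂ) (hc : ‖c‖ < 1) (r : ℝ) (hr0 : 0 ≤ r) (hr : r ≤ 1) :
    ‖1 - c‖ * ‖(1 - r * c)⁻¹‖ ^ 2 ≤ 4 * ‖1 - c‖ / ((1 - r) + ‖1 - c‖ / 2) ^ 2 := by
  have h1 : 1 - r ≤ ‖1 - r * c‖ := by
    have h := norm_sub_norm_le (1 : ℂ) (r * c)
    rw [norm_one, norm_mul, Complex.norm_real, Real.norm_of_nonneg hr0] at h
    have : r * ‖c‖ ≤ r := mul_le_of_le_one_right hr0 hc.le
    linarith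
  have h2 : ‖1 - c‖ ≤ ‖1 - r * c‖ + (1 - r) := by
    have e : (1 : ℂ) - c = (1 - r * c) - ((1 - r : ℝ) : ℂ) * c := by push_cast; ring
    rw [e]
    refine (norm_sub_le _ _).trans ?_
    rw [norm_mul, Complex.norm_real, Real.norm_of_nonneg (by linarith)]
    have : (1 - r) * ‖c‖ ≤ 1 - r := mul_le_of_le_one_right (by linarith) hc.le
    linarith
  have hpos : 0 < 1 - ‖c‖ := by linarith
  have h3 : 0 < ‖1 - c‖ := by
    have h := norm_sub_norm_le (1 : ℂ) c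
    rw [norm_one] at h
    linarith
  have h4 : ((1 - r) + ‖1 - c‖ / 2) / 2 ≤ ‖1 - r * c‖ := by linarith
  have h5 : 0 < (1 - r) + ‖1 - c‖ / 2 := by linarith
  have h6 : 0 < ‖1 - r * c‖ := lt_of_lt_of_le (by positivity) h4
  rw [norm_inv, inv_pow, ← div_eq_mul_inv, div_le_div_iff₀ (by positivity) (by positivity)]
  have h7 : ((1 - r) + ‖1 - c‖ / 2) ^ 2 ≤ 4 * ‖1 - r * c‖ ^ 2 := by
    have := pow_le_pow_left₀ (by positivity) h4 2
    nlinarith
  nlinarith

lemma kernel_int (c : ℂ) (hc : ‖c‖ < 1) :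
    ∫ r in (0 : ℝ)..1, ‖1 - c‖ * ‖(1 - r * c)⁻¹‖ ^ 2 ≤ 8 := by
  have h3 : 0 < ‖1 - c‖ := by
    have h := norm_sub_norm_le (1 : ℂ) c
    rw [norm_one] at h
    linarith
  refine le_trans ?_ (real_int ‖1 - c‖ h3)
  have hne : ∀ r ∈ Set.uIcc (0 : ℝ) 1, (1 : ℂ) - r * c ≠ 0 := by
    intro r hr
    rw [Set.uIcc_of_le zero_le_one] at hr
    intro h0
    have h1 : (r : ℂ) * c = 1 := (sub_eq_zero.mp h0).symm
    have h2 := congrArg norm h1
    rw [norm_mul, Complex.norm_real, Real.norm_of_nonneg hr.1, norm_one] at h2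
    have : r * ‖c‖ ≤ ‖c‖ := mul_le_of_le_one_left (norm_nonneg _) hr.2
    linarith
  apply intervalIntegral.integral_mono_on zero_le_one
  · apply ContinuousOn.intervalIntegrable
    apply ContinuousOn.mul continuousOn_const
    apply ContinuousOn.pow
    apply ContinuousOn.norm
    apply ContinuousOn.inv₀ _ hne
    fun_prop
  · apply ContinuousOn.intervalIntegrable
    apply ContinuousOn.div continuousOn_const (by fun_prop)
    intro r hr
    rw [Set.uIcc_of_le zero_le_one] at hr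
    have : 0 < 1 - r + ‖1 - c‖ / 2 := by linarith [hr.2]
    exact (pow_pos this 2).ne'
  · intro r hr
    exact kernel_bound c hc r hr.1 hr.2


section path

variable {ζ : ℂ} (hζ : ‖ζ‖ < 1)
include hζ

lemma norm_path {r : ℝ} (hr : r ∈ Set.uIcc (0 : ℝ) 1) : ‖(r : ℂ) * ζ‖ < 1 := by
  rw [Set.uIcc_of_le zero_le_one] at hr
  rw [norm_mul, Complex.norm_real, Real.norm_of_nonneg hr.1]
  have : r * ‖ζ‖ ≤ ‖ζ‖ := mul_le_of_le_one_left (norm_nonneg _) hr.2
  linarith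

lemma continuousOn_KK : ContinuousOn (fun r : ℝ => KK (r * ζ)) (Set.uIcc (0 : ℝ) 1) := by
  intro r hr
  apply ContinuousAt.continuousWithinAt
  have h1 : ContinuousAt KK ((r : ℂ) * ζ) := (hasDerivAt_KK (norm_path hζ hr)).continuousAt
  have h2 : ContinuousAt (fun r : ℝ => (r : ℂ) * ζ) r := by fun_prop
  exact ContinuousAt.comp (f := fun r : ℝ => (r : ℂ) * ζ) h1 h2

lemma continuousOn_star_KK : ContinuousOn (fun r : ℝ => star (KK (r * ζ))) (Set.uIcc (0 : ℝ) 1) :=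
  continuous_star.comp_continuousOn (continuousOn_KK hζ)

omit hζ in
lemma norm_sub_zz (t : UnitAddCircle) : ‖zz t - ζ‖ = ‖1 - ζ * conj (zz t)‖ := by
  have h : zz t - ζ = zz t * (1 - ζ * conj (zz t)) := by
    have := zz_mul_conj t
    linear_combination ζ * this
  rw [h, norm_mul, norm_zz_apply, one_mul]

omit hζ in
lemma norm_c (t : UnitAddCircle) : ‖ζ * conj (zz t)‖ = ‖ζ‖ := by
  rw [norm_mul, RCLike.norm_conj, norm_zz_apply, mul_one]

lemma KK_path {r : ℝ} (hr : r ∈ Set.uIcc (0 : ℝ) 1) (t : UnitAddCircle) :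
    KK (r * ζ) t = (1 - r * (ζ * conj (zz t)))⁻¹ := by
  rw [KK_apply' (norm_path hζ hr), mul_assoc]

/-- bound for the averages -/
lemma norm_average_le {B : ℝ → CC} (hB : ContinuousOn B (Set.uIcc (0 : ℝ) 1))
    (hb : ∀ r ∈ Set.uIcc (0 : ℝ) 1, ∀ t, ‖B r t‖ = ‖zz t - ζ‖ * ‖KK (r * ζ) t‖ ^ 2)
    {σ : ℝ → ℂ} (hσ : ContinuousOn σ (Set.uIcc (0 : ℝ) 1)) {s : ℝ} (hs0 : 0 ≤ s)
    (hs : ∀ r ∈ Set.uIcc (0 : ℝ) 1, ‖σ r‖ ≤ s) :
    ‖∫ r in (0 : ℝ)..1, σ r • B r‖ ≤ 8 * s := by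
  have hint : IntervalIntegrable (fun r => σ r • B r) volume 0 1 :=
    (hσ.smul hB).intervalIntegrable
  rw [ContinuousMap.norm_le _ (by positivity)]
  intro t
  have h1 := (ContinuousMap.evalCLM ℂ t).intervalIntegral_comp_comm hint
  have h2 : (∫ r in (0 : ℝ)..1, σ r • B r) t = ∫ r in (0 : ℝ)..1, σ r * B r t := by
    rw [← ContinuousMap.evalCLM_apply ℂ t, ← h1]
    rfl
  rw [h2]
  have h3 := kernel_int (ζ * conj (zz t)) (by rwa [norm_c])
  have hBt : ContinuousOn (fun r => B r t) (Set.uIcc (0 : ℝ) 1) :=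
    (ContinuousMap.evalCLM ℂ t).continuous.comp_continuousOn hB
  have h4 : ∀ r ∈ Set.uIcc (0 : ℝ) 1, ‖B r t‖ =
      ‖1 - ζ * conj (zz t)‖ * ‖(1 - r * (ζ * conj (zz t)))⁻¹‖ ^ 2 := by
    intro r hr
    rw [hb r hr t, norm_sub_zz, KK_path hζ hr]
  have h5 : ∫ r in (0 : ℝ)..1, ‖B r t‖ ≤ 8 := by
    refine le_trans (le_of_eq ?_) h3
    exact intervalIntegral.integral_congr h4
  calc ‖∫ r in (0 : ℝ)..1, σ r * B r t‖ ≤ ∫ r in (0 : ℝ)..1, ‖σ r * B r t‖ :=
        intervalIntegral.norm_integral_le_integral_norm zero_le_one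
    _ ≤ ∫ r in (0 : ℝ)..1, s * ‖B r t‖ := by
        apply intervalIntegral.integral_mono_on zero_le_one
        · exact (hσ.mul hBt).norm.intervalIntegrable
        · exact (continuousOn_const.mul hBt.norm).intervalIntegrable
        · intro r hr
          rw [norm_mul]
          rw [← Set.uIcc_of_le (zero_le_one (α := ℝ))] at hr
          exact mul_le_mul_of_nonneg_right (hs r hr) (norm_nonneg _)
    _ = s * ∫ r in (0 : ℝ)..1, ‖B r t‖ := by rw [intervalIntegral.integral_const_mul]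
    _ ≤ 8 * s := by nlinarith

lemma continuousOn_ev (u : Li) : ContinuousOn (fun r : ℝ => ev (r * ζ) u) (Set.uIcc (0 : ℝ) 1) :=
  (pr u).continuous.comp_continuousOn (continuousOn_KK hζ)

lemma continuousOn_dv (u : Li) : ContinuousOn (fun r : ℝ => dv (r * ζ) u) (Set.uIcc (0 : ℝ) 1) :=
  (pr u).continuous.comp_continuousOn
    (((continuousOn_KK hζ).mul continuousOn_const).mul (continuousOn_KK hζ))

omit hζ in
lemma jj_mem_of_integral {B : ℝ → CC} (hB : IntervalIntegrable B volume (0 : ℝ) 1)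
    (h : ∀ r ∈ Set.uIcc (0 : ℝ) 1, jj (B r) ∈ Hi) : jj (∫ r in (0 : ℝ)..1, B r) ∈ Hi := by
  intro n hn
  have h1 := ((co n) ∘L jj).intervalIntegral_comp_comm hB
  have h2 : co n (jj (∫ r in (0 : ℝ)..1, B r)) = ∫ r in (0 : ℝ)..1, co n (jj (B r)) := h1.symm
  rw [h2]
  have h3 : ∫ r in (0 : ℝ)..1, co n (jj (B r)) = ∫ r in (0 : ℝ)..1, (0 : ℂ) := by
    apply intervalIntegral.integral_congr
    intro r hr
    exact h r hr n hn
  rw [h3]; simp

end path

end Pool.Agent.Helper406.Toep
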