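import Pool.Agent.Helper406.ToepWeak

open MeasureTheory AddCircle Filter Topology
open scoped ComplexConjugate ENNReal NNReal

namespace Pool.Agent.Helper406.Toep

open Hardy

/-- analytic polynomials as continuous functions -/
noncomputable def pol (p : Polynomial ℂ) : CC := Polynomial.aeval zz p

lemma pol_apply (p : Polynomial ℂ) (t : UnitAddCircle) : pol p t = p.eval (zz t) := by
  unfold pol
  have h := Polynomial.aeval_algHom_apply (ContinuousMap.evalAlgHom ℂ ℂ t) zz p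
  have h2 : (ContinuousMap.evalAlgHom ℂ ℂ t) (Polynomial.aeval zz p) = (Polynomial.aeval zz p) t :=
    rfl
  rw [← h2, ← h]
  simp [Polynomial.coe_aeval_eq_eval]

lemma zz_pow' (n : ℕ) : zz ^ n = fourier (n : ℤ) := by
  ext t
  rw [ContinuousMap.pow_apply, zz_pow]

lemma jj_pol_mem (p : Polynomial ℂ) : jj (pol p) ∈ Hi := by
  induction p using Polynomial.induction_on' with
  | add p q hp hq =>
    unfold pol at *
    rw [map_add, map_add]
    exact Hi.add_mem hp hq
  | monomial n a =>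
    unfold pol
    rw [Polynomial.aeval_monomial, zz_pow', ← Algebra.smul_def, map_smul]
    exact Hi.smul_mem _ (ex_mem_Hi (by positivity))

lemma co_abel {r : ℝ} (hr0 : 0 ≤ r) (hr : r < 1) (G : Li) (n : ℤ) :
    co n (jj (abel r G)) = if 0 ≤ n then (r : ℂ) ^ n.toNat * co n G else 0 := by
  have h := (hasSum_abel hr0 hr G).mapL ((co n) ∘L jj)
  have e : ∀ k : ℕ, ((co n) ∘L jj) (((r : ℂ) ^ k * co k G) • (fourier (k : ℤ) : CC)) =
      if n = k then (r : ℂ) ^ k * co k G else 0 := by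
    intro k
    have h1 : ((co n) ∘L jj) (((r : ℂ) ^ k * co k G) • (fourier (k : ℤ) : CC)) =
      ((r : ℂ) ^ k * co k G) * co n (ex k) := by
      rw [map_smul, smul_eq_mul]; rfl
    rw [h1, co_ex]
    split_ifs <;> simp
  simp_rw [e] at h
  refine h.unique ?_
  split_ifs with hn
  · have h2 : HasSum (fun k : ℕ => if k = n.toNat then (r : ℂ) ^ n.toNat * co n G else 0)
        ((r : ℂ) ^ n.toNat * co n G) := hasSum_ite_eq _ _
    convert! h2 using 1
    ext1 k
    by_cases hk : n = k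
    · have : k = n.toNat := by omega
      rw [if_pos hk, if_pos this, ← this, hk]
    · have : k ≠ n.toNat := by omega
      rw [if_neg hk, if_neg this]
  · have : (fun k : ℕ => if n = (k : ℤ) then (r : ℂ) ^ k * co k G else 0) = fun _ => 0 := by
      ext1 k
      rw [if_neg (by omega)]
    rw [this]
    exact hasSum_zero

lemma norm_abel_le {r : ℝ} (hr0 : 0 ≤ r) (hr : r < 1) {G : Li} (hG : G ∈ Hi) :
    ‖abel r G‖ ≤ ‖G‖ := by
  rw [ContinuousMap.norm_le _ (norm_nonneg _)]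
  intro t
  rw [abel_apply hr0 hr]
  apply norm_ev_le _ hG
  rw [norm_mul, norm_zz_apply, mul_one, Complex.norm_real, Real.norm_of_nonneg hr0]
  exact hr

/-- approximation of `H^∞` functions by polynomials -/
lemma exists_poly {F : Li} (hF : F ∈ Hi) : ∃ p : ℕ → Polynomial ℂ,
    (∀ j : ℕ, ‖pol (p j)‖ ≤ ‖F‖ + 1 / ((j : ℝ) + 1)) ∧
    ∀ n, Tendsto (fun j => co n (jj (pol (p j)))) atTop (𝓝 (co n F)) := by
  have key : ∀ j : ℕ, ∃ p : Polynomial ℂ,
      ‖pol p - abel (1 - 1 / ((j : ℝ) + 1)) F‖ ≤ 1 / ((j : ℝ) + 1) := by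
    intro j
    have hj : (0 : ℝ) < 1 / ((j : ℝ) + 1) := by positivity
    have hj1 : 1 / ((j : ℝ) + 1) ≤ 1 := by
      rw [div_le_one (by positivity)]
      have : (0 : ℝ) ≤ j := Nat.cast_nonneg j
      linarith
    have h1 := (hasSum_abel (r := 1 - 1 / ((j : ℝ) + 1)) (by linarith) (by linarith)
      F).tendsto_sum_nat
    have h2 := (Metric.tendsto_atTop.mp h1) _ hj
    obtain ⟨N, hN⟩ := h2
    have h3 := hN N le_rfl
    refine ⟨∑ n ∈ Finset.range N, Polynomial.monomial n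
      ((((1 - 1 / ((j : ℝ) + 1) : ℝ)) : ℂ) ^ n * co n F), ?_⟩
    have h4 : pol (∑ n ∈ Finset.range N, Polynomial.monomial n
        ((((1 - 1 / ((j : ℝ) + 1) : ℝ)) : ℂ) ^ n * co n F)) = ∑ n ∈ Finset.range N,
        ((((1 - 1 / ((j : ℝ) + 1) : ℝ)) : ℂ) ^ n * co n F) • (fourier (n : ℤ) : CC) := by
      unfold pol
      rw [map_sum]
      apply Finset.sum_congr rfl
      intro n _
      rw [Polynomial.aeval_monomial, zz_pow', ← Algebra.smul_def]
    rw [h4, ← dist_eq_norm]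
    exact h3.le
  choose p hp using key
  have hr : ∀ j : ℕ, 0 ≤ 1 - 1 / ((j : ℝ) + 1) ∧ 1 - 1 / ((j : ℝ) + 1) < 1 := by
    intro j
    have hj : (0 : ℝ) < 1 / ((j : ℝ) + 1) := by positivity
    have hj1 : 1 / ((j : ℝ) + 1) ≤ 1 := by
      rw [div_le_one (by positivity)]
      have : (0 : ℝ) ≤ j := Nat.cast_nonneg j
      linarith
    constructor <;> linarith
  refine ⟨p, fun j => ?_, fun n => ?_⟩
  · have h1 := norm_abel_le (hr j).1 (hr j).2 hF
    have h2 : pol (p j) = abel (1 - 1 / ((j : ℝ) + 1)) F +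
      (pol (p j) - abel (1 - 1 / ((j : ℝ) + 1)) F) := by abel
    rw [h2]
    exact (norm_add_le _ _).trans (add_le_add h1 (hp j))
  · have h1 : Tendsto (fun j : ℕ => 1 / ((j : ℝ) + 1)) atTop (𝓝 0) :=
      tendsto_one_div_add_atTop_nhds_zero_nat
    have h2 : Tendsto (fun j : ℕ => co n (jj (abel (1 - 1 / ((j : ℝ) + 1)) F))) atTop
        (𝓝 (co n F)) := by
      have e : (fun j : ℕ => co n (jj (abel (1 - 1 / ((j : ℝ) + 1)) F))) = fun j : ℕ =>
          if 0 ≤ n then (((1 - 1 / ((j : ℝ) + 1) : ℝ)) : ℂ) ^ n.toNat * co n F else 0 := by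
        ext1 j
        exact co_abel (hr j).1 (hr j).2 F n
      rw [e]
      split_ifs with hn
      · have h3 : Tendsto (fun j : ℕ => (((1 - 1 / ((j : ℝ) + 1) : ℝ)) : ℂ)) atTop (𝓝 1) := by
          have h4 : Tendsto (fun j : ℕ => 1 - 1 / ((j : ℝ) + 1)) atTop (𝓝 (1 - 0)) :=
            tendsto_const_nhds.sub h1
          rw [sub_zero] at h4
          have := (Complex.continuous_ofReal.tendsto 1).comp h4
          rwa [Complex.ofReal_one] at this
        have h5 := (h3.pow n.toNat).mul_const (co n F)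
        rwa [one_pow, one_mul] at h5
      · rw [hF n (by omega)]
        exact tendsto_const_nhds
    have h3 : Tendsto (fun j : ℕ => co n (jj (pol (p j))) -
        co n (jj (abel (1 - 1 / ((j : ℝ) + 1)) F))) atTop (𝓝 0) := by
      apply squeeze_zero_norm _ h1
      intro j
      rw [← map_sub, ← map_sub]
      exact (norm_co_le _ _).trans ((norm_jj_le _).trans (hp j))
    have h4 := h3.add h2
    rw [zero_add] at h4
    refine h4.congr fun j => ?_
    ring

/-- boundedness on polynomials gives boundedness on `H^∞` -/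
lemma bounded_of_poly (f : Li) {C : ℝ} (hC : 0 ≤ C)
    (h : ∀ p : Polynomial ℂ, ∃ G ∈ Hi, f * jj (pol p) - G ∈ Hm ∧ ‖G‖ ≤ C * ‖jj (pol p)‖) :
    ∀ F ∈ Hi, ∃ G ∈ Hi, f * F - G ∈ Hm ∧ ‖G‖ ≤ C * ‖F‖ := by
  intro F hF
  obtain ⟨p, hp1, hp2⟩ := exists_poly hF
  choose G hG1 hG2 hG3 using fun j => h (p j)
  have hb : ∀ j : ℕ, ‖G j‖ ≤ C * (‖F‖ + 1 / ((j : ℝ) + 1)) := fun j =>
    (hG3 j).trans (mul_le_mul_of_nonneg_left ((norm_jj_le _).trans (hp1 j)) hC)
  have h1j : ∀ j : ℕ, 1 / ((j : ℝ) + 1) ≤ 1 := by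
    intro j
    rw [div_le_one (by positivity)]
    have : (0 : ℝ) ≤ j := Nat.cast_nonneg j
    linarith
  have hpb : ∀ j, ‖jj (pol (p j))‖ ≤ ‖F‖ + 1 := fun j =>
    (norm_jj_le _).trans ((hp1 j).trans (by linarith [h1j j]))
  have hco : ∀ n, Tendsto (fun j => co n (G j)) atTop (𝓝 (if 0 ≤ n then co n (f * F) else 0)) := by
    intro n
    split_ifs with hn
    · have h1 := weak_tendsto hpb hp2 (ex (-n) * f)
      have e1 : integL (ex (-n) * f * F) = co n (f * F) := by rw [co_def, mul_assoc]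
      rw [e1] at h1
      refine h1.congr fun j => ?_
      have h2 := hG2 j n hn
      rw [map_sub, sub_eq_zero] at h2
      rw [← h2, co_def, mul_assoc]
    · have : (fun j => co n (G j)) = fun _ => 0 := by
        ext1 j
        exact hG1 j n (by omega)
      rw [this]
      exact tendsto_const_nhds
  have hex : ∀ m : ℕ, ∃ u : Li, ‖u‖ ≤ C * (‖F‖ + 1 / ((m : ℝ) + 1)) ∧
      ∀ n, co n u = if 0 ≤ n then co n (f * F) else 0 := by
    intro m
    refine exists_limit (G := fun j => G (j + m)) (fun j => ?_)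
      (fun n => (hco n).comp (tendsto_add_atTop_nat m))
    refine (hb (j + m)).trans (mul_le_mul_of_nonneg_left ?_ hC)
    have : (m : ℝ) + 1 ≤ ((j + m : ℕ) : ℝ) + 1 := by
      push_cast
      have : (0 : ℝ) ≤ j := Nat.cast_nonneg j
      linarith
    gcongr
  obtain ⟨u, hu1, hu2⟩ := hex 0
  refine ⟨u, fun n hn => by rw [hu2, if_neg (by omega)], fun n hn => ?_, ?_⟩
  · rw [map_sub, hu2, if_pos hn, sub_self]
  · have h2 : ∀ m : ℕ, ‖u‖ ≤ C * (‖F‖ + 1 / ((m : ℝ) + 1)) := by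
      intro m
      obtain ⟨u', h1, h2⟩ := hex m
      have : u = u' := ext_co fun n => by rw [hu2, h2]
      rw [this]; exact h1
    have h3 : Tendsto (fun m : ℕ => C * (‖F‖ + 1 / ((m : ℝ) + 1))) atTop (𝓝 (C * (‖F‖ + 0))) :=
      (tendsto_const_nhds.add tendsto_one_div_add_atTop_nhds_zero_nat).const_mul C
    rw [add_zero] at h3
    exact ge_of_tendsto' h3 h2

end Pool.Agent.Helper406.Toep
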