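import Pool.Agent.Helper406.ToepChar

open MeasureTheory AddCircle Filter Topology
open scoped ComplexConjugate ENNReal

namespace Pool.Agent.Helper406.Toep

open Hardy

/-- `χ(h̄) = conj χ(h)` -/
lemma char_conj {h : Li} (hh : h ∈ Hi) (k : TL) (hk : HL.sy k = cj h) (x : TL)
    (hx : HL.sy x = h) (χ : TL →ₐ[ℂ] ℂ) : χ k = conj (χ x) := by
  have h1 : (χ (x + k)).im = 0 := by
    apply char_im hh k hk
    rw [map_add, hk, hx]
  have h2 : (χ (Complex.I • x + (-Complex.I) • k)).im = 0 := by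
    apply char_im (h := Complex.I • h) (Hi.smul_mem _ hh) ((-Complex.I) • k)
    · rw [map_smul, hk, cj_smul, Complex.conj_I]
    · rw [map_add, map_smul, map_smul, hk, hx, cj_smul, Complex.conj_I]
  rw [map_add, Complex.add_im] at h1
  rw [map_add, map_smul, map_smul, smul_eq_mul, smul_eq_mul, Complex.add_im] at h2
  simp only [Complex.mul_im, Complex.I_re, Complex.I_im, Complex.neg_re, Complex.neg_im,
    zero_mul, one_mul, neg_zero, neg_mul, zero_add] at h2
  apply Complex.ext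
  · rw [Complex.conj_re]; linarith
  · rw [Complex.conj_im]; linarith

lemma norm_mk_Hi {a : Li} (ha : a ∈ Hi) : ‖mk a (P_le_TTs ha)‖ ≤ 3 * ‖a‖ := by
  rw [norm_TT]
  have h1 : Top (mk a (P_le_TTs ha)) = HL.mulP ⟨a, ha⟩ := Top_eq (isT_mulP (⟨a, ha⟩ : HL.P))
  have h2 : ‖HL.mulP ⟨a, ha⟩‖ ≤ ‖a‖ := norm_mulP_le (⟨a, ha⟩ : HL.P)
  rw [h1, sy_mk]
  apply max_le <;> linarith

/-- bounded powers -/
lemma le_of_pow_le {x y C : ℝ} (hx : 0 ≤ x) (hy : 0 ≤ y) (h : ∀ n : ℕ, x ^ n ≤ C * y ^ n) :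
    x ≤ y := by
  by_contra hc
  push Not at hc
  have hx0 : 0 < x := lt_of_le_of_lt hy hc
  have hlim : Tendsto (fun n : ℕ => C * (y / x) ^ n) atTop (𝓝 (C * 0)) :=
    (tendsto_pow_atTop_nhds_zero_of_lt_one (by positivity) ((div_lt_one hx0).mpr hc)).const_mul C
  rw [mul_zero] at hlim
  have h1 : ∀ n : ℕ, 1 ≤ C * (y / x) ^ n := by
    intro n
    rw [div_pow, ← mul_div_assoc, le_div_iff₀ (pow_pos hx0 n), one_mul]
    exact h n
  have := ge_of_tendsto' hlim h1
  linarith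

lemma char_Hi_le {a : Li} (ha : a ∈ Hi) (χ : TL →ₐ[ℂ] ℂ) : ‖χ (mk a (P_le_TTs ha))‖ ≤ ‖a‖ := by
  have hpow : ∀ n : ℕ, a ^ n ∈ Hi ∧ ‖a ^ n‖ ≤ ‖a‖ ^ n := by
    intro n
    induction n with
    | zero => exact ⟨by rw [pow_zero]; exact one_mem_Hi, by rw [pow_zero, pow_zero]; exact norm_one_Li_le⟩
    | succ n ih =>
      rw [pow_succ, pow_succ]
      exact ⟨mul_mem_Hi ih.1 ha, (_root_.norm_mul_le _ _).trans
        (mul_le_mul_of_nonneg_right ih.2 (norm_nonneg _))⟩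
  apply le_of_pow_le (C := 3 * ‖(1 : TL)‖) (norm_nonneg _) (norm_nonneg _)
  intro n
  rw [← norm_pow, ← map_pow]
  have h1 : mk a (P_le_TTs ha) ^ n = mk (a ^ n) (P_le_TTs (hpow n).1) := by
    apply ext_sy
    rw [map_pow, sy_mk, sy_mk]
  rw [h1]
  refine (AlgHom.norm_apply_le_self_mul_norm_one χ _).trans ?_
  have h2 := norm_mk_Hi (hpow n).1
  have h3 := (hpow n).2
  calc ‖mk (a ^ n) (P_le_TTs (hpow n).1)‖ * ‖(1 : TL)‖
      ≤ (3 * ‖a‖ ^ n) * ‖(1 : TL)‖ := by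
        apply mul_le_mul_of_nonneg_right _ (norm_nonneg _)
        linarith
    _ = _ := by ring

/-- functionals of norm one fixing `1` commute with conjugation -/
lemma func_conj (Λ : Li →L[ℂ] ℂ) (hn : ‖Λ‖ ≤ 1) (h1 : Λ 1 = 1) (u : Li) :
    Λ (cj u) = conj (Λ u) := by
  have hcj1 : cj (1 : Li) = 1 := by rw [← ex_zero, cj_ex, neg_zero]
  have hreal : ∀ u : Li, cj u = u → (Λ u).im = 0 := by
    intro u hu
    have hb : ∀ s : ℝ, ((Λ u).im + s) ^ 2 ≤ ‖u‖ ^ 2 + s ^ 2 := by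
      intro s
      have hnorm : ‖u + (Complex.I * s) • (1 : Li)‖ ≤ Real.sqrt (‖u‖ ^ 2 + s ^ 2) := by
        apply norm_le_of_ae (Real.sqrt_nonneg _)
        filter_upwards [coeFn_add u ((Complex.I * s) • 1), coeFn_smul (Complex.I * s) 1, coeFn_one,
          coeFn_cj u, ae_norm_le u] with t h2 h3 h4 h5 h6
        rw [h2, h3, h4, mul_one]
        rw [hu] at h5
        have h7 : (u t).im = 0 := by
          have := congrArg Complex.im h5
          rw [Complex.conj_im] at this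
          linarith
        apply Real.le_sqrt_of_sq_le
        have h8 : ‖u t + Complex.I * s‖ ^ 2 = (u t).re ^ 2 + s ^ 2 := by
          rw [← Complex.normSq_eq_norm_sq, Complex.normSq_apply]
          simp [h7]
          ring
        rw [h8]
        have h9 : (u t).re ^ 2 ≤ ‖u t‖ ^ 2 := by
          rw [← sq_abs]
          exact pow_le_pow_left₀ (abs_nonneg _) (Complex.abs_re_le_norm _) 2
        have h10 : ‖u t‖ ^ 2 ≤ ‖u‖ ^ 2 := pow_le_pow_left₀ (norm_nonneg _) h6 2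
        linarith
      have h2 : ‖Λ (u + (Complex.I * s) • (1 : Li))‖ ≤ Real.sqrt (‖u‖ ^ 2 + s ^ 2) := by
        refine (Λ.le_opNorm _).trans ?_
        calc ‖Λ‖ * ‖u + (Complex.I * s) • (1 : Li)‖ ≤ 1 * ‖u + (Complex.I * s) • (1 : Li)‖ :=
              mul_le_mul_of_nonneg_right hn (norm_nonneg _)
          _ ≤ _ := by rw [one_mul]; exact hnorm
      rw [map_add, map_smul, h1, smul_eq_mul, mul_one] at h2
      have h3 : ((Λ u).im + s) ^ 2 ≤ ‖Λ u + Complex.I * s‖ ^ 2 := by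
        have h4 : (Λ u + Complex.I * s).im = (Λ u).im + s := by simp
        rw [← h4, ← sq_abs]
        exact pow_le_pow_left₀ (abs_nonneg _) (Complex.abs_im_le_norm _) 2
      refine h3.trans ?_
      have h5 := pow_le_pow_left₀ (norm_nonneg _) h2 2
      rwa [Real.sq_sqrt (by positivity)] at h5
    by_contra hne
    set b := (Λ u).im with hbdef
    have h3 := hb (‖u‖ ^ 2 / b)
    have h4 : (b + ‖u‖ ^ 2 / b) ^ 2 = b ^ 2 + 2 * ‖u‖ ^ 2 + (‖u‖ ^ 2 / b) ^ 2 := by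
      field_simp
      ring
    rw [h4] at h3
    have h5 : 0 < b ^ 2 := by positivity
    nlinarith [sq_nonneg ‖u‖]
  have e1 : (Λ (u + cj u)).im = 0 := hreal _ (by rw [cj_add, cj_cj, add_comm])
  have e2 : (Λ (Complex.I • u + (-Complex.I) • cj u)).im = 0 := by
    apply hreal
    rw [cj_add, cj_smul, cj_smul, cj_cj, map_neg, Complex.conj_I, neg_neg, add_comm]
  rw [map_add, Complex.add_im] at e1
  rw [map_add, map_smul, map_smul, smul_eq_mul, smul_eq_mul, Complex.add_im] at e2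
  simp only [Complex.mul_im, Complex.I_re, Complex.I_im, Complex.neg_re, Complex.neg_im,
    zero_mul, one_mul, neg_zero, neg_mul, zero_add] at e2
  apply Complex.ext
  · rw [Complex.conj_re]; linarith
  · rw [Complex.conj_im]; linarith

/-- the restriction of a character to `H^∞` -/
noncomputable def charP (χ : TL →ₐ[ℂ] ℂ) : Hi →L[ℂ] ℂ :=
  LinearMap.mkContinuous
    { toFun := fun a => χ (mk a.1 (P_le_TTs a.2))
      map_add' := fun a b => by
        rw [← map_add]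
        congr 1
      map_smul' := fun c a => by
        rw [RingHom.id_apply, ← map_smul]
        congr 1 } 1
    (fun a => by rw [one_mul]; exact char_Hi_le a.2 χ)

lemma charP_apply (χ : TL →ₐ[ℂ] ℂ) (a : Hi) : charP χ a = χ (mk a.1 (P_le_TTs a.2)) := rfl

/-- characters of the Toeplitz algebra are bounded by the sup norm -/
theorem char_le (f : TL) (χ : TL →ₐ[ℂ] ℂ) : ‖χ f‖ ≤ ‖HL.sy f‖ := by
  obtain ⟨Λ, hΛ1, hΛ2⟩ := exists_extension_norm_eq Hi (charP χ)
  have hn : ‖Λ‖ ≤ 1 := by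
    rw [hΛ2]
    exact LinearMap.mkContinuous_norm_le _ zero_le_one _
  have hone : Λ 1 = 1 := by
    have h1 : Λ 1 = χ (mk 1 (P_le_TTs one_mem_Hi)) := hΛ1 ⟨1, one_mem_Hi⟩
    have h2 : mk (1 : Li) (P_le_TTs one_mem_Hi) = 1 := ext_sy (by rw [sy_mk, map_one])
    rw [h1, h2, map_one χ]
  set a : Hi := Top f HL.oneP with ha
  have h1 : HL.sy f - (a : Li) ∈ Hm := (isT_Top f).sub_mem
  set h : Li := cj (HL.sy f - (a : Li)) with hh
  have hhi : h ∈ Hi := cj_mem_Hi (Hm_le_Hn h1)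
  set k : TL := f - mk (a : Li) (P_le_TTs a.2) with hk
  have hksy : HL.sy k = cj h := by
    rw [hk, map_sub, sy_mk, hh, cj_cj]
  have h2 := char_conj hhi k hksy (mk h (P_le_TTs hhi)) rfl χ
  have h3 : χ f = χ (mk (a : Li) (P_le_TTs a.2)) + χ k := by
    rw [← map_add, hk]; congr 1; abel
  have h4 : χ (mk (a : Li) (P_le_TTs a.2)) = Λ a := (hΛ1 a).symm
  have h5 : χ (mk h (P_le_TTs hhi)) = Λ h := (hΛ1 ⟨h, hhi⟩).symm
  have h6 : χ f = Λ (HL.sy f) := by
    rw [h3, h2, h4, h5, ← func_conj Λ hn hone, ← map_add, hh, cj_cj]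
    congr 1
    abel
  rw [h6]
  refine (Λ.le_opNorm _).trans ?_
  calc ‖Λ‖ * ‖HL.sy f‖ ≤ 1 * ‖HL.sy f‖ := mul_le_mul_of_nonneg_right hn (norm_nonneg _)
    _ = _ := one_mul _

/-- the spectral radius in the Toeplitz algebra -/
theorem spectralRadius_le (f : TL) : spectralRadius ℂ f ≤ ‖HL.sy f‖₊ := by
  unfold spectralRadius
  refine iSup₂_le fun z hz => ?_
  obtain ⟨χ, hχ⟩ := WeakDual.CharacterSpace.mem_spectrum_iff_exists.mp hz
  have := char_le f (WeakDual.CharacterSpace.equivAlgHom χ)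
  rw [WeakDual.CharacterSpace.equivAlgHom_coe, hχ] at this
  exact_mod_cast this

end Pool.Agent.Helper406.Toep
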