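import Pool.Agent.Helper406.ToepFinal

open MeasureTheory AddCircle Filter Topology
open scoped ComplexConjugate ENNReal NNReal

namespace Pool.Agent.Helper406.Toep

open Hardy

lemma ae_le_of_pair {x : UnitAddCircle → ℂ} (hmeas : Measurable x) (hint : Integrable x mu)
    {C : ℝ} (hC0 : 0 ≤ C)
    (h : ∀ k : Li, ‖∫ t, x t * k t ∂mu‖ ≤ C * ∫ t, ‖k t‖ ∂mu) : ∀ᵐ t ∂mu, ‖x t‖ ≤ C := by
  have key : ∀ ε : ℝ, 0 < ε → ∀ᵐ t ∂mu, ‖x t‖ ≤ C + ε := by
    intro ε hε
    set B : Set UnitAddCircle := {t | C + ε < ‖x t‖} with hB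
    have hBm : MeasurableSet B := measurableSet_lt measurable_const hmeas.norm
    let k0 : UnitAddCircle → ℂ := B.indicator fun t => conj (x t) / (‖x t‖ : ℂ)
    have hk0m : Measurable k0 := by
      apply Measurable.indicator _ hBm
      fun_prop
    have hk0b : ∀ t, ‖k0 t‖ ≤ 1 := by
      intro t
      by_cases ht : t ∈ B
      · simp only [k0, Set.indicator_of_mem ht, norm_div, RCLike.norm_conj, Complex.norm_real,
          norm_norm]
        exact div_self_le_one _
      · simp [k0, Set.indicator_of_notMem ht]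
    have hk0L : MemLp k0 ⊤ mu :=
      memLp_top_of_bound hk0m.aestronglyMeasurable 1 (Eventually.of_forall hk0b)
    set k : Li := hk0L.toLp with hk
    have hkc : ⇑k =ᵐ[mu] k0 := MemLp.coeFn_toLp _
    have h1 := h k
    have h2 : ∫ t, x t * k t ∂mu = ((∫ t in B, ‖x t‖ ∂mu : ℝ) : ℂ) := by
      rw [← integral_complex_ofReal, ← integral_indicator hBm]
      apply integral_congr_ae
      filter_upwards [hkc] with t h4
      rw [h4]
      by_cases ht : t ∈ B
      · have hpos : 0 < ‖x t‖ := by
          have : C + ε < ‖x t‖ := ht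
          linarith
        have hne : (‖x t‖ : ℂ) ≠ 0 := by exact_mod_cast hpos.ne'
        simp only [k0, Set.indicator_of_mem ht]
        rw [mul_div_assoc', RCLike.mul_conj, div_eq_iff hne]
        rw [sq]
        rfl
      · simp [k0, Set.indicator_of_notMem ht]
    have h3 : ∫ t, ‖k t‖ ∂mu = mu.real B := by
      have : ∫ t, ‖k t‖ ∂mu = ∫ t, B.indicator (fun _ => (1 : ℝ)) t ∂mu := by
        apply integral_congr_ae
        filter_upwards [hkc] with t h4
        rw [h4]
        by_cases ht : t ∈ B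
        · have hpos : 0 < ‖x t‖ := by
            have : C + ε < ‖x t‖ := ht
            linarith
          simp only [k0, Set.indicator_of_mem ht, norm_div, RCLike.norm_conj, Complex.norm_real,
            norm_norm]
          exact div_self hpos.ne'
        · simp [k0, Set.indicator_of_notMem ht]
      rw [this]
      exact integral_indicator_one hBm
    have h4 : (C + ε) * mu.real B ≤ ∫ t in B, ‖x t‖ ∂mu := by
      have : ∫ _ in B, (C + ε) ∂mu ≤ ∫ t in B, ‖x t‖ ∂mu := by
        apply setIntegral_mono_on (integrableOn_const (measure_ne_top _ _))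
          hint.norm.integrableOn hBm
        intro t ht
        exact (show C + ε < ‖x t‖ from ht).le
      rw [setIntegral_const, smul_eq_mul, mul_comm] at this
      exact this
    rw [h2, h3, Complex.norm_real,
      Real.norm_of_nonneg (integral_nonneg fun _ => norm_nonneg _)] at h1
    have h5 : mu.real B ≤ 0 := by
      have : ε * mu.real B ≤ 0 := by linarith
      by_contra hc
      push Not at hc
      have := mul_pos hε hc
      linarith
    have h6 : mu B = 0 := by
      have h7 : mu.real B = 0 := le_antisymm h5 measureReal_nonneg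
      rwa [measureReal_eq_zero_iff] at h7
    rw [ae_iff]
    convert h6 using 2
    ext t
    simp [hB, not_le]
  have h1 : ∀ᵐ t ∂mu, ∀ n : ℕ, ‖x t‖ ≤ C + 1 / ((n : ℝ) + 1) := by
    rw [ae_all_iff]
    intro n
    exact key _ (by positivity)
  filter_upwards [h1] with t ht
  have h2 : Tendsto (fun n : ℕ => C + 1 / ((n : ℝ) + 1)) atTop (𝓝 (C + 0)) :=
    tendsto_const_nhds.add tendsto_one_div_add_atTop_nhds_zero_nat
  rw [add_zero] at h2
  exact ge_of_tendsto' h2 ht

lemma weak_two {y : ℕ → Lp ℂ 2 mu} {B : ℝ} (hB : ∀ n, ‖y n‖ ≤ B) {x : Lp ℂ 2 mu}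
    (h : ∀ m, Tendsto (fun n => (inner ℂ (fourierBasis m) (y n) : ℂ)) atTop
      (𝓝 (inner ℂ (fourierBasis m) x))) (g : Lp ℂ 2 mu) :
    Tendsto (fun n => (inner ℂ g (y n) : ℂ)) atTop (𝓝 (inner ℂ g x)) := by
  have hB0 : 0 ≤ B := (norm_nonneg _).trans (hB 0)
  set F : ℕ → Lp ℂ 2 mu → ℂ := fun n x => inner ℂ x (y n) with hF
  have hLip : ∀ n, LipschitzWith (Real.toNNReal B) (F n) := by
    intro n
    apply LipschitzWith.of_dist_le_mul
    intro x z
    rw [dist_eq_norm, dist_eq_norm, hF]
    simp only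
    rw [← inner_sub_left, Real.coe_toNNReal _ hB0]
    refine (norm_inner_le_norm _ _).trans ?_
    rw [mul_comm]
    exact mul_le_mul_of_nonneg_right (hB n) (norm_nonneg _)
  have heq : Equicontinuous F := (LipschitzWith.uniformEquicontinuous F _ hLip).equicontinuous
  have hcont : Continuous fun z : Lp ℂ 2 mu => (inner ℂ z x : ℂ) :=
    continuous_id.inner continuous_const
  have hclosed := heq.isClosed_setOfPred_tendsto (l := atTop) hcont
  have hspan : ∀ z ∈ Submodule.span ℂ (Set.range (fourierBasis (T := (1 : ℝ)))),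
      Tendsto (F · z) atTop (𝓝 (inner ℂ z x)) := by
    intro z hz
    induction hz using Submodule.span_induction with
    | mem z hz =>
      obtain ⟨m, rfl⟩ := hz
      exact h m
    | zero => simp [hF]
    | add a b _ _ ha hb =>
      simp only [hF, inner_add_left]
      exact ha.add hb
    | smul c a _ ha =>
      simp only [hF, inner_smul_left]
      exact ha.const_mul _
  have h1 : g ∈ (Submodule.span ℂ (Set.range (fourierBasis (T := (1 : ℝ))))).topologicalClosure := by
    rw [HilbertBasis.dense_span]; trivial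
  exact closure_minimal hspan hclosed h1

/-- weak compactness -/
lemma exists_limit {G : ℕ → Li} {B : ℝ} (hB : ∀ j, ‖G j‖ ≤ B) {c : ℤ → ℂ}
    (hc : ∀ n, Tendsto (fun j => co n (G j)) atTop (𝓝 (c n))) :
    ∃ u : Li, ‖u‖ ≤ B ∧ ∀ n, co n u = c n := by
  have hB0 : 0 ≤ B := (norm_nonneg _).trans (hB 0)
  -- square summability
  have hsq : ∀ s : Finset ℤ, ∑ n ∈ s, ‖c n‖ ^ 2 ≤ B ^ 2 := by
    intro s
    have h1 : Tendsto (fun j => ∑ n ∈ s, ‖co n (G j)‖ ^ 2) atTop (𝓝 (∑ n ∈ s, ‖c n‖ ^ 2)) :=
      tendsto_finsetSum _ fun n _ => (hc n).norm.pow 2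
    refine le_of_tendsto' h1 fun j => ?_
    have h2 := (fourierBasis (T := (1 : ℝ))).orthonormal.sum_inner_products_le (two (G j)) (s := s)
    have h3 : ∑ n ∈ s, ‖co n (G j)‖ ^ 2 = ∑ n ∈ s, ‖inner ℂ (fourierBasis n) (two (G j))‖ ^ 2 := by
      apply Finset.sum_congr rfl
      intro n _
      rw [two_coeff]
    rw [h3]
    refine h2.trans ?_
    exact pow_le_pow_left₀ (norm_nonneg _) ((norm_two_le _).trans (hB j)) 2
  have hmem : Memℓp c 2 := by
    apply memℓp_gen
    have : (fun n => ‖c n‖ ^ (2 : ℝ≥0∞).toReal) = fun n => ‖c n‖ ^ 2 := by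
      ext n
      norm_num
    rw [this]
    exact summable_of_sum_le (fun n => by positivity) hsq
  set x : Lp ℂ 2 mu := (fourierBasis (T := (1 : ℝ))).repr.symm ⟨c, hmem⟩ with hx
  have hxc : ∀ n, (inner ℂ (fourierBasis n) x : ℂ) = c n := by
    intro n
    rw [← HilbertBasis.repr_apply_apply, hx, LinearIsometryEquiv.apply_symm_apply]
  have hw := weak_two (y := fun j => two (G j)) (fun j => (norm_two_le _).trans (hB j)) (x := x)
    (fun m => by simp_rw [two_coeff, hxc]; exact hc m)
  have hxi : Integrable x mu := by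
    have : MemLp x 1 mu := (Lp.memLp x).mono_exponent (by norm_num)
    exact memLp_one_iff_integrable.mp this
  have hpair : ∀ k : Li, ‖∫ t, x t * k t ∂mu‖ ≤ B * ∫ t, ‖k t‖ ∂mu := by
    intro k
    have h1 := (hw (two (cj k))).norm
    have h2 : (inner ℂ (two (cj k)) x : ℂ) = ∫ t, x t * k t ∂mu := by
      rw [L2.inner_def]
      apply integral_congr_ae
      filter_upwards [coeFn_two (cj k), coeFn_cj k] with t h3 h4
      rw [h3, h4]
      simp
    rw [h2] at h1
    refine le_of_tendsto' h1 fun j => ?_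
    rw [two_inner, cj_cj, integL_apply, ← integral_const_mul]
    apply norm_integral_le_of_norm_le ((integrable k).norm.const_mul _)
    filter_upwards [coeFn_mul k (G j), ae_norm_le (G j)] with t h3 h4
    rw [h3, norm_mul, mul_comm]
    exact mul_le_mul_of_nonneg_right (h4.trans (hB j)) (norm_nonneg _)
  have hae := ae_le_of_pair (Lp.stronglyMeasurable x).measurable hxi hB0 hpair
  have hxm : MemLp x ⊤ mu := memLp_top_of_bound (Lp.memLp x).1 B hae
  refine ⟨hxm.toLp, ?_, ?_⟩
  · apply norm_le_of_ae hB0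
    filter_upwards [hae, MemLp.coeFn_toLp hxm] with t h1 h2
    rw [h2]; exact h1
  · intro n
    rw [co_eq, fourierCoeff_congr_ae (MemLp.coeFn_toLp hxm), ← fourierBasis_repr,
      HilbertBasis.repr_apply_apply, hxc]

end Pool.Agent.Helper406.Toep
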